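import Pool.Agent.H20.CU.EQ

set_option linter.unusedVariables false
set_option linter.unusedSectionVars false

namespace CU

open SW

section
variable {P : Type} [Preorder P] {G : Type} [Group G] [MulAction G P]

theorem act_one : ∀ a : Nm P, act (1 : G) a = a := by
  intro a
  induction a with
  | mk ι x c ih => simp only [act, ih, one_smul]

theorem act_mul (g h : G) : ∀ a : Nm P, act (g * h) a = act g (act h a) := by
  intro a
  induction a with
  | mk ι x c ih => simp only [act, ih, mul_smul]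

variable [H : SymSys P G]

theorem smul_le_iff' (g : G) (p q : P) : g • p ≤ g • q ↔ p ≤ q := by
  refine ⟨fun h => ?_, fun h => H.mono g h⟩
  have := H.mono g⁻¹ h
  rwa [inv_smul_smul, inv_smul_smul] at this

theorem eqF_act_mp (g : G) : ∀ (a b : Nm P) (p : P), EqF a b p →
    EqF (act g a) (act g b) (g • p) := by
  intro a
  induction a with
  | mk ι x c ih =>
    intro b p h
    obtain ⟨κ, y, d⟩ := b
    refine ⟨fun i q hq hc => ?_, fun j q hq hc => ?_⟩
    · have hq' : g⁻¹ • q ≤ p := by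
        rw [← smul_le_iff' g, smul_inv_smul]; exact hq
      have hc' : g⁻¹ • q ≤ c i := by
        rw [← smul_le_iff' g, smul_inv_smul]; exact hc
      obtain ⟨r, hr, j, hj, e⟩ := h.1 i _ hq' hc'
      refine ⟨g • r, ?_, j, H.mono g hj, ih i _ _ e⟩
      have := H.mono g hr
      rwa [smul_inv_smul] at this
    · have hq' : g⁻¹ • q ≤ p := by
        rw [← smul_le_iff' g, smul_inv_smul]; exact hq
      have hc' : g⁻¹ • q ≤ d j := by
        rw [← smul_le_iff' g, smul_inv_smul]; exact hc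
      obtain ⟨r, hr, i, hi, e⟩ := h.2 j _ hq' hc'
      refine ⟨g • r, ?_, i, H.mono g hi, ih i _ _ e⟩
      have := H.mono g hr
      rwa [smul_inv_smul] at this

theorem eqF_act (g : G) (a b : Nm P) (p : P) :
    EqF (act g a) (act g b) (g • p) ↔ EqF a b p := by
  refine ⟨fun h => ?_, eqF_act_mp g a b p⟩
  have := eqF_act_mp g⁻¹ _ _ _ h
  rwa [← act_mul, ← act_mul, inv_mul_cancel, act_one, act_one, inv_smul_smul] at this

theorem memF_act_mp (g : G) (a b : Nm P) (p : P) (h : MemF a b p) :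
    MemF (act g a) (act g b) (g • p) := by
  intro q hq
  have hq' : g⁻¹ • q ≤ p := by
    rw [← smul_le_iff' g, smul_inv_smul]; exact hq
  obtain ⟨r, hr, j, hj, e⟩ := h _ hq'
  obtain ⟨κ, y, d⟩ := b
  refine ⟨g • r, ?_, j, H.mono g hj, eqF_act_mp g _ _ _ e⟩
  have := H.mono g hr
  rwa [smul_inv_smul] at this

theorem memF_act (g : G) (a b : Nm P) (p : P) :
    MemF (act g a) (act g b) (g • p) ↔ MemF a b p := by
  refine ⟨fun h => ?_, memF_act_mp g a b p⟩
  have := memF_act_mp g⁻¹ _ _ _ h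
  rwa [← act_mul, ← act_mul, inv_mul_cancel, act_one, act_one, inv_smul_smul] at this

theorem sy_act (g : G) (S T : SymSys.Sp P G) (a : Nm P)
    (h : ∀ f ∈ SymSys.Fix (P := P) T, g⁻¹ * f * g ∈ SymSys.Fix (P := P) S) (ha : Sy S a) :
    Sy T (act g a) := by
  intro f hf p
  have h1 := ha _ (h f hf) (g⁻¹ • p)
  rw [← eqF_act g, smul_inv_smul, ← act_mul] at h1
  have : g * (g⁻¹ * f * g) = f * g := by group
  rw [this, act_mul] at h1
  exact h1

theorem hr_act (g : G) : ∀ a : Nm P, HR G a → HR G (act g a) := by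
  intro a
  induction a with
  | mk ι x c ih =>
    intro h
    obtain ⟨⟨S, hS⟩, hx⟩ := h
    obtain ⟨T, hT⟩ := SymSys.normal (P := P) S g
    exact ⟨⟨T, sy_act g S T _ hT hS⟩, fun i => ih i (hx i)⟩

theorem sy_of_hr {a : Nm P} (h : HR G a) : ∃ S : SymSys.Sp P G, Sy S a := by
  obtain ⟨ι, x, c⟩ := a
  exact h.1

theorem hr_el {a : Nm P} (h : HR G a) (i : a.I) : HR G (a.el i) := by
  obtain ⟨ι, x, c⟩ := a
  exact h.2 i

theorem sy_fin {n : ℕ} (v : Fin n → HN P G) (S : SymSys.Sp P G) : ∃ T : SymSys.Sp P G,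
    (∀ g ∈ SymSys.Fix (P := P) (G := G) T, g ∈ SymSys.Fix (P := P) (G := G) S) ∧
    ∀ i, Sy T (v i).1 := by
  induction n with
  | zero => exact ⟨S, fun g hg => hg, fun i => i.elim0⟩
  | succ n ih =>
    obtain ⟨T, hT, hv⟩ := ih (fun i => v i.succ)
    obtain ⟨U, hU⟩ := sy_of_hr (v 0).2
    obtain ⟨W, hW⟩ := SymSys.dir (P := P) (G := G) T U
    refine ⟨W, fun g hg => hT g (hW g hg).1, fun i => ?_⟩
    refine Fin.cases ?_ (fun j => ?_) i
    · exact fun g hg p => hU g (hW g hg).2 p
    · exact fun g hg p => hv j g (hW g hg).1 p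

end

/-- module ACT -/
theorem actFacts : ACTStmt := fun P G _ _ _ _ =>
  { one := act_one
    mul := act_mul
    le_iff := smul_le_iff'
    eq := eqF_act
    mem := memF_act
    sy := sy_act
    hr := hr_act
    fin := sy_fin }

end CU
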