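import Pool.Agent.H20.CU.ZFZ

set_option linter.unusedVariables false
set_option linter.unusedSectionVars false
set_option synthInstance.maxSize 100000

namespace CU

open SW

theorem sat_u {n k : ℕ} (f : Fml (n + 1)) (j : Fin k) (r : Fin n → Fin k) :
    UDf (fun N _ (w : Fin k → N) => Sat f (Fin.cons (w j) (fun i => w (r i)))) := by
  refine ⟨f.ren (Fin.cons j r), fun N _ w => ?_⟩
  rw [Sat_ren]
  have : (fun i => w ((Fin.cons j r : Fin (n + 1) → Fin k) i))
      = (Fin.cons (w j) (fun i => w (r i)) : Fin (n + 1) → N) := by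
    funext i
    refine Fin.cases ?_ (fun i => ?_) i <;> rfl
  rw [this]

theorem sat_u2 {n k : ℕ} (f : Fml (n + 2)) (j j' : Fin k) (r : Fin n → Fin k) :
    UDf (fun N _ (w : Fin k → N) => Sat f (Fin.cons (w j) (Fin.cons (w j') (fun i => w (r i))))) := by
  refine ⟨f.ren (Fin.cons j (Fin.cons j' r)), fun N _ w => ?_⟩
  rw [Sat_ren]
  have : (fun i => w ((Fin.cons j (Fin.cons j' r) : Fin (n + 2) → Fin k) i))
      = (Fin.cons (w j) (Fin.cons (w j') (fun i => w (r i))) : Fin (n + 2) → N) := by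
    funext i
    refine Fin.cases rfl (fun i => ?_) i
    refine Fin.cases rfl (fun i => rfl) i
  rw [this]

section
variable {P : Type} [Preorder P] {G : Type} [Group G] [MulAction G P] [H : SymSys P G]

theorem gn_sep {ν : ℕ → HN P G} {c : ℕ → P} (hg : Gn ν c) (n : ℕ) (f : Fml (n + 1))
    (v : Fin n → GQ ν c) (a : GQ ν c) : ∃ b, ∀ x, E x b ↔ E x a ∧ Sat f (Fin.cons x v) := by
  obtain ⟨ja, rfl⟩ := gn_surj a
  choose jv hjv using fun i => gn_surj (v i)
  obtain rfl : v = fun i => qc ν c (jv i) := funext hjv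
  have _ : UDf (fun N _ (w : Fin (n + 3) → N) =>
      Sat f (Fin.cons (w 0) (fun i => w i.succ.succ.succ))) :=
    sat_u f 0 (fun i => i.succ.succ.succ)
  refine exw (fun N _ b (w : Fin (n + 1) → N) => ∀ x, E x b ↔ E x (w 0) ∧
    Sat f (Fin.cons x (fun i => w i.succ))) (fun v => ?_) ν c hg (Fin.cons ja jv)
  obtain ⟨T, _, hT⟩ := sy_fin v H.S0
  let a : HN P G := v 0
  let e : a.1.I → HN P G := fun i => ⟨a.1.el i, hr_el a.2 i⟩
  let vv : Fin n → HN P G := fun i => v i.succ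
  have hS : Sy T (sepN a.1 (fun i r => Frc f r (Fin.cons (e i) vv))) := by
    refine sepN_sy (hT 0) fun g hgT i j r r' h1 h2 he => ?_
    have h3 := frc_mono f h2 ((frc_act f g).2 h1)
    refine frc_congr f (fun k => ?_) h3
    refine Fin.cases ?_ (fun k => ?_) k
    · exact he
    · exact hT k.succ g hgT r'
  refine ⟨⟨_, sepN_hr a.2 hS⟩, fun ν' c' hg' m w hm hw x => ?_⟩
  obtain ⟨j, rfl⟩ := gn_surj x
  have hle := le_of_anti hg'.anti
  have hw0 : ν' (w 0) = a := hw 0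
  have hws : ∀ i : Fin n, ν' (w i.succ) = vv i := fun i => hw i.succ
  have hsat : Sat f (Fin.cons (qc ν' c' j) (fun i => qc ν' c' (w i.succ)) : Fin (n + 1) → _) ↔
      ∃ k, Frc f (c' k) (Fin.cons (ν' j) vv) := by
    have e1 : (Fin.cons (qc ν' c' j) (fun i => qc ν' c' (w i.succ)) : Fin (n + 1) → GQ ν' c')
        = fun i => qc ν' c' ((Fin.cons j (fun i => w i.succ) : Fin (n + 1) → ℕ) i) := by
      funext i
      refine Fin.cases rfl (fun i => rfl) i
    have e2 : (fun i => ν' ((Fin.cons j (fun i => w i.succ) : Fin (n + 1) → ℕ) i))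
        = (Fin.cons (ν' j) vv : Fin (n + 1) → HN P G) := by
      funext i
      refine Fin.cases rfl (fun i => hws i) i
    rw [e1, gn_truth hg', e2]
  show E (qc ν' c' j) (qc ν' c' m) ↔ E (qc ν' c' j) (qc ν' c' (w 0)) ∧
    Sat f (Fin.cons (qc ν' c' j) (fun i => qc ν' c' (w i.succ)))
  rw [hsat]
  constructor
  · intro h
    obtain ⟨k, hk⟩ := (gn_mem_iff hg' _ _).1 h
    rw [hm] at hk
    obtain ⟨r, hr, z, hz, ez⟩ := hk (c' k) le_rfl
    -- use a condition of the sequence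
    obtain ⟨m', l, z', e1, e2, e3⟩ := (gn_mem_iff' hg' _ _).1 h
    have gen : ∀ b : Nm P, b = sepN a.1 (fun i r => Frc f r (Fin.cons (e i) vv)) → ∀ z' : b.I,
        ∃ i, b.el z' = (e i).1 ∧ b.cd z' ≤ a.1.cd i ∧
          Frc f (b.cd z') (Fin.cons (e i) vv) := by
      rintro _ rfl z'
      exact ⟨z'.1.1, rfl, z'.2.1, z'.2.2⟩
    obtain ⟨i, f1, f2, f3⟩ := gen _ (by rw [hm]) z'
    obtain ⟨k', hk'⟩ := (gn_eq_iff hg' _ _).1 e3
    have hei : (ν' m').1 = (e i).1 := by rw [← e1, f1]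
    constructor
    · refine (gn_mem_iff hg' _ _).2 ⟨max l k', ?_⟩
      rw [hw0]
      have h1 : MemF (e i).1 a.1 (c' (max l k')) :=
        memF_intro i ((hle _ _ (le_max_left _ _)).trans (e2.trans f2))
      rw [hei] at hk'
      exact memF_congl (eqF_symm (eqF_mono hk' (hle _ _ (le_max_right _ _)))) h1
    · refine ⟨max l k', ?_⟩
      have h1 := frc_mono f ((hle l (max l k') (le_max_left _ _)).trans e2) f3
      refine frc_congr f (fun k => ?_) h1
      refine Fin.cases ?_ (fun k => ?_) k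
      · show EqF (e i).1 (ν' j).1 _
        rw [← hei]
        exact eqF_symm (eqF_mono hk' (hle _ _ (le_max_right _ _)))
      · exact eqF_refl _ _
  · rintro ⟨h1, k, hk⟩
    obtain ⟨l, hl⟩ := (gn_mem_iff hg' _ _).1 h1
    rw [hw0] at hl
    refine (gn_mem_iff hg' _ _).2 ⟨max k l, ?_⟩
    rw [hm]
    have l1 := hle k (max k l) (le_max_left _ _)
    have l2 := hle l (max k l) (le_max_right _ _)
    intro q hq
    obtain ⟨r, hr, i, hi, ei⟩ := hl q (hq.trans l2)
    have h2 : Frc f r (Fin.cons (e i) vv) := by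
      refine frc_congr f (fun k => ?_) (frc_mono f ((hr.trans hq).trans l1) hk)
      refine Fin.cases ?_ (fun k => ?_) k
      · exact ei
      · exact eqF_refl _ _
    exact ⟨r, hr, ⟨(i, r), hi, h2⟩, le_rfl, ei⟩

/-- collection -/
theorem gn_coll {ν : ℕ → HN P G} {c : ℕ → P} (hg : Gn ν c) (n : ℕ) (f : Fml (n + 2))
    (v : Fin n → GQ ν c) (a : GQ ν c)
    (h : ∀ x, E x a → ∃ y, Sat f (Fin.cons x (Fin.cons y v))) :
    ∃ b, ∀ x, E x a → ∃ y, E y b ∧ Sat f (Fin.cons x (Fin.cons y v)) := by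
  obtain ⟨ja, rfl⟩ := gn_surj a
  choose jv hjv using fun i => gn_surj (v i)
  obtain rfl : v = fun i => qc ν c (jv i) := funext hjv
  have _ : UDf (fun N _ (w : Fin (n + 4) → N) =>
      Sat f (Fin.cons (w (Fin.succ 0)) (Fin.cons (w 0) (fun i => w i.succ.succ.succ.succ)))) :=
    sat_u2 f (Fin.succ 0) 0 (fun i => i.succ.succ.succ.succ)
  have key := exw (fun N _ b (w : Fin (n + 1) → N) =>
    (∀ x, E x (w 0) → ∃ y, Sat f (Fin.cons x (Fin.cons y (fun i => w i.succ)))) →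
    ∀ x, E x (w 0) → ∃ y, E y b ∧ Sat f (Fin.cons x (Fin.cons y (fun i => w i.succ))))
    (fun v => ?_) ν c hg (Fin.cons ja jv)
  · obtain ⟨b, hb⟩ := key
    exact ⟨b, hb h⟩
  classical
  obtain ⟨T, _, hT⟩ := sy_fin v H.S0
  let a : HN P G := v 0
  let e : a.1.I → HN P G := fun i => ⟨a.1.el i, hr_el a.2 i⟩
  let vv : Fin n → HN P G := fun i => v i.succ
  let Y : a.1.I → P → HN P G := fun i r =>
    if h : ∃ y : HN P G, Frc f r (Fin.cons (e i) (Fin.cons y vv)) then h.choose else empN P G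
  have hY : ∀ i r (y : HN P G), Frc f r (Fin.cons (e i) (Fin.cons y vv)) →
      Frc f r (Fin.cons (e i) (Fin.cons (Y i r) vv)) := by
    intro i r y hy
    have h1 : ∃ y : HN P G, Frc f r (Fin.cons (e i) (Fin.cons y vv)) := ⟨y, hy⟩
    have : Y i r = h1.choose := dif_pos h1
    rw [this]
    exact h1.choose_spec
  let B : Nm P := famN (fun z : {g : G // g ∈ SymSys.Fix (P := P) (G := G) T} × a.1.I × P =>
    act z.1.1 (Y z.2.1 z.2.2).1)
  have hB : Sy T B := by
    refine famN_sy fun g hgT z q => ?_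
    show MemF (act g (act z.1.1 (Y z.2.1 z.2.2).1)) B q
    rw [← act_mul]
    exact memF_famN (fun z : {g : G // g ∈ SymSys.Fix (P := P) (G := G) T} × a.1.I × P =>
      act z.1.1 (Y z.2.1 z.2.2).1) (⟨g * z.1.1, mul_mem hgT z.1.2⟩, z.2.1, z.2.2) q
  refine ⟨⟨B, famN_hr (fun z => hr_act _ _ (Y z.2.1 z.2.2).2) hB⟩,
    fun ν' c' hg' m w hm hw hex x hx => ?_⟩
  obtain ⟨m', l, i0, e1, e2, rfl⟩ := (gn_mem_iff' hg' _ _).1 hx
  have hle := le_of_anti hg'.anti
  have hw0 : ν' (w 0) = a := hw 0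
  have hws : ∀ i : Fin n, ν' (w i.succ) = vv i := fun i => hw i.succ
  have hi : ∃ i : a.1.I, ν' m' = e i := by
    have gen : ∀ b : HN P G, b = a → ∀ i0 : b.1.I, ∃ i : a.1.I, b.1.el i0 = (e i).1 := by
      rintro _ rfl i0
      exact ⟨i0, rfl⟩
    obtain ⟨i, hi⟩ := gen _ hw0 i0
    exact ⟨i, Subtype.ext (by rw [← e1, hi])⟩
  obtain ⟨i, hi⟩ := hi
  obtain ⟨y, hy⟩ := hex _ hx
  obtain ⟨my, rfl⟩ := gn_surj y
  have e3 : ∀ j : ℕ, (Fin.cons (qc ν' c' m') (Fin.cons (qc ν' c' j)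
      (fun i => qc ν' c' (w i.succ))) : Fin (n + 2) → GQ ν' c')
      = fun i => qc ν' c' ((Fin.cons m' (Fin.cons j (fun i => w i.succ)) : Fin (n + 2) → ℕ) i) := by
    intro j
    funext i
    refine Fin.cases rfl (fun i => ?_) i
    refine Fin.cases rfl (fun i => rfl) i
  have e4 : (fun i => ν' ((Fin.cons m' (Fin.cons my (fun i => w i.succ)) : Fin (n + 2) → ℕ) i))
      = (Fin.cons (e i) (Fin.cons (ν' my) vv) : Fin (n + 2) → HN P G) := by
    funext k
    refine Fin.cases hi (fun k => ?_) k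
    refine Fin.cases rfl (fun k => hws k) k
  have h1 : ∃ k, Frc f (c' k) (Fin.cons (e i) (Fin.cons (ν' my) vv)) := by
    have := hy
    rw [e3, gn_truth hg', e4] at this
    exact this
  obtain ⟨k, hk⟩ := h1
  have h2 := hY i (c' k) _ hk
  -- the statement with the collected name is forced
  have _ : UDf (fun N _ (w : Fin (n + 3) → N) =>
      E (w 0) (w (Fin.succ 1)) ∧ Sat f (Fin.cons (w (Fin.succ 0)) (Fin.cons (w 0)
        (fun i => w i.succ.succ.succ)))) := by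
    have _ : UDf (fun N _ (w : Fin (n + 3) → N) => Sat f (Fin.cons (w (Fin.succ 0))
      (Fin.cons (w 0) (fun i => w i.succ.succ.succ)))) :=
      sat_u2 f (Fin.succ 0) 0 (fun i => i.succ.succ.succ)
    infer_instance
  have h3 : FS (fun N _ (w : Fin (n + 2) → N) => ∃ y, E y (w 1) ∧
      Sat f (Fin.cons (w 0) (Fin.cons y (fun i => w i.succ.succ)))) (c' k)
      (Fin.cons (e i) (Fin.cons (⟨B, famN_hr (fun z => hr_act _ _ (Y z.2.1 z.2.2).2) hB⟩ : HN P G)
        vv)) := by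
    refine (fs_ex (fun N _ y (w : Fin (n + 2) → N) => E y (w 1) ∧
      Sat f (Fin.cons (w 0) (Fin.cons y (fun i => w i.succ.succ))))).2
      fun q hq => ⟨q, le_rfl, Y i (c' k), ?_⟩
    intro ν'' c'' hg'' ⟨k', hk'⟩ w'' hw''
    have g0 : ν'' (w'' 0) = Y i (c' k) := hw'' 0
    have g1 : ν'' (w'' (Fin.succ 0)) = e i := hw'' (Fin.succ 0)
    have g2 : ν'' (w'' (Fin.succ (Fin.succ 0))) = ⟨B, famN_hr (fun z => hr_act _ _ (Y z.2.1 z.2.2).2) hB⟩ :=
      hw'' (Fin.succ (Fin.succ 0))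
    have g3 : ∀ i : Fin n, ν'' (w'' i.succ.succ.succ) = vv i := fun i => hw'' i.succ.succ.succ
    constructor
    · show E (qc ν'' c'' (w'' 0)) (qc ν'' c'' (w'' (Fin.succ (Fin.succ 0))))
      refine (gn_mem_iff hg'' _ _).2 ⟨0, ?_⟩
      rw [g0, g2]
      have := memF_famN (fun z : {g : G // g ∈ SymSys.Fix (P := P) (G := G) T} × a.1.I × P =>
        act z.1.1 (Y z.2.1 z.2.2).1) (⟨1, one_mem _⟩, i, c' k) (c'' 0)
      rw [act_one] at this
      exact this
    · show Sat f (Fin.cons (qc ν'' c'' (w'' (Fin.succ 0))) (Fin.cons (qc ν'' c'' (w'' 0))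
        (fun i => qc ν'' c'' (w'' i.succ.succ.succ))))
      have e5 : (Fin.cons (qc ν'' c'' (w'' (Fin.succ 0))) (Fin.cons (qc ν'' c'' (w'' 0))
          (fun i => qc ν'' c'' (w'' i.succ.succ.succ))) : Fin (n + 2) → GQ ν'' c'')
          = fun i => qc ν'' c'' ((Fin.cons (w'' (Fin.succ 0)) (Fin.cons (w'' 0)
            (fun i => w'' i.succ.succ.succ)) : Fin (n + 2) → ℕ) i) := by
        funext i
        refine Fin.cases rfl (fun i => ?_) i
        refine Fin.cases rfl (fun i => rfl) i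
      have e6 : (fun i => ν'' ((Fin.cons (w'' (Fin.succ 0)) (Fin.cons (w'' 0)
          (fun i => w'' i.succ.succ.succ)) : Fin (n + 2) → ℕ) i))
          = (Fin.cons (e i) (Fin.cons (Y i (c' k)) vv) : Fin (n + 2) → HN P G) := by
        funext k
        refine Fin.cases g1 (fun k => ?_) k
        refine Fin.cases g0 (fun k => g3 k) k
      rw [e5, gn_truth hg'', e6]
      exact ⟨k', frc_mono f (hk'.trans hq) h2⟩
  have h4 := h3 ν' c' hg' ⟨k, le_rfl⟩ (Fin.cons m' (Fin.cons m (fun i => w i.succ))) (fun j => by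
    refine Fin.cases hi (fun j => ?_) j
    refine Fin.cases hm (fun j => hws j) j)
  exact h4

theorem gn_repl {ν : ℕ → HN P G} {c : ℕ → P} (hg : Gn ν c) (n : ℕ) (f : Fml (n + 2))
    (v : Fin n → GQ ν c) (a : GQ ν c)
    (h : ∀ x, E x a → ∃! y, Sat f (Fin.cons x (Fin.cons y v))) :
    ∃ b, ∀ y, E y b ↔ ∃ x, E x a ∧ Sat f (Fin.cons x (Fin.cons y v)) := by
  obtain ⟨b, hb⟩ := gn_coll hg n f v a (fun x hx => (h x hx).exists)
  have h1 : UDf (fun N _ (w : Fin (n + 2) → N) => ∃ x, E x (w 1) ∧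
      Sat f (Fin.cons x (Fin.cons (w 0) (fun i => w i.succ.succ)))) := by
    have _ : UDf (fun N _ (w : Fin (n + 3) → N) => Sat f (Fin.cons (w 0)
      (Fin.cons (w (Fin.succ 0)) (fun i => w i.succ.succ.succ)))) :=
      sat_u2 f 0 (Fin.succ 0) (fun i => i.succ.succ.succ)
    infer_instance
  obtain ⟨f', hf'⟩ := h1.out
  obtain ⟨b', hb'⟩ := gn_sep hg (n + 1) f' (Fin.cons a v) b
  refine ⟨b', fun y => ?_⟩
  rw [hb', ← hf']
  constructor
  · rintro ⟨_, x, hx, hs⟩
    exact ⟨x, hx, hs⟩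
  · rintro ⟨x, hx, hs⟩
    obtain ⟨y', hy', hs'⟩ := hb x hx
    rw [(h x hx).unique hs hs']
    refine ⟨hy', x, hx, ?_⟩
    exact hs'

/-- module ZF -/
theorem gn_zf {ν : ℕ → HN P G} {c : ℕ → P} (hg : Gn ν c) : ZF (GQ ν c) where
  ext := gn_ext hg
  found := gn_found hg
  pair := gn_pair hg
  union := gn_union hg
  power := gn_pow hg
  infinity := gn_inf hg
  sep := gn_sep hg
  repl := gn_repl hg

end

end CU
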