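import Pool.Agent.H20.CU.Om
import Pool.Agent.H20.CU.ZFM

/-!
Boxes, restriction to finitely many coordinates, permutations moving coordinates away,
homogeneity.
-/

set_option linter.unusedVariables false
set_option synthInstance.maxSize 100000

namespace CU

open SW Topology

/-- agreement on finitely many coordinates -/
def Ag (A : Finset ℕ) (B : Finset (ℕ × ℕ)) (x x' : Om) : Prop :=
  (∀ i ∈ A, x.1 i = x'.1 i) ∧ ∀ b ∈ B, x.2 b = x'.2 b

/-- the set depends only on the coordinates in `A` and `B` -/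
def Dep (A : Finset ℕ) (B : Finset (ℕ × ℕ)) (U : Set Om) : Prop :=
  ∀ x ∈ U, ∀ x', Ag A B x x' → x' ∈ U

/-- the restriction of a condition to finitely many coordinates -/
def rs (A : Finset ℕ) (B : Finset (ℕ × ℕ)) (U : Set Om) : Set Om := {x | ∃ x' ∈ U, Ag A B x x'}

/-- boxes -/
def bx (A : Finset ℕ) (B : Finset (ℕ × ℕ)) (O : ℕ → Set ℝ) (W : ℕ × ℕ → Set (ℝ × (ℕ → Bool))) :
    Set Om := {x | (∀ i ∈ A, x.1 i ∈ O i) ∧ ∀ b ∈ B, x.2 b ∈ W b}

/-- `x` on the coordinates in `A`, `B` and `y` on the others -/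
def mix (A : Finset ℕ) (B : Finset (ℕ × ℕ)) (x y : Om) : Om :=
  (fun i => if i ∈ A then x.1 i else y.1 i, fun b => if b ∈ B then x.2 b else y.2 b)

section
variable {A A' : Finset ℕ} {B B' : Finset (ℕ × ℕ)} {x y z : Om} {U V : Set Om}

theorem Ag.refl (x : Om) : Ag A B x x := ⟨fun _ _ => rfl, fun _ _ => rfl⟩

theorem Ag.symm (h : Ag A B x y) : Ag A B y x :=
  ⟨fun i hi => (h.1 i hi).symm, fun b hb => (h.2 b hb).symm⟩

theorem Ag.trans (h : Ag A B x y) (h' : Ag A B y z) : Ag A B x z :=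
  ⟨fun i hi => (h.1 i hi).trans (h'.1 i hi), fun b hb => (h.2 b hb).trans (h'.2 b hb)⟩

theorem Ag.mono (h : Ag A' B' x y) (hA : A ⊆ A') (hB : B ⊆ B') : Ag A B x y :=
  ⟨fun i hi => h.1 i (hA hi), fun b hb => h.2 b (hB hb)⟩

theorem mix_ag (A : Finset ℕ) (B : Finset (ℕ × ℕ)) (x y : Om) : Ag A B (mix A B x y) x :=
  ⟨fun i hi => if_pos hi, fun b hb => if_pos hb⟩

theorem sub_rs (U : Set Om) : U ⊆ rs A B U := fun x hx => ⟨x, hx, Ag.refl x⟩

theorem rs_mono (h : U ⊆ V) : rs A B U ⊆ rs A B V := fun x ⟨x', hx', e⟩ => ⟨x', h hx', e⟩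

theorem dep_rs (U : Set Om) : Dep A B (rs A B U) :=
  fun x ⟨x', hx', e⟩ y hy => ⟨x', hx', hy.symm.trans e⟩

theorem Dep.mono (h : Dep A B U) (hA : A ⊆ A') (hB : B ⊆ B') : Dep A' B' U :=
  fun x hx x' e => h x hx x' (e.mono hA hB)

theorem Dep.inter (h : Dep A B U) (h' : Dep A B V) : Dep A B (U ∩ V) :=
  fun x hx x' e => ⟨h x hx.1 x' e, h' x hx.2 x' e⟩

theorem rs_eq (h : Dep A B U) : rs A B U = U :=
  Set.Subset.antisymm (fun x ⟨x', hx', e⟩ => h x' hx' x e.symm) (sub_rs U)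

theorem bx_open {O : ℕ → Set ℝ} {W : ℕ × ℕ → Set (ℝ × (ℕ → Bool))} (hO : ∀ i, IsOpen (O i))
    (hW : ∀ b, IsOpen (W b)) : IsOpen (bx A B O W) := by
  have h1 : bx A B O W = (⋂ i ∈ A, {x : Om | x.1 i ∈ O i}) ∩ ⋂ b ∈ B, {x : Om | x.2 b ∈ W b} := by
    ext x
    simp [bx]
  rw [h1]
  refine IsOpen.inter ?_ ?_
  · refine isOpen_biInter_finset fun i _ => ?_
    exact (hO i).preimage ((continuous_apply i).comp continuous_fst)
  · refine isOpen_biInter_finset fun b _ => ?_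
    exact (hW b).preimage ((continuous_apply b).comp continuous_snd)

theorem bx_dep {O : ℕ → Set ℝ} {W : ℕ × ℕ → Set (ℝ × (ℕ → Bool))} : Dep A B (bx A B O W) :=
  fun x hx x' e => ⟨fun i hi => by rw [← e.1 i hi]; exact hx.1 i hi,
    fun b hb => by rw [← e.2 b hb]; exact hx.2 b hb⟩

/-- boxes form a base -/
theorem exists_box (hU : IsOpen U) (hx : x ∈ U) : ∃ (A : Finset ℕ) (B : Finset (ℕ × ℕ))
    (O : ℕ → Set ℝ) (W : ℕ × ℕ → Set (ℝ × (ℕ → Bool))), (∀ i, IsOpen (O i)) ∧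
    (∀ b, IsOpen (W b)) ∧ x ∈ bx A B O W ∧ bx A B O W ⊆ U := by
  classical
  obtain ⟨u, v, hu, hv, hxu, hxv, huv⟩ := isOpen_prod_iff.1 hU x.1 x.2 hx
  obtain ⟨I, o, ho, hIo⟩ := isOpen_pi_iff.1 hu x.1 hxu
  obtain ⟨J, w, hw, hJw⟩ := isOpen_pi_iff.1 hv x.2 hxv
  refine ⟨I, J, fun i => if i ∈ I then o i else Set.univ, fun b => if b ∈ J then w b else Set.univ,
    fun i => ?_, fun b => ?_, ⟨fun i hi => ?_, fun b hb => ?_⟩, fun y hy => ?_⟩
  · by_cases h : i ∈ I
    · simp only [if_pos h]; exact (ho i h).1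
    · simp only [if_neg h]; exact isOpen_univ
  · by_cases h : b ∈ J
    · simp only [if_pos h]; exact (hw b h).1
    · simp only [if_neg h]; exact isOpen_univ
  · simp only [if_pos hi]; exact (ho i hi).2
  · simp only [if_pos hb]; exact (hw b hb).2
  · refine huv ⟨hIo fun i hi => ?_, hJw fun b hb => ?_⟩
    · have := hy.1 i hi
      simp only [if_pos (Finset.mem_coe.1 hi)] at this
      exact this
    · have := hy.2 b hb
      simp only [if_pos (Finset.mem_coe.1 hb)] at this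
      exact this

theorem rs_open (hU : IsOpen U) : IsOpen (rs A B U) := by
  rw [isOpen_iff_forall_mem_open]
  rintro x ⟨x', hx', e⟩
  obtain ⟨A1, B1, O, W, hO, hW, h1, h2⟩ := exists_box hU hx'
  refine ⟨bx (A1 ∩ A) (B1 ∩ B) O W, fun y hy => ?_, bx_open hO hW, ?_⟩
  · refine ⟨mix A B y x', h2 ⟨fun i hi => ?_, fun b hb => ?_⟩, (mix_ag A B y x').symm⟩
    · show (if i ∈ A then y.1 i else x'.1 i) ∈ O i
      by_cases h : i ∈ A
      · rw [if_pos h]; exact hy.1 i (Finset.mem_inter.2 ⟨hi, h⟩)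
      · rw [if_neg h]; exact h1.1 i hi
    · show (if b ∈ B then y.2 b else x'.2 b) ∈ W b
      by_cases h : b ∈ B
      · rw [if_pos h]; exact hy.2 b (Finset.mem_inter.2 ⟨hb, h⟩)
      · rw [if_neg h]; exact h1.2 b hb
  · refine ⟨fun i hi => ?_, fun b hb => ?_⟩
    · rw [e.1 i (Finset.mem_inter.1 hi).2]; exact h1.1 i (Finset.mem_inter.1 hi).1
    · rw [e.2 b (Finset.mem_inter.1 hb).2]; exact h1.2 b (Finset.mem_inter.1 hb).1

end

/-- the restriction as a condition -/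
def rsP (A : Finset ℕ) (B : Finset (ℕ × ℕ)) (U : Pc) : Pc :=
  ⟨rs A B U.1, rs_open U.2.1, U.2.2.mono (sub_rs U.1)⟩

theorem le_rsP (A : Finset ℕ) (B : Finset (ℕ × ℕ)) (U : Pc) : U ≤ rsP A B U := sub_rs U.1

/-! ### permutations moving coordinates away -/

theorem exists_swap {α : Type} (D : Finset α) (T : α → α) (hT : Function.Injective T)
    (hd : ∀ x ∈ D, T x ∉ D) : ∃ ρ : Equiv.Perm α, (∀ x ∈ D, ρ x = T x) ∧ (∀ x ∈ D, ρ (T x) = x) ∧
      (∀ z, z ∉ D → (∀ x ∈ D, z ≠ T x) → ρ z = z) ∧ ∀ z, ρ (ρ z) = z := by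
  classical
  let f : α → α := fun z => if z ∈ D then T z else if h : ∃ x ∈ D, T x = z then h.choose else z
  have f1 : ∀ x ∈ D, f x = T x := fun x hx => if_pos hx
  have f2 : ∀ x ∈ D, f (T x) = x := by
    intro x hx
    have h : ∃ y ∈ D, T y = T x := ⟨x, hx, rfl⟩
    have : f (T x) = h.choose := by
      show (if T x ∈ D then T (T x) else if h : ∃ y ∈ D, T y = T x then h.choose else T x) = _
      rw [if_neg (hd x hx), dif_pos h]
    rw [this]
    exact hT h.choose_spec.2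
  have f3 : ∀ z, z ∉ D → (∀ x ∈ D, z ≠ T x) → f z = z := by
    intro z hz h
    have h' : ¬ ∃ y ∈ D, T y = z := fun ⟨y, hy, e⟩ => h y hy e.symm
    show (if z ∈ D then T z else if h : ∃ y ∈ D, T y = z then h.choose else z) = _
    rw [if_neg hz, dif_neg h']
  have f4 : ∀ z, f (f z) = z := by
    intro z
    by_cases h1 : z ∈ D
    · rw [f1 z h1, f2 z h1]
    · by_cases h2 : ∃ y ∈ D, T y = z
      · obtain ⟨y, hy, rfl⟩ := h2
        rw [f2 y hy, f1 y hy]
      · have h3 : ∀ x ∈ D, z ≠ T x := fun x hx e => h2 ⟨x, hx, e.symm⟩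
        rw [f3 z h1 h3, f3 z h1 h3]
  exact ⟨Function.Involutive.toPerm f f4, f1, f2, f3, f4⟩

/-- the group element given by permutations of the coordinates -/
noncomputable def PE (θ : Equiv.Perm ℕ) (π : Equiv.Perm (ℕ × ℕ)) (F : Finset ℕ)
    (hF : ∀ i ∉ F, θ i = i) (hπ : ∀ b, (π b).1 = b.1) (hπ' : {b | π b ≠ b}.Finite) : GE where
  h :=
    { toFun := fun c i => c (θ⁻¹ i)
      invFun := fun c i => c (θ i)
      left_inv := fun c => by
        funext i
        show c (θ⁻¹ (θ i)) = c i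
        rw [perm_inv_l]
      right_inv := fun c => by
        funext i
        show c (θ (θ⁻¹ i)) = c i
        rw [perm_inv_r]
      continuous_toFun := continuous_pi fun i => continuous_apply _
      continuous_invFun := continuous_pi fun i => continuous_apply _ }
  π := π
  s := fun _ _ => 0
  hloc := by
    have h1 : ∀ i ∉ F, θ⁻¹ i = i := fun i hi => by
      rw [Equiv.Perm.inv_eq_iff_eq]; exact (hF i hi).symm
    have h2 : ∀ i ∈ F, θ i ∈ F := fun i hi => by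
      by_contra h
      have := h1 _ h
      rw [perm_inv_l] at this
      exact h (this ▸ hi)
    have h3 : ∀ i ∈ F, θ⁻¹ i ∈ F := fun i hi => by
      by_contra h
      have := hF _ h
      rw [perm_inv_r] at this
      exact h (this ▸ hi)
    exact ⟨F, fun c i hi => by show c (θ⁻¹ i) = c i; rw [h1 i hi],
      fun c c' e i hi => e _ (h3 i hi), fun c i hi => by show c (θ i) = c i; rw [hF i hi],
      fun c c' e i hi => e _ (h2 i hi)⟩
  blk := hπ
  fin := hπ'
  cont := fun _ => continuous_const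
  sloc := fun _ => ⟨∅, fun _ _ _ => rfl⟩

/-- The coordinates in `A1 \ A` and `B1 \ B` can be moved out of the finite sets `A2`, `B2` by an
involution which fixes `A`, `B` and the rest of `A2`, `B2`. -/
structure Mv (A A1 A2 : Finset ℕ) (B B1 B2 : Finset (ℕ × ℕ)) (g : GE) : Prop where
  h_eq : ∃ θ : Equiv.Perm ℕ, (∀ c i, g.h c i = c (θ i)) ∧ (∀ i, θ (θ i) = i) ∧
    (∀ i ∈ A, θ i = i) ∧ (∀ i ∈ A1, i ∉ A → θ i ∉ A1 ∧ θ i ∉ A2) ∧ (∀ i ∈ A2, i ∉ A1 → θ i = i)
  π_inv : ∀ b, g.π (g.π b) = b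
  π_B : ∀ b ∈ B, g.π b = b
  π_new : ∀ b ∈ B1, b ∉ B → g.π b ∉ B1 ∧ g.π b ∉ B2
  π_old : ∀ b ∈ B2, b ∉ B1 → g.π b = b
  s_zero : ∀ n c, g.s n c = 0

theorem exists_mv (A A1 A2 : Finset ℕ) (B B1 B2 : Finset (ℕ × ℕ)) :
    ∃ g : GE, Mv A A1 A2 B B1 B2 g := by
  classical
  obtain ⟨L, hL⟩ : ∃ L : ℕ, ∀ i ∈ A ∪ A1 ∪ A2, i < L := by
    refine ⟨(A ∪ A1 ∪ A2).sup id + 1, fun i hi => ?_⟩
    exact Nat.lt_succ_of_le (Finset.le_sup (f := id) hi)
  obtain ⟨L', hL'⟩ : ∃ L : ℕ, ∀ b ∈ B ∪ B1 ∪ B2, b.2 < L := by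
    refine ⟨(B ∪ B1 ∪ B2).sup (fun b => b.2) + 1, fun i hi => ?_⟩
    exact Nat.lt_succ_of_le (Finset.le_sup (f := fun b : ℕ × ℕ => b.2) hi)
  obtain ⟨θ, t1, t2, t3, t4⟩ := exists_swap (A1 \ A) (fun i => i + L)
    (fun i j h => by simpa using h) (fun i hi h => by
      have := hL (i + L) (by simp [(Finset.mem_sdiff.1 h).1])
      omega)
  obtain ⟨π, p1, p2, p3, p4⟩ := exists_swap (B1 \ B) (fun b => (b.1, b.2 + L'))
    (fun b b' h => by
      simp only [Prod.mk.injEq, add_left_inj] at h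
      exact Prod.ext h.1 h.2) (fun b hb h => by
      have := hL' (b.1, b.2 + L') (by simp [(Finset.mem_sdiff.1 h).1])
      simp at this)
  have lt1 : ∀ i ∈ A ∪ A1 ∪ A2, i ∉ A1 \ A → θ i = i := fun i hi h => t3 i h fun j hj e => by
    have := hL i hi
    omega
  have lt2 : ∀ b ∈ B ∪ B1 ∪ B2, b ∉ B1 \ B → π b = b := fun b hb h => p3 b h fun j hj e => by
    have := hL' b hb
    rw [e] at this
    simp at this
  have hblk : ∀ b, (π b).1 = b.1 := by
    intro b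
    by_cases h : b ∈ B1 \ B
    · rw [p1 b h]
    · by_cases h' : ∃ x ∈ B1 \ B, b = (x.1, x.2 + L')
      · obtain ⟨x, hx, rfl⟩ := h'
        rw [p2 x hx]
      · rw [p3 b h fun x hx e => h' ⟨x, hx, e⟩]
  refine ⟨PE θ π ((A1 \ A) ∪ (A1 \ A).image (fun i => i + L)) (fun i hi => ?_) hblk ?_, ?_⟩
  · rw [Finset.mem_union, not_or] at hi
    exact t3 i hi.1 fun x hx e => hi.2 (Finset.mem_image.2 ⟨x, hx, e.symm⟩)
  · refine ((B1 \ B) ∪ (B1 \ B).image (fun b => (b.1, b.2 + L'))).finite_toSet.subset fun b hb => ?_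
    by_contra h
    rw [Finset.mem_coe, Finset.mem_union, not_or] at h
    exact hb (p3 b h.1 fun x hx e => h.2 (Finset.mem_image.2 ⟨x, hx, e.symm⟩))
  · have hinv : ∀ i, θ⁻¹ i = θ i := fun i => by
      rw [Equiv.Perm.inv_eq_iff_eq, t4]
    refine ⟨⟨θ, fun c i => by show c (θ⁻¹ i) = c (θ i); rw [hinv], t4, fun i hi => ?_,
      fun i hi h => ?_, fun i hi h => ?_⟩, p4, fun b hb => ?_, fun b hb h => ?_, fun b hb h => ?_,
      fun n c => rfl⟩
    · exact lt1 i (by simp [hi]) fun h => (Finset.mem_sdiff.1 h).2 hi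
    · rw [t1 i (Finset.mem_sdiff.2 ⟨hi, h⟩)]
      constructor
      · intro h'
        have := hL (i + L) (by simp [h'])
        omega
      · intro h'
        have := hL (i + L) (by simp [h'])
        omega
    · exact lt1 i (by simp [hi]) fun h' => h (Finset.mem_sdiff.1 h').1
    · exact lt2 b (by simp [hb]) fun h => (Finset.mem_sdiff.1 h).2 hb
    · show π b ∉ B1 ∧ π b ∉ B2
      rw [p1 b (Finset.mem_sdiff.2 ⟨hb, h⟩)]
      constructor
      · intro h'
        have := hL' (b.1, b.2 + L') (by simp [h'])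
        simp at this
      · intro h'
        have := hL' (b.1, b.2 + L') (by simp [h'])
        simp at this
    · exact lt2 b (by simp [hb]) fun h' => h (Finset.mem_sdiff.1 h').1

end CU
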