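import Pool.Agent.H20.CU.KeyC

/-!
The key lemma; ordered pairs of names; countable unions of sections.
-/

set_option linter.unusedVariables false
set_option synthInstance.maxSize 100000

namespace CU

open SW Topology

/-- Key lemma: a member of a countable section of a set with support `(A, k, B)` has a name with
this support. -/
theorem key {A : Finset ℕ} {k : ℕ} {B : Finset (ℕ × ℕ)} (hB : ∀ b ∈ B, b.1 < k)
    {F c : HNO} {n : ℕ} {q : Pc} (hF : SyF A k B F.1)
    (h1 : FS QIn q ![numH Pc GE n, c, F]) (h2 : FS QCt q ![omH Pc GE, numH Pc GE n, F]) :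
    ∃ r, r ≤ q ∧ ∃ u : HNO, SyF A k B u.1 ∧ EqF c.1 u.1 r := by
  classical
  obtain ⟨A', k', B', hB', hc⟩ := exists_syF c
  obtain ⟨r, hr, u, hu, e⟩ := keyAB (A := A) (A' := A ∪ A') (k := max k k') (B := B)
    (B' := B ∪ B') (fun b hb => (hB b hb).trans_le (le_max_left _ _)) Finset.subset_union_left
    Finset.subset_union_left (fun b hb => by
      rcases Finset.mem_union.1 hb with h | h
      · exact (hB b h).trans_le (le_max_left _ _)
      · exact (hB' b h).trans_le (le_max_right _ _))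
    (hF.mono subset_rfl (le_max_left _ _) subset_rfl)
    (hc.mono Finset.subset_union_right (le_max_right _ _) Finset.subset_union_right) h1 h2
  have h2' := fs_mono QCt hr h2
  have h1' : FS QIn r ![numH Pc GE n, u, F] := fs_congr QIn (fun j => by
    fin_cases j
    · exact eqF_refl _ _
    · exact e
    · exact eqF_refl _ _) (fs_mono QIn hr h1)
  have down : ∀ (d : ℕ) (u : HNO), SyF A (k + d) B u.1 → FS QIn r ![numH Pc GE n, u, F] →
      ∃ u' : HNO, SyF A k B u'.1 ∧ EqF u.1 u'.1 r := by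
    intro d
    induction d with
    | zero => exact fun u hu _ => ⟨u, hu, eqF_refl _ _⟩
    | succ d ih =>
      intro u hu hin
      obtain ⟨u1, hu1, e1⟩ := keyC (A := A) (m := k + d) (B := B)
        (fun b hb => (hB b hb).trans_le (Nat.le_add_right _ _))
        (hF.mono subset_rfl (Nat.le_add_right _ _) subset_rfl) hu hin h2'
      obtain ⟨u2, hu2, e2⟩ := ih u1 hu1 (fs_congr QIn (fun j => by
        fin_cases j
        · exact eqF_refl _ _
        · exact e1
        · exact eqF_refl _ _) hin)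
      exact ⟨u2, hu2, eqF_trans e1 e2⟩
  obtain ⟨d, hd⟩ := Nat.exists_eq_add_of_le (le_max_left k k')
  rw [hd] at hu
  obtain ⟨u', hu', e'⟩ := down d u hu h1'
  exact ⟨r, hr, u', hu', eqF_trans e e'⟩

section
variable {P : Type} [Preorder P] {G : Type} [Group G] [MulAction G P] [H : SymSys P G]

theorem pairN_congr {a a' b b' : HN P G} {p : P} (h1 : EqF a.1 a'.1 p) (h2 : EqF b.1 b'.1 p) :
    EqF (pairN a b).1 (pairN a' b').1 p := by
  refine eqF_ext (fun i q hq hc => ?_) (fun i q hq hc => ?_)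
  · obtain ⟨t, r⟩ := i
    cases t
    · exact memF_congl (eqF_symm (eqF_mono h2 hq))
        (memF_famN (fun t : Bool => if t then a'.1 else b'.1) false q)
    · exact memF_congl (eqF_symm (eqF_mono h1 hq))
        (memF_famN (fun t : Bool => if t then a'.1 else b'.1) true q)
  · obtain ⟨t, r⟩ := i
    cases t
    · exact memF_congl (eqF_mono h2 hq)
        (memF_famN (fun t : Bool => if t then a.1 else b.1) false q)
    · exact memF_congl (eqF_mono h1 hq)
        (memF_famN (fun t : Bool => if t then a.1 else b.1) true q)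

theorem pairN_act (g : G) (a b : HN P G) (p : P) :
    EqF (act g (pairN a b).1) (pairN (actN g a) (actN g b)).1 p := by
  refine eqF_ext (fun i q hq hc => ?_) (fun i q hq hc => ?_)
  · obtain ⟨t, r⟩ := i
    cases t
    · exact memF_famN (fun t : Bool => if t then (actN g a).1 else (actN g b).1) false q
    · exact memF_famN (fun t : Bool => if t then (actN g a).1 else (actN g b).1) true q
  · obtain ⟨t, r⟩ := i
    cases t
    · exact act_famN_mem (fun t : Bool => if t then a.1 else b.1) g false q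
    · exact act_famN_mem (fun t : Bool => if t then a.1 else b.1) g true q

/-- the ordered pair -/
def opN (a b : HN P G) : HN P G := pairN (pairN a a) (pairN a b)

theorem opN_congr {a a' b b' : HN P G} {p : P} (h1 : EqF a.1 a'.1 p) (h2 : EqF b.1 b'.1 p) :
    EqF (opN a b).1 (opN a' b').1 p := pairN_congr (pairN_congr h1 h1) (pairN_congr h1 h2)

theorem opN_act (g : G) (a b : HN P G) (p : P) :
    EqF (act g (opN a b).1) (opN (actN g a) (actN g b)).1 p :=
  eqF_trans (pairN_act g _ _ p) (pairN_congr (pairN_act g a a p) (pairN_act g a b p))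

/-- `opN a b` is forced to be the ordered pair -/
theorem opN_fs (a b : HN P G) (p : P) :
    FS (fun N _ (w : Fin 3 → N) => IsOP (w 0) (w 1) (w 2)) p ![opN a b, a, b] := by
  refine fs_of _ (fun j => if j = 0 then pairN a a else pairN a b) fun ν d hg hk w hw u hu => ?_
  have w0 : ν (w 0) = opN a b := hw 0
  have w1 : ν (w 1) = a := hw 1
  have w2 : ν (w 2) = b := hw 2
  have u0 : ν (u 0) = pairN a a := hu 0
  have u1 : ν (u 1) = pairN a b := hu 1
  refine ⟨qc ν d (u 0), qc ν d (u 1), fun x => ?_, fun x => ?_, fun x => ?_⟩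
  · rw [gn_pairN hg (i := w 1) (j := w 1) (by rw [u0, w1]), or_self]
  · rw [gn_pairN hg (i := w 1) (j := w 2) (by rw [u1, w1, w2])]
  · rw [gn_pairN hg (i := u 0) (j := u 1) (by rw [w0, u0, u1]; rfl)]

theorem gn_opN {ν : ℕ → HN P G} {c : ℕ → P} (hg : Gn ν c) {m i j : ℕ}
    (hm : ν m = opN (ν i) (ν j)) : IsOP (qc ν c m) (qc ν c i) (qc ν c j) := by
  have h := opN_fs (ν i) (ν j) (c 0) ν c hg ⟨0, le_rfl⟩ ![m, i, j] (fun l => by
    fin_cases l
    · exact hm
    · rfl
    · rfl)
  exact h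

/-- numerals are distinct -/
theorem gn_num_inj {ν : ℕ → HN P G} {c : ℕ → P} (hg : Gn ν c) {u : ℕ → ℕ}
    (hu : ∀ n, ν (u n) = numH P G n) {i j : ℕ} (h : qc ν c (u i) = qc ν c (u j)) : i = j := by
  have hirr : ∀ x : GQ ν c, ¬ E x x := fun x hx => (gn_wf hg).asymmetric x x hx hx
  rcases lt_trichotomy i j with h1 | h1 | h1
  · exfalso
    have : E (qc ν c (u i)) (qc ν c (u j)) := (gn_num hg hu j _).2 ⟨i, h1, rfl⟩
    rw [h] at this
    exact hirr _ this
  · exact h1
  · exfalso
    have : E (qc ν c (u j)) (qc ν c (u i)) := (gn_num hg hu i _).2 ⟨j, h1, rfl⟩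
    rw [h] at this
    exact hirr _ this

end

/-- a countable base of conditions -/
theorem exists_base : ∃ β : ℕ → Pc, ∀ (U : Pc) (x : Om), x ∈ U.1 → ∃ j, x ∈ (β j).1 ∧ β j ≤ U := by
  have hb := TopologicalSpace.isBasis_countableBasis Om
  have hc := TopologicalSpace.countable_countableBasis Om
  let S : Set (Set Om) := {U ∈ TopologicalSpace.countableBasis Om | U.Nonempty}
  have hS : S.Countable := hc.mono fun U hU => hU.1
  have hne : S.Nonempty := by
    let x0 : Om := ((fun _ => 0), fun _ => (0, fun _ => false))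
    obtain ⟨V, hV, hx, _⟩ := hb.exists_subset_of_mem_open (Set.mem_univ x0) isOpen_univ
    exact ⟨V, hV, x0, hx⟩
  obtain ⟨f, hf⟩ := hS.exists_eq_range hne
  have hf' : ∀ j, f j ∈ S := fun j => by rw [hf]; exact Set.mem_range_self j
  refine ⟨fun j => ⟨f j, hb.isOpen (hf' j).1, (hf' j).2⟩, fun U x hx => ?_⟩
  obtain ⟨V, hV, hxV, hVU⟩ := hb.exists_subset_of_mem_open hx U.2.1
  have : V ∈ S := ⟨hV, x, hxV⟩
  rw [hf] at this
  obtain ⟨j, rfl⟩ := this
  exact ⟨j, hxV, hVU⟩

theorem fix_ag {A : Finset ℕ} {k : ℕ} {B : Finset (ℕ × ℕ)} (hB : ∀ b ∈ B, b.1 < k) {g : GE}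
    (hg : g ∈ FixS A k B) (x : Om) : Ag A B x (g • x) := by
  have hg' := inv_mem hg
  refine ⟨fun i hi => (hg.1 x.1 i hi).symm, fun b hb => ?_⟩
  rw [smul_snd]
  have e1 : g.π⁻¹ b = b := hg'.2.2 b hb
  rw [e1, hg.2.1 _ (hB b hb), add_zero]

theorem fix_le {A : Finset ℕ} {k : ℕ} {B : Finset (ℕ × ℕ)} (hB : ∀ b ∈ B, b.1 < k) {g : GE}
    (hg : g ∈ FixS A k B) {U : Pc} (hU : Dep A B U.1) : g • U ≤ U := by
  intro x hx
  have h1 : g⁻¹ • x ∈ U.1 := hx
  exact hU _ h1 _ (fix_ag hB (inv_mem hg) x).symm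

end CU
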