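import Pool.Agent.H20.CU.Cuc1

/-!
The countable union of countable sections is countable.
-/

set_option linter.unusedVariables false
set_option synthInstance.maxSize 100000

namespace CU

open SW Topology

/-- `w = (om, F)`: all sections of `F` with an index in `om` are countable -/
def QSec : ∀ (N : Type) [SetStr N], (Fin 2 → N) → Prop := fun N _ w =>
  ∀ n, E n (w 0) → ∃ e, Enm e (w 0) n (w 1)

instance : UDf QSec := by
  unfold QSec; infer_instance

/-- `w = (om, F)`: the union of the sections is countable -/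
def QUn : ∀ (N : Type) [SetStr N], (Fin 2 → N) → Prop := fun N _ w =>
  ∃ G, (∀ m x x', E m (w 0) → PairIn m x G → PairIn m x' G → x = x') ∧
    ∀ n x, E n (w 0) → PairIn n x (w 1) → ∃ m, E m (w 0) ∧ PairIn m x G

instance : UDf QUn := by
  unfold QUn; infer_instance

theorem pairIn_of {P : Type} [Preorder P] {G : Type} [Group G] [MulAction G P]
    [H : SymSys P G] {a b R : HN P G} {p : P} (h : MemF (opN a b).1 R.1 p) :
    FS (fun N _ (w : Fin 3 → N) => PairIn (w 0) (w 1) (w 2)) p ![a, b, R] := by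
  refine fs_of _ (fun _ => opN a b) fun ν d hg hk w hw u hu => ?_
  obtain ⟨k, hk⟩ := hk
  have w0 : ν (w 0) = a := hw 0
  have w1 : ν (w 1) = b := hw 1
  have w2 : ν (w 2) = R := hw 2
  refine ⟨qc ν d (u 0), gn_opN hg (by rw [hu 0, w0, w1]), (gn_mem_iff hg _ _).2 ⟨k, ?_⟩⟩
  rw [hu 0, w2]
  exact memF_mono h hk

theorem union_name {A : Finset ℕ} {k : ℕ} {B : Finset (ℕ × ℕ)} (hB : ∀ b ∈ B, b.1 < k)
    {F : HNO} {q : Pc} (hF : SyF A k B F.1) (h : FS QSec q ![omH Pc GE, F]) :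
    FS QUn q ![omH Pc GE, F] := by
  classical
  let b : Pc := rsP A B q
  have hqb : q ≤ b := le_rsP A B q
  have hb : FS QSec b ![omH Pc GE, F] := res QSec (A := A) (k := k) (B := B) (fun j => by
    fin_cases j
    · exact omH_sy _ _ _
    · exact hF) h
  -- all sections are countable
  have hct : ∀ n : ℕ, FS QCt b ![omH Pc GE, numH Pc GE n, F] := by
    intro n ν d hg hk w hw
    have w0 : ν (w 0) = omH Pc GE := hw 0
    have w1 : ν (w 1) = numH Pc GE n := hw 1
    have w2 : ν (w 2) = F := hw 2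
    have a1 := hb ν d hg hk ![w 0, w 2] (fun j => by
      fin_cases j
      · exact w0
      · exact w2)
    refine a1 (qc ν d (w 1)) ?_
    show E (qc ν d (w 1)) (qc ν d (w 0))
    refine (gn_mem_iff hg _ _).2 ⟨0, ?_⟩
    rw [w0, w1]
    exact memF_famN (fun n : ℕ => (numN n : Nm Pc)) n _
  obtain ⟨β, hβ⟩ := exists_base
  -- enumerations below the basic conditions
  have hE : ∀ n j : ℕ, ∃ (r : Pc) (e : HNO), β j ≤ b → r ≤ β j ∧
      FS (fun N _ (w : Fin 4 → N) => Enm (w 0) (w 1) (w 2) (w 3)) r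
        ![e, omH Pc GE, numH Pc GE n, F] := by
    intro n j
    by_cases h : β j ≤ b
    · obtain ⟨r, hr, e, he⟩ := (fs_ex (fun N _ e (w : Fin 3 → N) =>
        Enm e (w 0) (w 1) (w 2))).1 (hct n) (β j) h
      exact ⟨r, e, fun _ => ⟨hr, he⟩⟩
    · exact ⟨b, F, fun h' => absurd h' h⟩
  choose Qr Qe hQ using hE
  obtain ⟨en, hen⟩ := exists_surjective_nat (ℕ × ℕ × ℕ × ℕ)
  let good : ℕ → HNO → Prop := fun t u => SyF A k B u.1 ∧
    FS QPsi (β (en t).2.2.2) ![numH Pc GE (en t).2.2.1, u, Qe (en t).1 (en t).2.1,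
      omH Pc GE, numH Pc GE (en t).1, F]
  let U : ℕ → HNO := fun t => if h : ∃ u, good t u then h.choose else empN Pc GE
  have hU : ∀ t, (∃ u, good t u) → good t (U t) := by
    intro t h
    have : U t = h.choose := dif_pos h
    rw [this]
    exact h.choose_spec
  let GN : Nm Pc := .mk {t : ℕ // ∃ u, good t u} (fun t => (opN (numH Pc GE t.1) (U t.1)).1)
    (fun t => rsP A B (β (en t.1).2.2.2))
  have hGS : SyF A k B GN := by
    have : Sy (P := Pc) (G := GE) (show SymSys.Sp Pc GE from (⟨A, k, B, hB⟩ : Spp)) GN := by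
      refine sy_of fun g hg t q hq => ?_
      have hg' : g ∈ FixS A k B := hg
      have h1 : EqF (act g (opN (numH Pc GE t.1) (U t.1)).1) (opN (numH Pc GE t.1) (U t.1)).1 q :=
        eqF_trans (opN_act g _ _ q) (opN_congr (numN_act g _ q) ((hU t.1 t.2).1 g hg' q))
      exact memF_congl (eqF_symm h1) (memF_intro (b := GN) t
        (hq.trans (fix_le hB hg' (dep_rs _))))
    exact this
  let Gn' : HNO := ⟨GN, ⟨⟨(⟨A, k, B, hB⟩ : Spp), hGS⟩, fun t => (opN _ _).2⟩⟩
  have hfun : FS (fun N _ (w : Fin 3 → N) => ∀ m x x', E m (w 1) → PairIn m x (w 0) →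
      PairIn m x' (w 0) → x = x') b ![Gn', omH Pc GE, F] := by
    refine fs_of _ (fun j => if j % 2 = 0 then numH Pc GE (j / 2) else U (j / 2))
      fun ν d hg hk w hw u hu => ?_
    have w0 : ν (w 0) = Gn' := hw 0
    have w1 : ν (w 1) = omH Pc GE := hw 1
    have ue : ∀ t, ν (u (2 * t)) = numH Pc GE t := fun t => by
      rw [hu, if_pos (by omega)]
      congr 1
      omega
    have uo : ∀ t, ν (u (2 * t + 1)) = U t := fun t => by
      rw [hu, if_neg (by omega)]
      congr 1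
      omega
    have hN : ZF (GQ ν d) := gn_zf hg
    have key1 : ∀ m x, PairIn m x (qc ν d (w 0)) → ∃ t, m = qc ν d (u (2 * t)) ∧
        x = qc ν d (u (2 * t + 1)) := by
      rintro m x ⟨z, hz, hzG⟩
      obtain ⟨m', l, i, e1, e2, rfl⟩ := (gn_mem_iff' hg _ _).1 hzG
      have gen : ∀ b : HNO, b = Gn' → ∀ i : b.1.I, ∃ t, b.1.el i
          = (opN (numH Pc GE t) (U t)).1 := by
        rintro _ rfl i
        exact ⟨i.1, rfl⟩
      obtain ⟨t, ht⟩ := gen _ w0 i
      have h2 : ν m' = opN (ν (u (2 * t))) (ν (u (2 * t + 1))) := by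
        rw [ue, uo]
        exact Subtype.ext (by rw [← e1, ht])
      have h3 := gn_opN hg h2
      rw [isOP_iff] at hz h3
      have h4 := opair_inj.1 (hz.symm.trans h3)
      exact ⟨t, h4.1, h4.2⟩
    intro m x x' hm hx hx'
    obtain ⟨t, ht1, ht2⟩ := key1 m x hx
    obtain ⟨t', ht1', ht2'⟩ := key1 m x' hx'
    have : t = t' := by
      have h5 := ht1.symm.trans ht1'
      exact gn_num_inj hg (u := fun t => u (2 * t)) ue h5
    rw [ht2, ht2', this]
  have hcov : FS (fun N _ (w : Fin 3 → N) => ∀ n x, E n (w 1) → PairIn n x (w 2) →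
      ∃ m, E m (w 1) ∧ PairIn m x (w 0)) b ![Gn', omH Pc GE, F] := by
    by_contra hcon
    obtain ⟨q', hq', hn⟩ := fs_neg _ hcon
    have hn2 : FS (fun N _ (w : Fin 3 → N) => ∃ n, E n (w 1) ∧ ∃ x, PairIn n x (w 2) ∧
        ∀ m, E m (w 1) → ¬ PairIn m x (w 0)) q' ![Gn', omH Pc GE, F] := by
      intro ν d hg hk w hw
      have h1 := hn ν d hg hk w hw
      push Not at h1
      obtain ⟨n, x, h2, h3, h4⟩ := h1
      exact ⟨n, h2, x, h3, h4⟩
    obtain ⟨q2, hq2, n0, hn3⟩ := fs_nat (fun N _ n (w : Fin 3 → N) => ∃ x, PairIn n x (w 2) ∧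
        ∀ m, E m (w 1) → ¬ PairIn m x (w 0)) (j := 1) rfl hn2 q' le_rfl
    obtain ⟨q3, hq3, x, hx⟩ := (fs_ex (fun N _ x (w : Fin 4 → N) => PairIn (w 0) x (w 3) ∧
        ∀ m, E m (w 2) → ¬ PairIn m x (w 1))).1 hn3 q2 le_rfl
    have hq3b : q3 ≤ b := hq3.trans (hq2.trans hq')
    have h1 : FS QIn q3 ![numH Pc GE n0, x, F] := by
      refine fs_of QIn (fun j => if j = 0 then Gn' else omH Pc GE) fun ν d hg hk w hw u hu => ?_
      have a1 := hx ν d hg hk ![w 1, w 0, u 0, u 1, w 2] (fun j => by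
        fin_cases j
        · exact hw 1
        · exact hw 0
        · exact hu 0
        · exact hu 1
        · exact hw 2)
      exact a1.1
    obtain ⟨r, hr, u, hu, exu⟩ := key hB hF h1 (fs_mono QCt hq3b (hct n0))
    have h2 : FS QIn r ![numH Pc GE n0, u, F] := fs_congr QIn (fun j => by
      fin_cases j
      · exact eqF_refl _ _
      · exact exu
      · exact eqF_refl _ _) (fs_mono QIn hr h1)
    have h3 : FS QIn (rsP A B r) ![numH Pc GE n0, u, F] := res QIn (A := A) (k := k) (B := B)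
      (fun j => by
        fin_cases j
        · exact numH_sy _ _ _ _
        · exact hu
        · exact hF) h2
    have hrb : rsP A B r ≤ b := by
      intro y hy
      obtain ⟨y', hy', e'⟩ := hy
      have h4 : y' ∈ b.1 := hq3b (hr hy')
      exact dep_rs (A := A) (B := B) q.1 y' h4 y e'.symm
    obtain ⟨x0, hx0⟩ := r.2.2
    obtain ⟨j, hj1, hj2⟩ := hβ (rsP A B r) x0 (le_rsP A B r hx0)
    obtain ⟨hQ1, hQ2⟩ := hQ n0 j (hj2.trans hrb)
    obtain ⟨q4, hq4, i, hi⟩ := psi_ex hQ2 (fs_mono QIn (hQ1.trans hj2) h3)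
    obtain ⟨y0, hy0⟩ := q4.2.2
    obtain ⟨r', hr'1, hr'2⟩ := hβ q4 y0 hy0
    obtain ⟨t, ht⟩ := hen (n0, j, i, r')
    have hgood : good t u := by
      refine ⟨hu, ?_⟩
      rw [ht]
      exact fs_mono QPsi hr'2 hi
    have hgU := hU t ⟨u, hgood⟩
    have e1 : EqF u.1 (U t).1 (β (en t).2.2.2) := psi_eq hgood.2 hgU.2
    have e2 : EqF u.1 (U t).1 (rsP A B (β (en t).2.2.2)) := res_eq hu hgU.1 e1
    have e3 : (en t).2.2.2 = r' := by rw [ht]
    -- a common extension
    have hy0' : y0 ∈ (rsP A B r).1 := hj2 (hQ1 (hq4 hy0))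
    obtain ⟨y1, hy1, hag⟩ := hy0'
    let r5 : Pc := ⟨r.1 ∩ (rsP A B (β (en t).2.2.2)).1, r.2.1.inter (rsP A B _).2.1,
      ⟨y1, hy1, ⟨y0, by rw [e3]; exact hr'1, hag.symm⟩⟩⟩
    have hr5 : r5 ≤ r := Set.inter_subset_left
    have hr5' : r5 ≤ rsP A B (β (en t).2.2.2) := Set.inter_subset_right
    have e4 : EqF x.1 (U t).1 r5 := eqF_trans (eqF_mono exu hr5) (eqF_mono e2 hr5')
    have hm : MemF (opN (numH Pc GE t) (U t)).1 Gn'.1 r5 :=
      memF_intro (b := GN) ⟨t, u, hgood⟩ hr5'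
    have h5 := pairIn_of hm
    obtain ⟨ν, d, w, hg, hd, hw⟩ := gen_fin r5
      ![x, numH Pc GE n0, Gn', omH Pc GE, F, numH Pc GE t, U t]
    have w0 : ν (w 0) = x := hw 0
    have w1 : ν (w 1) = numH Pc GE n0 := hw 1
    have w2 : ν (w 2) = Gn' := hw 2
    have w3 : ν (w 3) = omH Pc GE := hw 3
    have w4 : ν (w 4) = F := hw 4
    have w5 : ν (w 5) = numH Pc GE t := hw 5
    have w6 : ν (w 6) = U t := hw 6
    have a1 := hx ν d hg ⟨0, hd.trans (hr5.trans hr)⟩ ![w 0, w 1, w 2, w 3, w 4] (fun j => by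
      fin_cases j
      · exact w0
      · exact w1
      · exact w2
      · exact w3
      · exact w4)
    have a2 := h5 ν d hg ⟨0, hd⟩ ![w 5, w 6, w 2] (fun j => by
      fin_cases j
      · exact w5
      · exact w6
      · exact w2)
    have a3 : qc ν d (w 0) = qc ν d (w 6) :=
      (gn_eq_iff hg _ _).2 ⟨0, by rw [w0, w6]; exact eqF_mono e4 hd⟩
    have a4 : E (qc ν d (w 5)) (qc ν d (w 3)) := by
      refine (gn_mem_iff hg _ _).2 ⟨0, ?_⟩
      rw [w3, w5]
      exact memF_famN (fun n : ℕ => (numN n : Nm Pc)) t _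
    refine a1.2 _ a4 ?_
    show PairIn (qc ν d (w 5)) (qc ν d (w 0)) (qc ν d (w 2))
    rw [a3]
    exact a2
  refine fs_mono QUn hqb ?_
  refine (fs_ex (fun N _ G (w : Fin 2 → N) =>
    (∀ m x x', E m (w 0) → PairIn m x G → PairIn m x' G → x = x') ∧
      ∀ n x, E n (w 0) → PairIn n x (w 1) → ∃ m, E m (w 0) ∧ PairIn m x G)).2
    fun q' hq' => ⟨q', le_rfl, Gn', fun ν d hg hk w hw => ?_⟩
  have hk' : ∃ k, d k ≤ b := hk.imp fun k h => h.trans hq'
  exact ⟨hfun ν d hg hk' w (fun j => by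
    fin_cases j
    · exact hw 0
    · exact hw 1
    · exact hw 2), hcov ν d hg hk' w (fun j => by
    fin_cases j
    · exact hw 0
    · exact hw 1
    · exact hw 2)⟩

/-- countable unions of countable sections, forced by all conditions -/
theorem union_fs (p : Pc) : FS (fun N _ (w : Fin 1 → N) => ∀ F,
    (∀ n, E n (w 0) → ∃ e, Enm e (w 0) n F) →
    ∃ G, (∀ m x x', E m (w 0) → PairIn m x G → PairIn m x' G → x = x') ∧
      ∀ n x, E n (w 0) → PairIn n x F → ∃ m, E m (w 0) ∧ PairIn m x G) p ![omH Pc GE] := by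
  refine (fs_all (fun N _ F (w : Fin 1 → N) => (∀ n, E n (w 0) → ∃ e, Enm e (w 0) n F) →
    ∃ G, (∀ m x x', E m (w 0) → PairIn m x G → PairIn m x' G → x = x') ∧
      ∀ n x, E n (w 0) → PairIn n x F → ∃ m, E m (w 0) ∧ PairIn m x G)).2 fun F => ?_
  by_contra hcon
  obtain ⟨q, hq, hn⟩ := fs_neg _ hcon
  have h1 : FS QSec q ![omH Pc GE, F] := by
    intro ν d hg hk w hw
    have := hn ν d hg hk ![w 1, w 0] (fun j => by
      fin_cases j
      · exact hw 1
      · exact hw 0)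
    by_contra h2
    exact this fun h3 => absurd h3 h2
  obtain ⟨A, k, B, hB, hF⟩ := exists_syF F
  have h2 := union_name hB hF h1
  obtain ⟨ν, d, w, hg, hd, hw⟩ := gen_fin q ![omH Pc GE, F]
  have a1 := h2 ν d hg ⟨0, hd⟩ w hw
  have a2 := hn ν d hg ⟨0, hd⟩ ![w 1, w 0] (fun j => by
    fin_cases j
    · exact hw 1
    · exact hw 0)
  exact a2 fun _ => a1

end CU
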