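import Pool.Agent.H20.CU.Cuc2
import Pool.Agent.H78.CUR.Stmts

/-!
The countable union condition in the model.
-/

set_option linter.unusedVariables false
set_option synthInstance.maxSize 100000

namespace CU

open SW

/-- The countable union condition from the uniformization of countable sections. -/
theorem cuc_of {N : Type} [SetStr N] [ZF N] (nw : ∀ w : N, CUR.IsOm w ↔ w = om)
    (hU : ∀ F : N, (∀ n, E n om → ∃ e, Enm e om n F) →
      ∃ G, (∀ m x x', E m om → PairIn m x G → PairIn m x' G → x = x') ∧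
        ∀ n x, E n om → PairIn n x F → ∃ m, E m om ∧ PairIn m x G) : CUR.CUC N := by
  intro 𝒞 hC hx u hu
  obtain ⟨w, f, hw, hf1, hf2, hf3, hf4⟩ := hC
  rw [nw] at hw
  subst hw
  let F : N := sep (prod om u) (fun p => ∃ n x z, IsOP p n z ∧ E x 𝒞 ∧ PairIn x n f ∧ E z x)
  have hF : ∀ n z, PairIn n z F ↔ ∃ x, E x 𝒞 ∧ PairIn x n f ∧ E z x := by
    intro n z
    rw [pairIn_iff]
    show E (opair n z) (sep _ _) ↔ _
    rw [mem_sep, mem_prod]
    constructor
    · rintro ⟨_, n', x, z', h1, h2, h3, h4⟩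
      rw [isOP_iff, opair_inj] at h1
      obtain ⟨rfl, rfl⟩ := h1
      exact ⟨x, h2, h3, h4⟩
    · rintro ⟨x, h2, h3, h4⟩
      have h5 : E n om := by
        obtain ⟨z', hz1, hz2⟩ := h3
        obtain ⟨b, j, _, hj, h6⟩ := hf1 z' hz2
        rw [isOP_iff] at hz1 h6
        have := opair_inj.1 (hz1.symm.trans h6)
        rw [this.2]
        exact hj
      refine ⟨⟨h5, (hu z).2 ⟨x, h2, h4⟩⟩, n, x, z, ?_, h2, h3, h4⟩
      rw [isOP_iff]
  obtain ⟨G, hG1, hG2⟩ := hU F (by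
    intro n hn
    by_cases h : ∃ x, E x 𝒞 ∧ PairIn x n f
    · obtain ⟨x, hx1, hx2⟩ := h
      obtain ⟨w', e0, hw', he1, he2, he3, he4⟩ := hx x hx1
      rw [nw] at hw'
      subst hw'
      let e : N := sep (prod om x) (fun p => ∃ m z, IsOP p m z ∧ PairIn z m e0)
      have he : ∀ m z, PairIn m z e ↔ PairIn z m e0 := by
        intro m z
        rw [pairIn_iff]
        show E (opair m z) (sep _ _) ↔ _
        rw [mem_sep, mem_prod]
        constructor
        · rintro ⟨_, m', z', h1, h2⟩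
          rw [isOP_iff, opair_inj] at h1
          obtain ⟨rfl, rfl⟩ := h1
          exact h2
        · intro h2
          have h2' := h2
          obtain ⟨z', hz1, hz2⟩ := h2'
          obtain ⟨b, j, hb, hj, h6⟩ := he1 z' hz2
          rw [isOP_iff] at hz1 h6
          have h7 := opair_inj.1 (hz1.symm.trans h6)
          refine ⟨⟨by rw [h7.2]; exact hj, by rw [h7.1]; exact hb⟩, m, z, ?_, h2⟩
          rw [isOP_iff]
      refine ⟨e, fun m z z' _ h1 h2 => ?_, fun z hz => ?_⟩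
      · rw [he] at h1 h2
        exact he4 _ _ _ h1 h2
      · obtain ⟨x', h1, h2, h3⟩ := (hF n z).1 hz
        have : x' = x := hf4 _ _ _ h2 hx2
        rw [this] at h3
        obtain ⟨m, hm⟩ := he2 z h3
        have hm' : E m om := by
          obtain ⟨z', hz1, hz2⟩ := hm
          obtain ⟨b, j, hb, hj, h6⟩ := he1 z' hz2
          rw [isOP_iff] at hz1 h6
          have h7 := opair_inj.1 (hz1.symm.trans h6)
          rw [h7.2]
          exact hj
        exact ⟨m, hm', (he m z).2 hm⟩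
    · refine ⟨emp, fun m z z' _ h1 h2 => ?_, fun z hz => ?_⟩
      · obtain ⟨y, _, hy⟩ := h1
        exact absurd hy (not_mem_emp y)
      · obtain ⟨x', h1, h2, h3⟩ := (hF n z).1 hz
        exact absurd ⟨x', h1, h2⟩ h)
  have hcov : ∀ z, E z u → ∃ m, E m om ∧ PairIn m z G := by
    intro z hz
    obtain ⟨x, hx1, hx2⟩ := (hu z).1 hz
    obtain ⟨n, hn⟩ := hf2 x hx1
    have hn' : E n om := by
      obtain ⟨z', hz1, hz2⟩ := hn
      obtain ⟨b, j, _, hj, h6⟩ := hf1 z' hz2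
      rw [isOP_iff] at hz1 h6
      have := opair_inj.1 (hz1.symm.trans h6)
      rw [this.2]
      exact hj
    exact hG2 n z hn' ((hF n z).2 ⟨x, hx1, hn, hx2⟩)
  let g : N := sep (prod u om) (fun p => ∃ z m, IsOP p z m ∧ PairIn m z G ∧
    ∀ m', E m' om → PairIn m' z G → ¬ E m' m)
  have hg : ∀ z m, PairIn z m g ↔ E z u ∧ E m om ∧ PairIn m z G ∧
      ∀ m', E m' om → PairIn m' z G → ¬ E m' m := by
    intro z m
    rw [pairIn_iff]
    show E (opair z m) (sep _ _) ↔ _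
    rw [mem_sep, mem_prod]
    constructor
    · rintro ⟨⟨h1, h2⟩, z', m', h4, h5, h6⟩
      rw [isOP_iff, opair_inj] at h4
      obtain ⟨rfl, rfl⟩ := h4
      exact ⟨h1, h2, h5, h6⟩
    · rintro ⟨h1, h2, h5, h6⟩
      refine ⟨⟨h1, h2⟩, z, m, ?_, h5, h6⟩
      rw [isOP_iff]
  refine ⟨om, g, (nw om).2 rfl, fun p hp => ?_, fun z hz => ?_, fun z m m' h1 h2 => ?_,
    fun z z' m h1 h2 => ?_⟩
  · have hp' := hp
    rw [mem_sep, mem_prod'] at hp'
    obtain ⟨⟨a, b, h1, h2, h3⟩, _⟩ := hp'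
    refine ⟨a, b, h1, h2, ?_⟩
    rw [isOP_iff]
    exact h3
  · obtain ⟨m, hm1, hm2⟩ := hcov z hz
    obtain ⟨b, hb1, hb2, hb3, hb4⟩ := ord_min (C := fun m => E m om ∧ PairIn m z G)
      inferInstance (Ord_nat hm1) ⟨hm1, hm2⟩
    exact ⟨b, (hg z b).2 ⟨hz, hb2.1, hb2.2, fun m' h1 h2 h3 => hb3 m' h3 ⟨h1, h2⟩⟩⟩
  · rw [hg] at h1 h2
    rcases (Ord_nat h1.2.1).tri (Ord_nat h2.2.1) with h | h | h
    · exact absurd h (h2.2.2.2 m h1.2.1 h1.2.2.1)
    · exact h
    · exact absurd h (h1.2.2.2 m' h2.2.1 h2.2.2.1)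
  · rw [hg] at h1 h2
    exact hG1 m z z' h1.2.1 h1.2.2.1 h2.2.2.1

/-- The model satisfies the countable union condition. -/
theorem gn_cuc (nw : ∀ (N : Type) [SetStr N] [ZF N] (w : N), CUR.IsOm w ↔ w = om)
    {ν : ℕ → HNO} {c : ℕ → Pc} (hg : Gn ν c) [ZF (GQ ν c)] {m : ℕ} (hm : ν m = omH Pc GE)
    (hmo : qc ν c m = om) : CUR.CUC (GQ ν c) := by
  refine cuc_of (nw _) ?_
  have h := union_fs (c 0) ν c hg ⟨0, le_rfl⟩ ![m] (fun j => by
    fin_cases j
    exact hm)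
  have h' : ∀ F, (∀ n, E n (qc ν c m) → ∃ e, Enm e (qc ν c m) n F) →
      ∃ G, (∀ m' x x', E m' (qc ν c m) → PairIn m' x G → PairIn m' x' G → x = x') ∧
        ∀ n x, E n (qc ν c m) → PairIn n x F → ∃ m', E m' (qc ν c m) ∧ PairIn m' x G := h
  rw [hmo] at h'
  exact h'

end CU
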