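import Pool.Agent.H20.CU.Cuc3

/-!
The circles, inside a model of ZF with standard natural numbers.
-/

set_option linter.unusedVariables false
set_option synthInstance.maxSize 100000

namespace CU

open SW CUR

section
variable {N : Type} [SetStr N]

/-- `(n, (y, (y', d))) ∈ D` -/
def Q4 (n y y' d D : N) : Prop := ∃ u v, IsOP u y' d ∧ IsOP v y u ∧ PairIn n v D

/-- `u` is a member of the point with the member `(y, x)` -/
def MemP (ad w D n y x u : N) : Prop :=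
  ∃ y' x' d, IsOP u y' x' ∧ Q4 n y' y d D ∧ AddU ad w x d x'

/-- `G` is a point of the circle number `n` -/
def PtU (lt ad w D n G : N) : Prop :=
  ∃ y x, PairIn y x G ∧ CutU lt w x ∧ ∀ u, E u G ↔ MemP ad w D n y x u

end

theorem Q4_u : UDf (fun M _ (w : Fin 5 → M) => Q4 (w 0) (w 1) (w 2) (w 3) (w 4)) := by
  unfold Q4; infer_instance

instance {n : ℕ} {t s u x y : ∀ (M : Type) [SetStr M], (Fin n → M) → M} [UV t] [UV s] [UV u]
    [UV x] [UV y] : UDf (fun M _ v => Q4 (t M v) (s M v) (u M v) (x M v) (y M v)) :=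
  CUR.UDf.comp5 (R := fun _ _ a b c d e => Q4 a b c d e) Q4_u t s u x y

instance {M : Type} [SetStr M] {n : ℕ} {t s u x y : (Fin n → M) → M} [ht : DfT t] [hs : DfT s]
    [hu : DfT u] [hx : DfT x] [hy : DfT y] :
    Df (fun v => Q4 (t v) (s v) (u v) (x v) (y v)) :=
  CUR.Df.comp5 (R := fun a b c d e => Q4 a b c d e) (Q4_u.df M) ht hs hu hx hy

section
variable {N : Type} [SetStr N] [ZF N]

/-- the points of the circles -/
def KK (y : ℕ × ℕ → N) (z : ℕ × ℕ → ℝ) (n : ℕ) (θ : T) (G : N) : Prop :=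
  (∃ u, E u G) ∧ ∀ u, E u G ↔ ∃ (β : ℕ) (w : N) (r : ℝ), u = opair (y (n, β)) w ∧ IsCutOf w r ∧
    (r : T) = θ - ((z (n, β) : ℝ) : T)

/-- the data of the circles: the labels `y`, the real numbers `z`, the set `D` of all
differences -/
structure Circ (c : Codes N) (y : ℕ × ℕ → N) (z : ℕ × ℕ → ℝ) (D : N) : Prop where
  memD : ∀ u, E u D ↔ ∃ (n β β' : ℕ) (w : N) (r : ℝ),
    u = opair (nu n) (opair (y (n, β)) (opair (y (n, β')) w)) ∧ IsCutOf w r ∧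
    (r : T) = ((z (n, β') : ℝ) : T) - ((z (n, β) : ℝ) : T)
  inj : ∀ n β β', y (n, β) = y (n, β') → β = β'
  sub : ∀ b x, E x (y b) → E x om
  dif : ∀ n β β', ∃ (w : N) (r : ℝ), IsCutOf w r ∧
    (r : T) = ((z (n, β') : ℝ) : T) - ((z (n, β) : ℝ) : T)

variable {c : Codes N} {y : ℕ × ℕ → N} {z : ℕ × ℕ → ℝ} {D : N}

theorem q4_iff {n y y' d D : N} : Q4 n y y' d D ↔ E (opair n (opair y (opair y' d))) D := by
  unfold Q4
  simp only [isOP_iff, pairIn_iff]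
  constructor
  · rintro ⟨u, v, rfl, rfl, h⟩
    exact h
  · exact fun h => ⟨_, _, rfl, rfl, h⟩

theorem q4_D (nuinj : ∀ m n, (nu m : N) = nu n → m = n) (H : Circ c y z D) {n β : ℕ} {y' d : N} :
    Q4 (nu n) y' (y (n, β)) d D ↔ ∃ (β' : ℕ) (r : ℝ), y' = y (n, β') ∧ IsCutOf d r ∧
      (r : T) = ((z (n, β) : ℝ) : T) - ((z (n, β') : ℝ) : T) := by
  rw [q4_iff, H.memD]
  constructor
  · rintro ⟨n', β1, β2, w, r, h1, h2, h3⟩
    rw [opair_inj, opair_inj, opair_inj] at h1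
    obtain ⟨h4, h5, h6, rfl⟩ := h1
    obtain rfl := nuinj _ _ h4
    obtain rfl := H.inj _ _ _ h6
    exact ⟨β1, r, h5, h2, h3⟩
  · rintro ⟨β', r, rfl, h2, h3⟩
    exact ⟨n, β', β, d, r, rfl, h2, h3⟩

/-- difference of cuts -/
theorem cut_sub (R2 : R2Facts c) {x w : N} {r s : ℝ} (hx : IsCutOf x r) (hw : IsCutOf w s) :
    ∃ d : N, IsCutOf d (s - r) := by
  obtain ⟨m, hm⟩ := R2.neg x r hx
  obtain ⟨d, hd⟩ := R2.add w m s (-r) hw hm
  exact ⟨d, by rwa [sub_eq_add_neg]⟩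

theorem memP_iff (nuinj : ∀ m n, (nu m : N) = nu n → m = n) (R1 : R1Facts c) (R2 : R2Facts c)
    (H : Circ c y z D) {n β : ℕ} {x : N} {r : ℝ} (hx : IsCutOf x r) (u : N) :
    MemP c.ad om D (nu n) (y (n, β)) x u ↔ ∃ (β' : ℕ) (w : N) (s : ℝ), u = opair (y (n, β')) w ∧
      IsCutOf w s ∧ (s : T) = ((r : T) + ((z (n, β) : ℝ) : T)) - ((z (n, β') : ℝ) : T) := by
  constructor
  · rintro ⟨y', x', d, h1, h2, h3⟩
    rw [isOP_iff] at h1
    rw [q4_D nuinj H] at h2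
    obtain ⟨β', rd, rfl, h5, h6⟩ := h2
    rw [R2.addU x d x' r rd hx h5] at h3
    refine ⟨β', x', r + rd, h1, h3, ?_⟩
    rw [AddCircle.coe_add, h6]
    abel
  · rintro ⟨β', w, s, h1, h2, h3⟩
    obtain ⟨d, hd⟩ := cut_sub R2 hx h2
    refine ⟨y (n, β'), w, d, ?_, ?_, ?_⟩
    · rw [isOP_iff]; exact h1
    · rw [q4_D nuinj H]
      refine ⟨β', s - r, rfl, hd, ?_⟩
      rw [AddCircle.coe_sub, h3]
      abel
    · rw [R2.addU x d w r (s - r) hx hd]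
      rw [add_sub_cancel]
      exact h2

theorem ptU_iff (nuinj : ∀ m n, (nu m : N) = nu n → m = n) (R1 : R1Facts c) (R2 : R2Facts c)
    (H : Circ c y z D) {n : ℕ} {G : N} :
    PtU c.lt c.ad om D (nu n) G ↔ ∃ θ, KK y z n θ G := by
  constructor
  · rintro ⟨y0, x, h1, h2, h3⟩
    rw [R1.cut] at h2
    obtain ⟨r, hr⟩ := h2
    rw [pairIn_iff] at h1
    have h4 := (h3 _).1 h1
    obtain ⟨y', x', d, h5, h6, h7⟩ := h4
    rw [isOP_iff, opair_inj] at h5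
    obtain ⟨rfl, rfl⟩ := h5
    rw [q4_iff, H.memD] at h6
    obtain ⟨n', β1, β2, w, r', h8, h9, h10⟩ := h6
    rw [opair_inj, opair_inj, opair_inj] at h8
    obtain ⟨h11, h12, h13, rfl⟩ := h8
    obtain rfl := nuinj _ _ h11
    subst h12
    refine ⟨(r : T) + ((z (n, β1) : ℝ) : T), ⟨_, h1⟩, fun u => ?_⟩
    rw [h3, memP_iff nuinj R1 R2 H hr]
  · rintro ⟨θ, ⟨u, hu⟩, h⟩
    obtain ⟨β, x, r, rfl, h2, h3⟩ := (h u).1 hu
    refine ⟨y (n, β), x, ?_, ?_, fun u => ?_⟩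
    · rw [pairIn_iff]; exact hu
    · rw [R1.cut]; exact ⟨r, h2⟩
    · rw [memP_iff nuinj R1 R2 H h2, h, h3, sub_add_cancel]

/-- points exist -/
theorem exists_pt (nuinj : ∀ m n, (nu m : N) = nu n → m = n) (R1 : R1Facts c) (R2 : R2Facts c)
    (H : Circ c y z D) (n β : ℕ) {x : N} {r : ℝ} (hx : IsCutOf x r) :
    ∃ G, KK y z n ((r : T) + ((z (n, β) : ℝ) : T)) G := by
  have hmem : ∀ u, E u (sep (prod (pow om) (pow om))
      (fun u => MemP c.ad om D (nu n) (y (n, β)) x u)) ↔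
      ∃ (β' : ℕ) (w : N) (s : ℝ), u = opair (y (n, β')) w ∧
      IsCutOf w s ∧ (s : T) = ((r : T) + ((z (n, β) : ℝ) : T)) - ((z (n, β') : ℝ) : T) := by
    intro u
    have hdf : Cl (fun u => MemP c.ad om D (nu n) (y (n, β)) x u) := by
      unfold MemP; infer_instance
    rw [mem_sep, memP_iff nuinj R1 R2 H hx]
    refine ⟨fun h => h.2, fun h => ⟨?_, h⟩⟩
    obtain ⟨β', w, s, rfl, h2, h3⟩ := h
    rw [mem_prod, mem_pow, mem_pow]
    exact ⟨H.sub _, h2.1⟩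
  refine ⟨_, ⟨opair (y (n, β)) x, (hmem _).2 ⟨β, x, r, rfl, hx, ?_⟩⟩, hmem⟩
  rw [add_sub_cancel_right]

theorem kk_uniqG {n : ℕ} {θ : T} {G G' : N} (h : KK y z n θ G) (h' : KK y z n θ G') : G = G' :=
  SW.ext fun u => by rw [h.2, h'.2]

theorem kk_uniqT (R1 : R1Facts c) (H : Circ c y z D) {n : ℕ} {θ η : T} {G : N}
    (h : KK y z n θ G) (h' : KK y z n η G) : θ = η := by
  obtain ⟨u, hu⟩ := h.1
  obtain ⟨β, w, r, rfl, h2, h3⟩ := (h.2 u).1 hu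
  obtain ⟨β', w', r', h4, h5, h6⟩ := (h'.2 _).1 hu
  rw [opair_inj] at h4
  obtain ⟨h7, rfl⟩ := h4
  obtain rfl := H.inj _ _ _ h7
  obtain rfl := R1.uniqr _ _ _ h2 h5
  rw [h3] at h6
  exact sub_left_injective h6

theorem kk_pow (H : Circ c y z D) {n : ℕ} {θ : T} {G : N} (h : KK y z n θ G) :
    E G (pow (prod (pow om) (pow om))) := by
  rw [mem_pow]
  intro u hu
  obtain ⟨β, w, r, rfl, h2, h3⟩ := (h.2 u).1 hu
  rw [mem_prod, mem_pow, mem_pow]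
  exact ⟨H.sub _, h2.1⟩

/-- the relation of the translates -/
def TrU (lt ad w D n G G' t : N) : Prop :=
  PtU lt ad w D n G ∧ PtU lt ad w D n G' ∧ CutU lt w t ∧
    ∃ y x x', PairIn y x G ∧ PairIn y x' G' ∧ AddU ad w x t x'

theorem trU_iff (nuinj : ∀ m n, (nu m : N) = nu n → m = n) (R1 : R1Facts c) (R2 : R2Facts c)
    (H : Circ c y z D) {n : ℕ} {G G' t : N} :
    TrU c.lt c.ad om D (nu n) G G' t ↔ ∃ (θ : T) (s : ℝ), KK y z n θ G ∧ IsCutOf t s ∧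
      KK y z n (θ + (s : T)) G' := by
  unfold TrU
  rw [ptU_iff nuinj R1 R2 H, ptU_iff nuinj R1 R2 H, R1.cut]
  constructor
  · rintro ⟨⟨θ, h1⟩, ⟨η, h2⟩, ⟨s, h3⟩, y', x, x', h4, h5, h6⟩
    rw [pairIn_iff] at h4 h5
    obtain ⟨β, w, r, e1, e2, e3⟩ := (h1.2 _).1 h4
    obtain ⟨β', w', r', e4, e5, e6⟩ := (h2.2 _).1 h5
    rw [opair_inj] at e1 e4
    obtain ⟨rfl, rfl⟩ := e1
    obtain ⟨e7, rfl⟩ := e4
    obtain rfl := H.inj _ _ _ e7
    rw [R2.addU x t x' r s e2 h3] at h6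
    have e8 := R1.uniqr _ _ _ e5 h6
    refine ⟨θ, s, h1, h3, ?_⟩
    have e9 : η = θ + (s : T) := by
      rw [e8, AddCircle.coe_add, e3] at e6
      have : η = (η - ((z (n, β) : ℝ) : T)) + ((z (n, β) : ℝ) : T) := by abel
      rw [this, ← e6]
      abel
    rw [← e9]
    exact h2
  · rintro ⟨θ, s, h1, h2, h3⟩
    refine ⟨⟨θ, h1⟩, ⟨_, h3⟩, ⟨s, h2⟩, ?_⟩
    obtain ⟨u, hu⟩ := h1.1
    obtain ⟨β, w, r, rfl, e2, e3⟩ := (h1.2 u).1 hu
    obtain ⟨x', hx'⟩ := R2.add w t r s e2 h2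
    refine ⟨y (n, β), w, x', ?_, ?_, ?_⟩
    · rw [pairIn_iff]; exact hu
    · rw [pairIn_iff, h3.2]
      refine ⟨β, x', r + s, rfl, hx', ?_⟩
      rw [AddCircle.coe_add, e3]
      abel
    · rw [R2.addU w t x' r s e2 h2]
      exact hx'

/-- The sequence of circles without choice function. -/
theorem dataN (numem : ∀ n, E (nu n : N) om) (nuinj : ∀ m n, (nu m : N) = nu n → m = n)
    (R1 : R1Facts c) (R2 : R2Facts c) (H : Circ c y z D)
    (hno : ¬ ∃ h : N, ∀ n, ∃ G, FunAt h (nu n) G ∧ ∃ θ, KK y z n θ G) : Nonempty (DataN c) := by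
  let PP : N := pow (prod (pow om) (pow om))
  have d1 : Cl (fun v : N => ∃ n G, IsOP v n G ∧ PtU c.lt c.ad om D n G) := by
    unfold PtU MemP; infer_instance
  have d2 : Cl (fun v : N => ∃ n G G' t v1 v2, IsOP v v1 v2 ∧ IsOP v1 n G ∧ IsOP v2 G' t ∧
      TrU c.lt c.ad om D n G G' t) := by
    unfold TrU PtU MemP; infer_instance
  have hzero : ∃ x : N, IsCutOf x 0 := by
    obtain ⟨x, hx⟩ := R2.rat 0
    exact ⟨x, by simpa using hx⟩
  refine ⟨{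
    K := KK y z
    C := sep (prod om PP) (fun v => ∃ n G, IsOP v n G ∧ PtU c.lt c.ad om D n G)
    memC := fun v => ?_
    tr := sep (prod (prod om PP) (prod PP (pow om))) (fun v => ∃ n G G' t v1 v2, IsOP v v1 v2 ∧
      IsOP v1 n G ∧ IsOP v2 G' t ∧ TrU c.lt c.ad om D n G G' t)
    memtr := fun n G G' t => ?_
    ne := fun n => ?_
    uniqG := fun h h' => kk_uniqG h h'
    uniqT := fun h h' => kk_uniqT R1 H h h'
    add := fun {n θ G t s} h ht => ?_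
    sub := fun {n θ η G G'} h h' => ?_
    nochoice := hno }⟩
  · rw [mem_sep, mem_prod']
    constructor
    · rintro ⟨⟨a, b, h1, h2, rfl⟩, n, G, h3, h4⟩
      rw [isOP_iff, opair_inj] at h3
      obtain ⟨rfl, rfl⟩ := h3
      obtain ⟨n, rfl⟩ := c.std a h1
      rw [ptU_iff nuinj R1 R2 H] at h4
      obtain ⟨θ, h4⟩ := h4
      exact ⟨n, θ, b, rfl, h4⟩
    · rintro ⟨n, θ, G, rfl, h⟩
      refine ⟨⟨nu n, G, numem n, kk_pow H h, rfl⟩, nu n, G, ?_, ?_⟩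
      · rw [isOP_iff]
      · rw [ptU_iff nuinj R1 R2 H]
        exact ⟨θ, h⟩
  · rw [mem_sep, mem_prod, mem_prod, mem_prod]
    constructor
    · rintro ⟨_, n', G1, G2, t', v1, v2, h1, h2, h3, h4⟩
      rw [isOP_iff] at h1 h2 h3
      subst h2 h3
      rw [opair_inj, opair_inj, opair_inj] at h1
      obtain ⟨⟨rfl, rfl⟩, rfl, rfl⟩ := h1
      rwa [trU_iff nuinj R1 R2 H] at h4
    · rintro ⟨θ, s, h1, h2, h3⟩
      refine ⟨⟨⟨numem n, kk_pow H h1⟩, kk_pow H h3, ?_⟩, nu n, G, G', t,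
        opair (nu n) G, opair G' t, ?_, ?_, ?_, ?_⟩
      · rw [mem_pow]; exact h2.1
      · rw [isOP_iff]
      · rw [isOP_iff]
      · rw [isOP_iff]
      · rw [trU_iff nuinj R1 R2 H]
        exact ⟨θ, s, h1, h2, h3⟩
  · obtain ⟨x, hx⟩ := hzero
    obtain ⟨G, hG⟩ := exists_pt nuinj R1 R2 H n 0 hx
    exact ⟨_, G, hG⟩
  · obtain ⟨u, hu⟩ := h.1
    obtain ⟨β, w, r, rfl, e2, e3⟩ := (h.2 u).1 hu
    obtain ⟨x', hx'⟩ := R2.add w t r s e2 ht
    obtain ⟨G', hG'⟩ := exists_pt nuinj R1 R2 H n β hx'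
    refine ⟨G', ?_⟩
    have : θ + (s : T) = ((r + s : ℝ) : T) + ((z (n, β) : ℝ) : T) := by
      rw [AddCircle.coe_add, e3]
      abel
    rw [this]
    exact hG'
  · obtain ⟨u, hu⟩ := h.1
    obtain ⟨β, w, r, rfl, e2, e3⟩ := (h.2 u).1 hu
    obtain ⟨u', hu'⟩ := h'.1
    obtain ⟨β', w', r', rfl, e2', e3'⟩ := (h'.2 u').1 hu'
    obtain ⟨d, rd, hd, hrd⟩ := H.dif n β β'
    obtain ⟨t1, ht1⟩ := cut_sub R2 e2 e2'
    obtain ⟨t2, ht2⟩ := R2.add _ _ _ _ ht1 hd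
    refine ⟨t2, _, ht2, ?_⟩
    rw [AddCircle.coe_add, AddCircle.coe_sub, e3, e3', hrd]
    abel

end

end CU
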