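import Pool.Agent.H20.CU.GStmts

set_option linter.unusedVariables false

namespace CU

open SW

section
variable {P : Type} [Preorder P]

theorem eqF_mono : ∀ {a b : Nm P} {p q : P}, EqF a b p → q ≤ p → EqF a b q := by
  intro a b p q h hq
  rw [EqF_iff] at h ⊢
  exact ⟨fun i r hr hc => h.1 i r (hr.trans hq) hc, fun j r hr hc => h.2 j r (hr.trans hq) hc⟩

theorem eqF_refl : ∀ (a : Nm P) (p : P), EqF a a p := by
  intro a
  induction a with
  | mk ι x c ih =>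
    intro p
    refine ⟨fun i q _ hc => ⟨q, le_rfl, i, hc, ih i q⟩, fun i q _ hc => ⟨q, le_rfl, i, hc, ih i q⟩⟩

theorem eqF_symm : ∀ {a b : Nm P} {p : P}, EqF a b p → EqF b a p := by
  intro a
  induction a with
  | mk ι x c ih =>
    intro b p h
    obtain ⟨κ, y, d⟩ := b
    refine ⟨fun j q hq hc => ?_, fun i q hq hc => ?_⟩
    · obtain ⟨r, hr, i, hi, e⟩ := h.2 j q hq hc
      exact ⟨r, hr, i, hi, ih i e⟩
    · obtain ⟨r, hr, j, hj, e⟩ := h.1 i q hq hc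
      exact ⟨r, hr, j, hj, ih i e⟩

theorem eqF_trans : ∀ {a b c : Nm P} {p : P}, EqF a b p → EqF b c p → EqF a c p := by
  intro a
  induction a with
  | mk ι x c ih =>
    intro b d p h1 h2
    obtain ⟨κ, y, e⟩ := b
    obtain ⟨l, z, w⟩ := d
    refine ⟨fun i q hq hc => ?_, fun k q hq hc => ?_⟩
    · obtain ⟨r, hr, j, hj, e1⟩ := h1.1 i q hq hc
      obtain ⟨r', hr', k, hk, e2⟩ := h2.1 j r (hr.trans hq) hj
      exact ⟨r', hr'.trans hr, k, hk, ih i (eqF_mono e1 hr') e2⟩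
    · obtain ⟨r, hr, j, hj, e1⟩ := h2.2 k q hq hc
      obtain ⟨r', hr', i, hi, e2⟩ := h1.2 j r (hr.trans hq) hj
      exact ⟨r', hr'.trans hr, i, hi, ih i e2 (eqF_mono e1 hr')⟩

theorem eqF_dense {a b : Nm P} {p : P} (h : ∀ q, q ≤ p → ∃ r, r ≤ q ∧ EqF a b r) :
    EqF a b p := by
  rw [EqF_iff]
  refine ⟨fun i q hq hc => ?_, fun j q hq hc => ?_⟩
  · obtain ⟨r, hr, e⟩ := h q hq
    obtain ⟨r', hr', j, hj, e'⟩ := (EqF_iff.1 e).1 i r le_rfl (hr.trans hc)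
    exact ⟨r', hr'.trans hr, j, hj, e'⟩
  · obtain ⟨r, hr, e⟩ := h q hq
    obtain ⟨r', hr', j, hj, e'⟩ := (EqF_iff.1 e).2 j r le_rfl (hr.trans hc)
    exact ⟨r', hr'.trans hr, j, hj, e'⟩

theorem memF_mono {a b : Nm P} {p q : P} (h : MemF a b p) (hq : q ≤ p) : MemF a b q :=
  fun r hr => h r (hr.trans hq)

theorem memF_dense {a b : Nm P} {p : P} (h : ∀ q, q ≤ p → ∃ r, r ≤ q ∧ MemF a b r) :
    MemF a b p := by
  intro q hq
  obtain ⟨r, hr, e⟩ := h q hq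
  obtain ⟨r', hr', j, hj, e'⟩ := e r le_rfl
  exact ⟨r', hr'.trans hr, j, hj, e'⟩

theorem memF_intro {b : Nm P} (j : b.I) {p : P} (h : p ≤ b.cd j) : MemF (b.el j) b p :=
  fun q hq => ⟨q, le_rfl, j, hq.trans h, eqF_refl _ _⟩

theorem memF_congl {a a' b : Nm P} {p : P} (h : EqF a a' p) (hm : MemF a b p) :
    MemF a' b p := by
  intro q hq
  obtain ⟨r, hr, j, hj, e⟩ := hm q hq
  exact ⟨r, hr, j, hj, eqF_trans (eqF_symm (eqF_mono h (hr.trans hq))) e⟩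

theorem memF_congr {a b b' : Nm P} {p : P} (h : EqF b b' p) (hm : MemF a b p) :
    MemF a b' p := by
  intro q hq
  obtain ⟨r, hr, j, hj, e⟩ := hm q hq
  obtain ⟨r', hr', k, hk, e'⟩ := (EqF_iff.1 h).1 j r (hr.trans hq) hj
  exact ⟨r', hr'.trans hr, k, hk, eqF_trans (eqF_mono e hr') e'⟩

theorem eqF_ext {a b : Nm P} {p : P}
    (h1 : ∀ (i : a.I) q, q ≤ p → q ≤ a.cd i → MemF (a.el i) b q)
    (h2 : ∀ (j : b.I) q, q ≤ p → q ≤ b.cd j → MemF (b.el j) a q) : EqF a b p := by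
  rw [EqF_iff]
  refine ⟨fun i q hq hc => h1 i q hq hc q le_rfl, fun j q hq hc => ?_⟩
  obtain ⟨r, hr, i, hi, e⟩ := h2 j q hq hc q le_rfl
  exact ⟨r, hr, i, hi, eqF_symm e⟩

end

/-- module EQ -/
theorem eqFacts : EQStmt := fun P _ =>
  { refl := eqF_refl
    symm := eqF_symm
    trans := eqF_trans
    mono := eqF_mono
    dense := eqF_dense
    mmono := memF_mono
    mdense := memF_dense
    mintro := memF_intro
    mcongl := memF_congl
    mcongr := memF_congr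
    ext := eqF_ext }

end CU
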