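import Pool.Agent.H20.CU.Lab
import Pool.Agent.H78.CUR.COD

/-!
Values of the names in generic quotients: generic real numbers as limits along the generic
filter, labels.
-/

set_option linter.unusedVariables false
set_option synthInstance.maxSize 100000

namespace CU

open SW CUR Topology Filter

/-- the filter of a generic sequence -/
def gF (c : ℕ → Pc) : Filter Om := ⨅ k, 𝓟 (c k).1

theorem gF_basis {c : ℕ → Pc} (h : ∀ k, c (k + 1) ≤ c k) :
    (gF c).HasBasis (fun _ => True) (fun k => (c k).1) := by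
  have h1 : Antitone (fun k => (c k).1) := antitone_nat_of_succ_le h
  exact hasBasis_iInf_principal h1.directed_ge

theorem gF_neBot {c : ℕ → Pc} (h : ∀ k, c (k + 1) ≤ c k) : (gF c).NeBot :=
  (gF_basis h).neBot_iff.2 fun {k} _ => (c k).2.2

theorem gF_ev {c : ℕ → Pc} (h : ∀ k, c (k + 1) ≤ c k) {p : Om → Prop} :
    (∀ᶠ x in gF c, p x) ↔ ∃ k, ∀ x ∈ (c k).1, p x := by
  rw [(gF_basis h).eventually_iff]
  simp

section
variable {ν : ℕ → HNO} {c : ℕ → Pc}

theorem numN_inj {i j : ℕ} {p : Pc} (h : EqF (numN i) (numN j) p) : i = j := by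
  obtain ⟨ν, c, h1, h2, h3⟩ := genExists Pc GE p (numH Pc GE)
  choose u hu using h3
  exact gn_num_inj h1 hu ((gn_eq_iff h1 _ _).2 ⟨0, by rw [hu, hu]; exact eqF_mono h h2⟩)

theorem gn_sN (hg : Gn ν c) {ι : Type} {f : ι → ℕ} {U : ι → Set Om} {hU : ∀ t, IsOpen (U t)}
    {m : ℕ} (hm : (ν m).1 = sN f U hU) {u : ℕ → ℕ} (hu : ∀ n, ν (u n) = numH Pc GE n)
    (y : GQ ν c) : E y (qc ν c m) ↔ ∃ t l, (c l).1 ⊆ U t ∧ y = qc ν c (u (f t)) := by
  rw [gn_mem_iff' hg]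
  have gen : ∀ b : Nm Pc, b = sN f U hU → (∀ i : b.I, ∃ t, b.el i = numN (f t) ∧
      (b.cd i).1 = U t) ∧ ∀ t, (U t).Nonempty → ∃ i : b.I, b.el i = numN (f t) ∧
      (b.cd i).1 = U t := by
    rintro _ rfl
    exact ⟨fun i => ⟨i.1, rfl, rfl⟩, fun t ht => ⟨⟨t, ht⟩, rfl, rfl⟩⟩
  constructor
  · rintro ⟨m', l, i, e1, e2, rfl⟩
    obtain ⟨t, e3, e4⟩ := (gen _ hm).1 i
    refine ⟨t, l, ?_, ?_⟩
    · rw [← e4]; exact e2
    · refine (gn_eq_iff hg _ _).2 ⟨0, ?_⟩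
      rw [hu, ← e1, e3]
      exact eqF_refl _ _
  · rintro ⟨t, l, h1, rfl⟩
    obtain ⟨i, e3, e4⟩ := (gen _ hm).2 t ((c l).2.2.mono h1)
    refine ⟨u (f t), l, i, ?_, ?_, rfl⟩
    · rw [e3, hu]; rfl
    · show (c l).1 ⊆ _
      rw [e4]
      exact h1

theorem rl_dec (hg : Gn ν c) {φ : Om → ℝ} {hφ : Continuous φ} {m : ℕ}
    (hm : (ν m).1 = rl φ hφ) {u : ℕ → ℕ} (hu : ∀ n, ν (u n) = numH Pc GE n) (a : ℕ) :
    (E (qc ν c (u a)) (qc ν c m) → ∃ l, ∀ x ∈ (c l).1, (qq a : ℝ) < φ x) ∧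
    (¬ E (qc ν c (u a)) (qc ν c m) → ∃ l, ∀ x ∈ (c l).1, φ x ≤ qq a) := by
  constructor
  · intro h
    obtain ⟨t, l, h1, h2⟩ := (gn_sN hg hm hu _).1 h
    have h3 : a = t.1.1 := gn_num_inj hg hu h2
    refine ⟨l, fun x hx => ?_⟩
    have h4 : (qq t.1.2 : ℝ) < φ x := h1 hx
    have h5 : (qq a : ℝ) < qq t.1.2 := by rw [h3]; exact_mod_cast t.2
    exact h5.trans h4
  · intro h
    rcases hg.dec (.mem (0 : Fin 2) 1) ![u a, m] with ⟨k, h1 | h1⟩
    · exact absurd ((gn_mem_iff hg _ _).2 ⟨k, h1⟩) h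
    · refine ⟨k, fun x hx => ?_⟩
      by_contra hlt
      push Not at hlt
      obtain ⟨q, hq1, hq2⟩ := exists_rat_btwn hlt
      obtain ⟨i, hi⟩ := qq_surj q
      have ho : IsOpen {x : Om | (qq i : ℝ) < φ x} := isOpen_lt continuous_const hφ
      let r : Pc := ⟨(c k).1 ∩ {x | (qq i : ℝ) < φ x}, (c k).2.1.inter ho,
        ⟨x, hx, by show (qq i : ℝ) < φ x; rw [hi]; exact hq2⟩⟩
      refine h1 r (show r ≤ c k from Set.inter_subset_left) ?_
      show MemF (ν (u a)).1 (ν m).1 r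
      rw [hm, hu]
      have hai : qq a < qq i := by
        have : (qq a : ℝ) < (q : ℝ) := hq1
        rw [hi]
        exact_mod_cast this
      exact memF_sN (f := fun p : {p : ℕ × ℕ // qq p.1 < qq p.2} => p.1.1) ⟨(a, i), hai⟩
        (show r.1 ⊆ _ from Set.inter_subset_right)

theorem exists_lim (hg : Gn ν c) {φ : Om → ℝ} {hφ : Continuous φ} {m : ℕ}
    (hm : (ν m).1 = rl φ hφ) {u : ℕ → ℕ} (hu : ∀ n, ν (u n) = numH Pc GE n) {o : ℕ}
    (ho : ν o = omH Pc GE) : ∃ r, Tendsto φ (gF c) (𝓝 r) := by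
  have hanti := hg.anti
  -- a lower bound
  have b1 : ∃ y, E y (qc ν c m) := by
    refine (fs_truth (fun N _ (w : Fin 1 → N) => ∃ y, E y (w 0)) ν c hg ![m]).2 ⟨0, ?_⟩
    refine (fs_ex (fun N _ y (w : Fin 1 → N) => E y (w 0))).2 fun q hq => ?_
    obtain ⟨x0, hx0⟩ := q.2.2
    obtain ⟨qi, hqi⟩ := exists_rat_lt (φ x0)
    obtain ⟨qj, hqj⟩ := exists_rat_lt (qi : ℝ)
    obtain ⟨i, rfl⟩ := qq_surj qi
    obtain ⟨j, rfl⟩ := qq_surj qj
    have hop : IsOpen {x : Om | (qq i : ℝ) < φ x} := isOpen_lt continuous_const hφ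
    refine ⟨⟨q.1 ∩ {x | (qq i : ℝ) < φ x}, q.2.1.inter hop, ⟨x0, hx0, hqi⟩⟩,
      Set.inter_subset_left, numH Pc GE j, ?_⟩
    refine (fs_mem (0 : Fin 2) 1 _ _).2 ?_
    show MemF (numN j) (ν m).1 _
    rw [hm]
    exact memF_sN (f := fun p : {p : ℕ × ℕ // qq p.1 < qq p.2} => p.1.1)
      ⟨(j, i), by exact_mod_cast hqj⟩ (fun x hx => hx.2)
  -- an upper bound
  have b2 : ∃ y, E y (qc ν c o) ∧ ¬ E y (qc ν c m) := by
    refine (fs_truth (fun N _ (w : Fin 2 → N) => ∃ y, E y (w 0) ∧ ¬ E y (w 1)) ν c hg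
      ![o, m]).2 ⟨0, ?_⟩
    refine (fs_ex (fun N _ y (w : Fin 2 → N) => E y (w 0) ∧ ¬ E y (w 1))).2 fun q hq => ?_
    obtain ⟨x0, hx0⟩ := q.2.2
    obtain ⟨qj, hqj⟩ := exists_rat_gt (φ x0)
    obtain ⟨j, rfl⟩ := qq_surj qj
    have hop : IsOpen {x : Om | φ x < (qq j : ℝ)} := isOpen_lt hφ continuous_const
    refine ⟨⟨q.1 ∩ {x | φ x < (qq j : ℝ)}, q.2.1.inter hop, ⟨x0, hx0, hqj⟩⟩,
      Set.inter_subset_left, numH Pc GE j, ?_⟩
    refine fs_of (fun N _ (w : Fin 3 → N) => E (w 0) (w 1) ∧ ¬ E (w 0) (w 2)) (numH Pc GE)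
      fun ν' c' hg' hk w hw u' hu' => ?_
    have w0 : ν' (w 0) = numH Pc GE j := hw 0
    have w1 : ν' (w 1) = omH Pc GE := (hw 1).trans ho
    have w2 : (ν' (w 2)).1 = rl φ hφ := by
      have : ν' (w 2) = ν m := hw 2
      rw [this, hm]
    constructor
    · refine (gn_mem_iff hg' _ _).2 ⟨0, ?_⟩
      rw [w0, w1]
      exact memF_famN (fun n : ℕ => (numN n : Nm Pc)) j _
    · intro h
      have e1 : qc ν' c' (w 0) = qc ν' c' (u' j) :=
        (gn_eq_iff hg' _ _).2 ⟨0, by rw [w0, hu']; exact eqF_refl _ _⟩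
      have h' : E (qc ν' c' (u' j)) (qc ν' c' (w 2)) := by rw [← e1]; exact h
      obtain ⟨l, hl⟩ := (rl_dec hg' w2 hu' j).1 h'
      obtain ⟨k, hk⟩ := hk
      have l1 := le_of_anti hg'.anti k (max k l) (le_max_left _ _)
      have l2 := le_of_anti hg'.anti l (max k l) (le_max_right _ _)
      obtain ⟨x, hx⟩ := (c' (max k l)).2.2
      have h3 := hl x (l2 hx)
      have h4 : φ x < (qq j : ℝ) := (hk (l1 hx)).2
      exact lt_asymm h3 h4
  let S : Set ℝ := {a | ∃ l, ∀ x ∈ (c l).1, a < φ x}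
  have hS1 : S.Nonempty := by
    obtain ⟨y, hy⟩ := b1
    obtain ⟨t, l, h1, h2⟩ := (gn_sN hg hm hu y).1 hy
    exact ⟨(qq t.1.2 : ℝ), l, fun x hx => h1 hx⟩
  have hS2 : BddAbove S := by
    obtain ⟨y, hy1, hy2⟩ := b2
    obtain ⟨a, rfl⟩ := (gn_om hg ho hu y).1 hy1
    obtain ⟨l, hl⟩ := (rl_dec hg hm hu a).2 hy2
    refine ⟨qq a, fun s hs => ?_⟩
    obtain ⟨l', hl'⟩ := hs
    have l1 := le_of_anti hanti l (max l l') (le_max_left _ _)
    have l2 := le_of_anti hanti l' (max l l') (le_max_right _ _)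
    obtain ⟨x, hx⟩ := (c (max l l')).2.2
    exact ((hl' x (l2 hx)).trans_le (hl x (l1 hx))).le
  refine ⟨sSup S, tendsto_order.2 ⟨fun a ha => ?_, fun a ha => ?_⟩⟩
  · obtain ⟨s, ⟨l, hl⟩, hs⟩ := exists_lt_of_lt_csSup hS1 ha
    rw [gF_ev hanti]
    exact ⟨l, fun x hx => hs.trans (hl x hx)⟩
  · obtain ⟨q, hq1, hq2⟩ := exists_rat_btwn ha
    obtain ⟨b, rfl⟩ := qq_surj q
    rw [gF_ev hanti]
    by_cases h : E (qc ν c (u b)) (qc ν c m)
    · obtain ⟨l, hl⟩ := (rl_dec hg hm hu b).1 h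
      exact absurd (le_csSup hS2 (show (qq b : ℝ) ∈ S from ⟨l, hl⟩)) (not_le.2 hq1)
    · obtain ⟨l, hl⟩ := (rl_dec hg hm hu b).2 h
      exact ⟨l, fun x hx => (hl x hx).trans_lt hq2⟩

theorem cut_of_lim (hg : Gn ν c) [ZF (GQ ν c)] {φ : Om → ℝ} {hφ : Continuous φ} {m : ℕ}
    (hm : (ν m).1 = rl φ hφ) {u : ℕ → ℕ} (hu : ∀ n, ν (u n) = numH Pc GE n)
    (hnu : ∀ n, qc ν c (u n) = nu n) {r : ℝ} (hr : Tendsto φ (gF c) (𝓝 r)) :
    IsCutOf (qc ν c m) r := by
  constructor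
  · intro y hy
    obtain ⟨t, l, h1, rfl⟩ := (gn_sN hg hm hu y).1 hy
    rw [hnu]
    exact nu_mem_om _
  · intro j
    rw [← hnu, gn_sN hg hm hu]
    constructor
    · rintro ⟨t, l, h1, h2⟩
      have h3 : j = t.1.1 := gn_num_inj hg hu h2
      have h5 : (qq j : ℝ) < qq t.1.2 := by rw [h3]; exact_mod_cast t.2
      have := gF_neBot hg.anti
      refine h5.trans_le (ge_of_tendsto hr ?_)
      rw [gF_ev hg.anti]
      exact ⟨l, fun x hx => (show (qq t.1.2 : ℝ) < φ x from h1 hx).le⟩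
    · intro h
      obtain ⟨q, hq1, hq2⟩ := exists_rat_btwn h
      obtain ⟨i, rfl⟩ := qq_surj q
      have h2 := hr.eventually (lt_mem_nhds hq2)
      rw [gF_ev hg.anti] at h2
      obtain ⟨l, hl⟩ := h2
      exact ⟨⟨(j, i), by exact_mod_cast hq1⟩, l, fun x hx => hl x hx, rfl⟩

/-- labels are distinct -/
theorem yH_ne (hg : Gn ν c) {m m' : ℕ} {b b' : ℕ × ℕ} (hb : b ≠ b') (hm : ν m = yH b)
    (hm' : ν m' = yH b') : qc ν c m ≠ qc ν c m' := by
  classical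
  intro h
  obtain ⟨k, hk⟩ := (gn_eq_iff hg _ _).1 h
  rw [hm, hm'] at hk
  obtain ⟨x0, hx0⟩ := (c k).2.2
  let xs : ℕ → Om := fun i => (x0.1, Function.update (Function.update x0.2 b
    ((x0.2 b).1, Function.update (x0.2 b).2 i true)) b'
      ((x0.2 b').1, Function.update (x0.2 b').2 i false))
  have hup : ∀ (f : ℕ → Bool) (t : Bool), Tendsto (fun i => Function.update f i t) atTop (𝓝 f) := by
    intro f t
    rw [tendsto_pi_nhds]
    intro j
    refine tendsto_const_nhds.congr' ?_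
    filter_upwards [eventually_gt_atTop j] with i hi
    rw [Function.update_of_ne (by omega)]
  have hlim : Tendsto xs atTop (𝓝 x0) := by
    have h1 : Tendsto (fun i => Function.update (Function.update x0.2 b
        ((x0.2 b).1, Function.update (x0.2 b).2 i true)) b'
        ((x0.2 b').1, Function.update (x0.2 b').2 i false)) atTop (𝓝 x0.2) := by
      have h2 := ((tendsto_const_nhds (x := x0.2)).update b
        ((tendsto_const_nhds (x := (x0.2 b).1)).prodMk_nhds (hup (x0.2 b).2 true))).update b'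
        ((tendsto_const_nhds (x := (x0.2 b').1)).prodMk_nhds (hup (x0.2 b').2 false))
      simpa only [Prod.mk.eta, Function.update_eq_self] using h2
    exact (tendsto_const_nhds (x := x0.1)).prodMk_nhds h1
  obtain ⟨i, hi⟩ := (hlim.eventually ((c k).2.1.mem_nhds hx0)).exists
  have o1 : IsOpen (yS b i) := yS_open b i
  have o2 : IsOpen {x : Om | (x.2 b').2 i = false} :=
    (isOpen_discrete {false}).preimage (yS_cont b' i)
  let r : Pc := ⟨((c k).1 ∩ yS b i) ∩ {x : Om | (x.2 b').2 i = false},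
    ((c k).2.1.inter o1).inter o2, ⟨xs i, ⟨hi, by
      show (Function.update (Function.update x0.2 b
        ((x0.2 b).1, Function.update (x0.2 b).2 i true)) b'
        ((x0.2 b').1, Function.update (x0.2 b').2 i false) b).2 i = true
      rw [Function.update_of_ne hb, Function.update_self]
      simp⟩, by
      show (Function.update (Function.update x0.2 b
        ((x0.2 b).1, Function.update (x0.2 b).2 i true)) b'
        ((x0.2 b').1, Function.update (x0.2 b').2 i false) b').2 i = false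
      rw [Function.update_self]
      simp⟩⟩
  have hr : r ≤ c k := fun x hx => hx.1.1
  have h1 : MemF (numN i) (yH b).1 r := memF_sN (f := id) (U := yS b) (hU := yS_open b) i
    (fun x hx => hx.1.2)
  have h2 := memF_congr (eqF_mono hk hr) h1
  obtain ⟨r', hr', j, hj, e⟩ := h2 r le_rfl
  have h3 : i = j.1 := numN_inj (i := i) (j := j.1) e
  obtain ⟨x, hx⟩ := r'.2.2
  have h4 : (x.2 b').2 j.1 = true := hj hx
  have h5 : (x.2 b').2 i = false := (hr' hx).2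
  rw [← h3, h5] at h4
  exact Bool.false_ne_true h4

end

end CU
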