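import Pool.Agent.H20.CU.Ev
import Pool.Agent.H78.CUR.R1

/-!
The circles in generic quotients.
-/

set_option linter.unusedVariables false
set_option synthInstance.maxSize 100000

namespace CU

open SW CUR Topology Filter

/-- codes with known names of the order and of the addition -/
theorem exists_codes' : ∃ (lt ad : HNO) (η : ℕ → HNO),
    (∀ (g : GE) p, EqF (act g lt.1) lt.1 p) ∧ (∀ (g : GE) p, EqF (act g ad.1) ad.1 p) ∧
    ∀ (ν : ℕ → HNO) (c : ℕ → Pc), Gn ν c → ∀ [ZF (GQ ν c)], (∀ i, ∃ j, ν j = η i) →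
      ∃ cd : Codes (GQ ν c), (∀ m, ν m = lt → qc ν c m = cd.lt) ∧
        (∀ m, ν m = ad → qc ν c m = cd.ad) ∧
        (∀ m n, ν m = numH Pc GE n → qc ν c m = nu n) ∧
        (∀ m, ν m = omH Pc GE → qc ν c m = om) := by
  obtain ⟨code, hinv, η, h⟩ := cur_cod Pc GE
  let S1 : Set (Fin 2 → ℕ) := {t | qq (t 0) < qq (t 1)}
  let S2 : Set (Fin 3 → ℕ) := {t | qq (t 2) ≤ qq (t 0) + qq (t 1)}
  let S3 : Set (Fin 2 → ℕ) := {t | (qq (t 1) : ℝ) < 1 / ((t 0 : ℝ) + 1)}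
  let S4 : Set (Fin 5 → ℕ) := {t | ∀ a b : ℝ,
    qq (t 0) < a → a ≤ qq (t 1) → qq (t 2) < b → b ≤ qq (t 3) → qq (t 4) < a * b}
  let S5 : Set (Fin 3 → ℕ) := {t | ∀ a : ℝ, qq (t 0) < a → a ≤ qq (t 1) → qq (t 2) < a⁻¹}
  let w : Fin 5 → HNO := ![code 1 S1, code 2 S2, code 1 S3, code 4 S4, code 2 S5]
  refine ⟨code 1 S1, code 2 S2, fun i => if hi : i < 5 then w ⟨i, hi⟩ else η (i - 5),
    fun g p => hinv _ _ g p, fun g p => hinv _ _ g p, ?_⟩
  intro ν c hg _ hf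
  have hη : ∀ i, ∃ j, ν j = η i := by
    intro i
    obtain ⟨j, hj⟩ := hf (i + 5)
    simp only at hj
    rw [dif_neg (by omega)] at hj
    exact ⟨j, by rw [hj]; congr 1⟩
  have hw : ∀ i : Fin 5, ∃ j, ν j = w i := by
    intro i
    obtain ⟨j, hj⟩ := hf i.1
    simp only at hj
    rw [dif_pos i.2] at hj
    exact ⟨j, hj⟩
  obtain ⟨h1, h2, h3, h4⟩ := h ν c hg hη
  obtain ⟨m0, e0⟩ := hw 0
  obtain ⟨m1, e1⟩ := hw 1
  obtain ⟨m2, e2⟩ := hw 2
  obtain ⟨m3, e3⟩ := hw 3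
  obtain ⟨m4, e4⟩ := hw 4
  refine ⟨⟨qc ν c m0, qc ν c m1, qc ν c m2, qc ν c m3, qc ν c m4, h1, ?_, ?_, ?_, ?_, ?_⟩,
    ?_, ?_, h2, h3⟩
  · intro i j
    exact h4 m0 1 S1 e0 ![i, j]
  · intro i j k
    exact h4 m1 2 S2 e1 ![i, j, k]
  · intro n j
    exact h4 m2 1 S3 e2 ![n, j]
  · intro t
    exact h4 m3 4 S4 e3 t
  · intro t
    exact h4 m4 2 S5 e4 t
  · intro m hm
    exact (gn_eq_iff hg _ _).2 ⟨0, by rw [hm, e0]; exact eqF_refl _ _⟩
  · intro m hm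
    exact (gn_eq_iff hg _ _).2 ⟨0, by rw [hm, e1]; exact eqF_refl _ _⟩

/-- the name of the order of the rationals -/
noncomputable def ltH : HNO := exists_codes'.choose
/-- the name of the addition of the rationals -/
noncomputable def adH : HNO := exists_codes'.choose_spec.choose
/-- names for the codes -/
noncomputable def etC : ℕ → HNO := exists_codes'.choose_spec.choose_spec.choose

theorem codes_spec : (∀ (g : GE) p, EqF (act g ltH.1) ltH.1 p) ∧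
    (∀ (g : GE) p, EqF (act g adH.1) adH.1 p) ∧
    ∀ (ν : ℕ → HNO) (c : ℕ → Pc), Gn ν c → ∀ [ZF (GQ ν c)], (∀ i, ∃ j, ν j = etC i) →
      ∃ cd : Codes (GQ ν c), (∀ m, ν m = ltH → qc ν c m = cd.lt) ∧
        (∀ m, ν m = adH → qc ν c m = cd.ad) ∧
        (∀ m n, ν m = numH Pc GE n → qc ν c m = nu n) ∧
        (∀ m, ν m = omH Pc GE → qc ν c m = om) :=
  exists_codes'.choose_spec.choose_spec.choose_spec

/-- the names used -/
def NS : Set HNO := Set.range etC ∪ Set.range (numH Pc GE) ∪ {omH Pc GE, ltH, adH, DH} ∪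
  Set.range yH ∪ Set.range zH ∪ Set.range dm ∪
  Set.range (fun t : DI => dH t.1.1 t.1.2.1 t.1.2.2 t.2) ∪
  Set.range (fun t : DI => opN (yH t.1.2.1) (dH t.1.1 t.1.2.1 t.1.2.2 t.2)) ∪
  Set.range (fun t : DI => opN (yH t.1.1) (opN (yH t.1.2.1) (dH t.1.1 t.1.2.1 t.1.2.2 t.2)))

theorem NS_countable : NS.Countable := by
  refine (((((((((Set.countable_range _).union (Set.countable_range _)).union
    (Set.Finite.countable ?_)).union (Set.countable_range _)).union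
    (Set.countable_range _)).union (Set.countable_range _)).union
    (Set.countable_range _)).union (Set.countable_range _)).union (Set.countable_range _))
  simp

/-- an enumeration of the names used -/
theorem exists_etN : ∃ η : ℕ → HNO, NS = Set.range η :=
  NS_countable.exists_eq_range
    ⟨numH Pc GE 0, Or.inl (Or.inl (Or.inl (Or.inl (Or.inl (Or.inl (Or.inl (Or.inr ⟨0, rfl⟩)))))))⟩

/-- the sequence of names contains all the names used -/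
def Rch (ν : ℕ → HNO) : Prop := ∀ a ∈ NS, ∃ j, ν j = a

theorem circle_int {r s : ℝ} (h : (r : T) = (s : T)) : ∃ m : ℤ, r = s + m := by
  have h1 : ((r - s : ℝ) : T) = 0 := by rw [AddCircle.coe_sub, h, sub_self]
  rw [AddCircle.coe_eq_zero_iff] at h1
  obtain ⟨m, hm⟩ := h1
  refine ⟨m, ?_⟩
  rw [zsmul_eq_mul, mul_one] at hm
  linarith

theorem int_circle (m : ℤ) : ((m : ℝ) : T) = 0 := by
  rw [AddCircle.coe_eq_zero_iff]
  exact ⟨m, by rw [zsmul_eq_mul, mul_one]⟩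

/-- the data of the circles in a generic quotient -/
theorem circ_of {ν : ℕ → HNO} {c : ℕ → Pc} (hg : Gn ν c) [ZF (GQ ν c)] (hR : Rch ν) :
    ∃ (cd : Codes (GQ ν c)) (y : ℕ × ℕ → GQ ν c) (z : ℕ × ℕ → ℝ) (D : GQ ν c),
      Circ cd y z D ∧ (∀ b, Tendsto (zf b) (gF c) (𝓝 (z b))) ∧
      (∀ m b, ν m = yH b → qc ν c m = y b) ∧ (∀ m, ν m = DH → qc ν c m = D) ∧
      (∀ m, ν m = ltH → qc ν c m = cd.lt) ∧ (∀ m, ν m = adH → qc ν c m = cd.ad) ∧
      (∀ m n, ν m = numH Pc GE n → qc ν c m = nu n) ∧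
      (∀ m, ν m = omH Pc GE → qc ν c m = om) := by
  obtain ⟨cd, hlt, had, hnum, hom⟩ := codes_spec.2.2 ν c hg (fun i => hR _
    (Or.inl (Or.inl (Or.inl (Or.inl (Or.inl (Or.inl (Or.inl (Or.inl ⟨i, rfl⟩)))))))))
  choose u hu using fun n : ℕ => hR (numH Pc GE n)
    (Or.inl (Or.inl (Or.inl (Or.inl (Or.inl (Or.inl (Or.inl (Or.inr ⟨n, rfl⟩))))))))
  obtain ⟨o, ho⟩ := hR (omH Pc GE)
    (Or.inl (Or.inl (Or.inl (Or.inl (Or.inl (Or.inl (Or.inr (by simp))))))))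
  obtain ⟨d, hd⟩ := hR DH
    (Or.inl (Or.inl (Or.inl (Or.inl (Or.inl (Or.inl (Or.inr (by simp))))))))
  choose iy hiy using fun b : ℕ × ℕ => hR (yH b)
    (Or.inl (Or.inl (Or.inl (Or.inl (Or.inl (Or.inr ⟨b, rfl⟩))))))
  choose iz hiz using fun b : ℕ × ℕ => hR (zH b)
    (Or.inl (Or.inl (Or.inl (Or.inl (Or.inr ⟨b, rfl⟩)))))
  choose im him using fun t : DI => hR (dm t) (Or.inl (Or.inl (Or.inl (Or.inr ⟨t, rfl⟩))))
  choose i0 hi0 using fun t : DI => hR (dH t.1.1 t.1.2.1 t.1.2.2 t.2)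
    (Or.inl (Or.inl (Or.inr ⟨t, rfl⟩)))
  choose i1 hi1 using fun t : DI => hR (opN (yH t.1.2.1) (dH t.1.1 t.1.2.1 t.1.2.2 t.2))
    (Or.inl (Or.inr ⟨t, rfl⟩))
  choose i2 hi2 using fun t : DI =>
    hR (opN (yH t.1.1) (opN (yH t.1.2.1) (dH t.1.1 t.1.2.1 t.1.2.2 t.2))) (Or.inr ⟨t, rfl⟩)
  have hnu : ∀ n, qc ν c (u n) = nu n := fun n => hnum _ n (hu n)
  choose z hz using fun b : ℕ × ℕ => exists_lim hg (hφ := zf_cont b)
    (show (ν (iz b)).1 = rl (zf b) (zf_cont b) by rw [hiz b]; rfl) hu ho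
  -- values
  have v0 : ∀ t : DI, IsCutOf (qc ν c (i0 t)) (z t.1.2.1 - z t.1.1 + t.1.2.2) := by
    intro t
    refine cut_of_lim hg (hφ := df_cont t.1.1 t.1.2.1 t.1.2.2)
      (show (ν (i0 t)).1 = rl _ (df_cont t.1.1 t.1.2.1 t.1.2.2) by rw [hi0 t]; rfl) hu hnu ?_
    exact ((hz t.1.2.1).sub (hz t.1.1)).add tendsto_const_nhds
  have vm : ∀ t : DI, qc ν c (im t) = opair (nu t.1.1.1) (opair (qc ν c (iy t.1.1))
      (opair (qc ν c (iy t.1.2.1)) (qc ν c (i0 t)))) := by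
    intro t
    have e1 := gn_opN hg (m := i1 t) (i := iy t.1.2.1) (j := i0 t) (by rw [hi1, hiy, hi0])
    have e2 := gn_opN hg (m := i2 t) (i := iy t.1.1) (j := i1 t) (by rw [hi2, hiy, hi1])
    have e3 := gn_opN hg (m := im t) (i := u t.1.1.1) (j := i2 t) (by rw [him, hu, hi2]; rfl)
    rw [isOP_iff] at e1 e2 e3
    rw [e3, e2, e1, hnu]
  have hR1 := cur_r1 (GQ ν c) cd
  refine ⟨cd, fun b => qc ν c (iy b), z, qc ν c d, ⟨?_, ?_, ?_, ?_⟩, hz, ?_, ?_, hlt, had,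
    hnum, hom⟩
  · intro x
    rw [gn_famN' hg (x := fun t : DI => (dm t).1) (by rw [hd]; rfl) (f := im)
      (fun t => by rw [him])]
    constructor
    · rintro ⟨⟨⟨⟨n, β⟩, ⟨n', β'⟩, m⟩, hn⟩, rfl⟩
      have hn' : n = n' := hn
      subst hn'
      refine ⟨n, β, β', _, _, vm _, v0 _, ?_⟩
      rw [AddCircle.coe_add, AddCircle.coe_sub, int_circle, add_zero]
    · rintro ⟨n, β, β', w, r, rfl, h1, h2⟩
      rw [← AddCircle.coe_sub] at h2
      obtain ⟨m, hm⟩ := circle_int h2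
      refine ⟨⟨((n, β), (n, β'), m), rfl⟩, ?_⟩
      rw [vm]
      have h3 := v0 ⟨((n, β), (n, β'), m), rfl⟩
      have h4 : w = qc ν c (i0 ⟨((n, β), (n, β'), m), rfl⟩) := hR1.uniq _ _ r h1 (by
        rw [hm]; exact h3)
      rw [h4]
  · intro n β β' h
    by_contra hne
    exact yH_ne hg (b := (n, β)) (b' := (n, β')) (fun e => hne (Prod.ext_iff.1 e).2) (hiy _)
      (hiy _) h
  · intro b x hx
    obtain ⟨t, l, h1, rfl⟩ := (gn_sN hg (f := id) (U := yS b) (hU := yS_open b)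
      (show (ν (iy b)).1 = sN id (yS b) (yS_open b) by rw [hiy b]; rfl) hu x).1 hx
    rw [hnu]
    exact nu_mem_om _
  · intro n β β'
    refine ⟨_, _, v0 ⟨((n, β), (n, β'), 0), rfl⟩, ?_⟩
    rw [AddCircle.coe_add, AddCircle.coe_sub, int_circle, add_zero]
  · intro m b hm
    exact (gn_eq_iff hg _ _).2 ⟨0, by rw [hm, hiy]; exact eqF_refl _ _⟩
  · intro m hm
    exact (gn_eq_iff hg _ _).2 ⟨0, by rw [hm, hd]; exact eqF_refl _ _⟩

end CU
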