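import Pool.Agent.H20.CU.ACT

set_option linter.unusedVariables false
set_option linter.unusedSectionVars false

namespace CU

open SW

section
variable {P : Type} [Preorder P] {G : Type} [Group G] [MulAction G P] [H : SymSys P G]

theorem frc_mono : ∀ {n : ℕ} (f : Fml n) {p q : P} {v : Fin n → HN P G}, q ≤ p →
    Frc f p v → Frc f q v
  | _, .mem i j, p, q, v, hq, h => memF_mono h hq
  | _, .eq i j, p, q, v, hq, h => eqF_mono h hq
  | _, .bot, p, q, v, hq, h => h
  | _, .imp f g, p, q, v, hq, h => fun r hr hf => h r (hr.trans hq) hf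
  | _, .all f, p, q, v, hq, h => fun x => frc_mono f hq (h x)

theorem frc_dense : ∀ {n : ℕ} (f : Fml n) {p : P} {v : Fin n → HN P G},
    (∀ q, q ≤ p → ∃ r, r ≤ q ∧ Frc f r v) → Frc f p v
  | _, .mem i j, p, v, h => memF_dense h
  | _, .eq i j, p, v, h => eqF_dense h
  | _, .bot, p, v, h => by
      obtain ⟨r, _, hr⟩ := h p le_rfl
      exact hr
  | _, .imp f g, p, v, h => fun q hq hf => by
      refine frc_dense g fun r hr => ?_
      obtain ⟨r', hr', h'⟩ := h r (hr.trans hq)
      exact ⟨r', hr', h' r' le_rfl (frc_mono f (hr'.trans hr) hf)⟩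
  | _, .all f, p, v, h => fun x => frc_dense f fun q hq => by
      obtain ⟨r, hr, h'⟩ := h q hq
      exact ⟨r, hr, h' x⟩

theorem frc_congr : ∀ {n : ℕ} (f : Fml n) {p : P} {v w : Fin n → HN P G},
    (∀ i, EqF (v i).1 (w i).1 p) → Frc f p v → Frc f p w
  | _, .mem i j, p, v, w, e, h => memF_congr (e j) (memF_congl (e i) h)
  | _, .eq i j, p, v, w, e, h => eqF_trans (eqF_symm (e i)) (eqF_trans h (e j))
  | _, .bot, p, v, w, e, h => h
  | _, .imp f g, p, v, w, e, h => fun q hq hf =>
      frc_congr g (fun i => eqF_mono (e i) hq)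
        (h q hq (frc_congr f (fun i => eqF_symm (eqF_mono (e i) hq)) hf))
  | _, .all f, p, v, w, e, h => fun x => frc_congr f (fun i => by
      refine Fin.cases ?_ (fun j => ?_) i
      · exact eqF_refl _ _
      · exact e j) (h x)

/-- the action on hereditarily respected names -/
def actN (g : G) (a : HN P G) : HN P G := ⟨act g a.1, hr_act g a.1 a.2⟩

theorem actN_inv (g : G) (a : HN P G) : actN g (actN g⁻¹ a) = a := by
  refine Subtype.ext ?_
  show act g (act g⁻¹ a.1) = a.1
  rw [← act_mul, mul_inv_cancel, act_one]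

theorem actN_inv' (g : G) (a : HN P G) : actN g⁻¹ (actN g a) = a := by
  refine Subtype.ext ?_
  show act g⁻¹ (act g a.1) = a.1
  rw [← act_mul, inv_mul_cancel, act_one]

theorem frc_act : ∀ {n : ℕ} (f : Fml n) (g : G) {p : P} {v : Fin n → HN P G},
    Frc f (g • p) (fun i => actN g (v i)) ↔ Frc f p v
  | _, .mem i j, g, p, v => memF_act g _ _ _
  | _, .eq i j, g, p, v => eqF_act g _ _ _
  | _, .bot, g, p, v => Iff.rfl
  | _, .imp f f', g, p, v => by
      constructor
      · intro h q hq hf
        exact (frc_act f' g).1 (h _ (H.mono g hq) ((frc_act f g).2 hf))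
      · intro h q hq hf
        have e : g • (g⁻¹ • q) = q := smul_inv_smul g q
        have hq' : g⁻¹ • q ≤ p := by
          rw [← smul_le_iff' g, e]; exact hq
        have := (frc_act f' g (p := g⁻¹ • q) (v := v)).2
          (h _ hq' ((frc_act f g).1 (by rw [e]; exact hf)))
        rwa [e] at this
  | _, .all f, g, p, v => by
      have key : ∀ x : HN P G, (fun i => actN g ((Fin.cons x v : Fin _ → HN P G) i))
          = (Fin.cons (actN g x) (fun i => actN g (v i)) : Fin _ → HN P G) := by
        intro x
        funext i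
        refine Fin.cases ?_ (fun j => ?_) i <;> rfl
      constructor
      · intro h x
        rw [← frc_act f g, key]
        exact h _
      · intro h x
        have := (frc_act f g).2 (h (actN g⁻¹ x))
        rw [key, actN_inv] at this
        exact this

theorem frc_symm {n : ℕ} (f : Fml n) (g : G) {p : P} {v w : Fin n → HN P G}
    (h : ∀ i, (w i).1 = act g (v i).1) : Frc f (g • p) w ↔ Frc f p v := by
  have : w = fun i => actN g (v i) := funext fun i => Subtype.ext (h i)
  rw [this]
  exact frc_act f g

end

/-- module FRC -/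
theorem frcFacts : FRCStmt := fun P G _ _ _ _ =>
  { mono := frc_mono
    dense := frc_dense
    congr := frc_congr
    symm := frc_symm }

end CU
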