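import Pool.Agent.H20.CU.TRU

set_option linter.unusedVariables false
set_option linter.unusedSectionVars false
set_option synthInstance.maxSize 100000

namespace CU

open SW

section
variable {P : Type} [Preorder P] {G : Type} [Group G] [MulAction G P] [H : SymSys P G]

variable (P G) in
/-- the name of the empty set -/
def empN : HN P G := ⟨.mk Empty Empty.elim Empty.elim,
  ⟨H.S0, fun g _ p => ⟨fun i => i.elim, fun i => i.elim⟩⟩, fun i => i.elim⟩

/-- a generic sequence below `p` containing finitely many given names -/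
theorem gen_fin (p : P) {n : ℕ} (v : Fin n → HN P G) :
    ∃ (ν : ℕ → HN P G) (c : ℕ → P) (w : Fin n → ℕ), Gn ν c ∧ c 0 ≤ p ∧ ∀ i, ν (w i) = v i := by
  obtain ⟨ν, c, h1, h2, h3⟩ := genExists P G p
    (fun i => if h : i < n then v ⟨i, h⟩ else empN P G)
  choose w hw using fun i : Fin n => h3 i.1
  refine ⟨ν, c, w, h1, h2, fun i => ?_⟩
  rw [hw i, dif_pos i.2]

theorem frc_not_ex {n : ℕ} (f : Fml n) {p : P} {v : Fin n → HN P G} (h : ¬ Frc f p v) :
    ∃ q, q ≤ p ∧ ∀ r, r ≤ q → ¬ Frc f r v := by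
  by_contra hcon
  push Not at hcon
  exact h (frc_dense f hcon)

theorem fs_frc {n : ℕ} (R : ∀ (N : Type) [SetStr N], (Fin n → N) → Prop) (f : Fml n)
    (hf : ∀ (N : Type) [SetStr N] (v : Fin n → N), R N v ↔ Sat f v)
    (p : P) (v : Fin n → HN P G) : FS R p v ↔ Frc f p v := by
  constructor
  · intro h
    by_contra hcon
    obtain ⟨q, hq, hr⟩ := frc_not_ex f hcon
    obtain ⟨ν, c, w, h1, h2, h3⟩ := gen_fin q v
    have h4 := h ν c h1 ⟨0, h2.trans hq⟩ w h3
    rw [hf, gn_truth h1] at h4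
    obtain ⟨k, hk⟩ := h4
    have e : (fun i => ν (w i)) = v := funext h3
    rw [e] at hk
    exact hr _ ((le_of_anti h1.anti 0 k (Nat.zero_le _)).trans h2) hk
  · intro h ν c hg ⟨k, hk⟩ w hw
    rw [hf, gn_truth hg]
    refine ⟨k, frc_mono f hk ?_⟩
    have e : (fun i => ν (w i)) = v := funext hw
    rw [e]
    exact h

theorem fs_mono {n : ℕ} (R : ∀ (N : Type) [SetStr N], (Fin n → N) → Prop) {p q : P}
    {v : Fin n → HN P G} (hq : q ≤ p) (h : FS R p v) : FS R q v :=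
  fun ν c hg ⟨k, hk⟩ w hw => h ν c hg ⟨k, hk.trans hq⟩ w hw

theorem fs_dense {n : ℕ} (R : ∀ (N : Type) [SetStr N], (Fin n → N) → Prop) [hR : UDf R] {p : P}
    {v : Fin n → HN P G} (h : ∀ q, q ≤ p → ∃ r, r ≤ q ∧ FS R r v) : FS R p v := by
  obtain ⟨f, hf⟩ := hR.out
  rw [fs_frc R f hf]
  refine frc_dense f fun q hq => ?_
  obtain ⟨r, hr, h'⟩ := h q hq
  exact ⟨r, hr, (fs_frc R f hf _ _).1 h'⟩

theorem fs_neg {n : ℕ} (R : ∀ (N : Type) [SetStr N], (Fin n → N) → Prop) [hR : UDf R] {p : P}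
    {v : Fin n → HN P G} (h : ¬ FS R p v) : ∃ q, q ≤ p ∧ FS (fun N _ w => ¬ R N w) q v := by
  obtain ⟨f, hf⟩ := hR.out
  rw [fs_frc R f hf] at h
  obtain ⟨q, hq, hr⟩ := frc_not_ex f h
  refine ⟨q, hq, ?_⟩
  rw [fs_frc _ (.imp f .bot) (fun N _ w => by rw [hf]; exact Iff.rfl)]
  exact fun r hr' hf' => hr r hr' hf'

theorem fs_ex {n : ℕ} (R : ∀ (N : Type) [SetStr N], N → (Fin n → N) → Prop)
    [hR : UDf (fun N _ (w : Fin (n + 1) → N) => R N (w 0) (fun i => w i.succ))] {p : P}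
    {v : Fin n → HN P G} : FS (fun N _ w => ∃ x, R N x w) p v ↔
      ∀ q, q ≤ p → ∃ r, r ≤ q ∧ ∃ x : HN P G,
        FS (fun N _ (w : Fin (n + 1) → N) => R N (w 0) (fun i => w i.succ)) r (Fin.cons x v) := by
  obtain ⟨f, hf⟩ := hR.out
  have hf' : ∀ (N : Type) [SetStr N] (x : N) (v : Fin n → N), R N x v ↔ Sat f (Fin.cons x v) := by
    intro N _ x v
    rw [← hf N]
    simp
  rw [fs_frc _ (.imp (.all (.imp f .bot)) .bot) (fun N _ w => by
    simp only [Sat]
    constructor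
    · rintro ⟨x, hx⟩ h
      exact h x ((hf' N x w).1 hx)
    · intro h
      by_contra hcon
      exact h fun x hx => hcon ⟨x, (hf' N x w).2 hx⟩)]
  simp only [Frc]
  constructor
  · intro h q hq
    have h1 := h q hq
    by_contra hcon
    refine h1 fun x r hr hx => hcon ⟨r, hr, x, ?_⟩
    rw [fs_frc _ f hf]
    exact hx
  · intro h q hq h1
    obtain ⟨r, hr, x, hx⟩ := h q hq
    rw [fs_frc _ f hf] at hx
    exact h1 x r hr hx

theorem fs_all {n : ℕ} (R : ∀ (N : Type) [SetStr N], N → (Fin n → N) → Prop)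
    [hR : UDf (fun N _ (w : Fin (n + 1) → N) => R N (w 0) (fun i => w i.succ))] {p : P}
    {v : Fin n → HN P G} : FS (fun N _ w => ∀ x, R N x w) p v ↔ ∀ x : HN P G,
      FS (fun N _ (w : Fin (n + 1) → N) => R N (w 0) (fun i => w i.succ)) p (Fin.cons x v) := by
  obtain ⟨f, hf⟩ := hR.out
  have hf' : ∀ (N : Type) [SetStr N] (x : N) (v : Fin n → N), R N x v ↔ Sat f (Fin.cons x v) := by
    intro N _ x v
    rw [← hf N]
    simp
  rw [fs_frc _ (.all f) (fun N _ w => by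
    simp only [Sat]
    exact forall_congr' fun x => hf' N x w)]
  simp only [Frc]
  exact forall_congr' fun x => (fs_frc _ f hf _ _).symm

theorem fs_truth {n : ℕ} (R : ∀ (N : Type) [SetStr N], (Fin n → N) → Prop) [hR : UDf R]
    (ν : ℕ → HN P G) (c : ℕ → P) (h : Gn ν c) (v : Fin n → ℕ) :
    R (GQ ν c) (fun i => qc ν c (v i)) ↔ ∃ k, FS R (c k) (fun i => ν (v i)) := by
  obtain ⟨f, hf⟩ := hR.out
  rw [hf, gn_truth h]
  exact exists_congr fun k => (fs_frc R f hf _ _).symm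

theorem fs_symm {n : ℕ} (R : ∀ (N : Type) [SetStr N], (Fin n → N) → Prop) [hR : UDf R]
    (g : G) {p : P} {v w : Fin n → HN P G} (h : ∀ i, EqF (w i).1 (act g (v i).1) (g • p)) :
    FS R (g • p) w ↔ FS R p v := by
  obtain ⟨f, hf⟩ := hR.out
  rw [fs_frc R f hf, fs_frc R f hf, ← frc_act f g (p := p) (v := v)]
  exact ⟨fun h' => frc_congr f h h', fun h' => frc_congr f (fun i => eqF_symm (h i)) h'⟩

end

/-- module FSF -/
theorem fsFacts : ∀ (P G : Type) [Preorder P] [Group G] [MulAction G P] [SymSys P G],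
    FSFacts P G := fun P G _ _ _ _ =>
  { frc := fs_frc
    mono := fs_mono
    dense := fs_dense
    neg := fs_neg
    ex := fs_ex
    all := fs_all
    truth := fs_truth
    symm := fs_symm }

end CU
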