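import Pool.Agent.H20.CU.FRC
import Pool.Agent.H35.SW.LS

set_option linter.unusedVariables false
set_option linter.unusedSectionVars false

namespace CU

open SW

/-- bookkeeping: meeting countably many requirements while collecting witnesses -/
theorem bookkeeping {P : Type} [Preorder P] {X : Type 1} {Tk : Type} [Countable Tk] [Nonempty Tk]
    (bd : Tk → ℕ) (R : Tk → P → (ℕ → X) → P → X → Prop)
    (hR : ∀ τ p ν, ∃ r, r ≤ p ∧ ∃ x, R τ p ν r x)
    (hloc : ∀ τ p ν ν' r x, (∀ i, i < bd τ → ν i = ν' i) → R τ p ν r x → R τ p ν' r x)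
    (p0 : P) (η : ℕ → X) :
    ∃ (ν : ℕ → X) (c : ℕ → P), c 0 ≤ p0 ∧ (∀ k, c (k + 1) ≤ c k) ∧ (∀ i, ∃ j, ν j = η i) ∧
      ∀ τ k0, ∃ k, k0 ≤ k ∧ ∃ j, R τ (c k) ν (c (k + 1)) (ν j) := by
  classical
  obtain ⟨e, he⟩ := exists_surjective_nat (Tk × ℕ)
  choose r hr x hx using hR
  let st : ℕ → P × (ℕ → X) := fun t => Nat.rec (p0, fun _ => η 0) (fun t s =>
    (r (e t).1 s.1 s.2, Function.update (Function.update s.2 (2 * t) (η t)) (2 * t + 1)
      (x (e t).1 s.1 s.2))) t
  have st_succ : ∀ t, st (t + 1) = (r (e t).1 (st t).1 (st t).2,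
    Function.update (Function.update (st t).2 (2 * t) (η t)) (2 * t + 1)
      (x (e t).1 (st t).1 (st t).2)) := fun t => rfl
  have stab1 : ∀ t j, j < 2 * t → (st (t + 1)).2 j = (st t).2 j := by
    intro t j hj
    rw [st_succ]
    simp only
    rw [Function.update_of_ne (by omega), Function.update_of_ne (by omega)]
  have stab2 : ∀ t j, j < 2 * t → ∀ d, (st (t + d)).2 j = (st t).2 j := by
    intro t j hj d
    induction d with
    | zero => rfl
    | succ d ih =>
      rw [← add_assoc, stab1 (t + d) j (by omega), ih]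
  let ν : ℕ → X := fun j => (st (j + 1)).2 j
  have hν : ∀ t j, j < 2 * t → (st t).2 j = ν j := by
    intro t j hj
    rcases le_total t (j + 1) with h | h
    · obtain ⟨d, hd⟩ := Nat.exists_eq_add_of_le h
      show _ = (st (j + 1)).2 j
      rw [hd]
      exact (stab2 t j hj d).symm
    · obtain ⟨d, hd⟩ := Nat.exists_eq_add_of_le h
      show _ = (st (j + 1)).2 j
      rw [hd]
      exact stab2 (j + 1) j (by omega) d
  refine ⟨ν, fun k => (st k).1, le_rfl, fun k => ?_, fun i => ⟨2 * i, ?_⟩, fun τ k0 => ?_⟩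
  · show (st (k + 1)).1 ≤ (st k).1
    rw [st_succ]
    exact hr _ _ _
  · rw [← hν (i + 1) (2 * i) (by omega), st_succ]
    simp only
    rw [Function.update_of_ne (by omega), Function.update_self]
  · -- find a late stage with the task `τ`
    have hinf : ∃ t, max k0 (bd τ) ≤ t ∧ (e t).1 = τ := by
      by_contra hcon
      push Not at hcon
      have hsub : ∀ m : ℕ, ∃ t, t < max k0 (bd τ) ∧ e t = (τ, m) := by
        intro m
        obtain ⟨t, ht⟩ := he (τ, m)
        refine ⟨t, ?_, ht⟩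
        by_contra hlt
        exact hcon t (not_lt.1 hlt) (by rw [ht])
      choose t ht1 ht2 using hsub
      have hinj : Function.Injective t := by
        intro m m' hmm
        have := (ht2 m).symm.trans ((congrArg e hmm).trans (ht2 m'))
        exact (Prod.mk.inj this).2
      have hfin : Set.Finite (Set.range t) :=
        (Set.finite_lt_nat (max k0 (bd τ))).subset (by
          rintro _ ⟨m, rfl⟩
          exact ht1 m)
      exact Set.infinite_range_of_injective hinj hfin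
    obtain ⟨t, ht, hτ⟩ := hinf
    refine ⟨t, (le_max_left _ _).trans ht, 2 * t + 1, ?_⟩
    have h1 := hx (e t).1 (st t).1 (st t).2
    rw [hτ] at h1
    have h2 : ν (2 * t + 1) = x τ (st t).1 (st t).2 := by
      rw [← hν (t + 1) (2 * t + 1) (by omega), st_succ]
      simp only
      rw [Function.update_self, hτ]
    have h3 : (st (t + 1)).1 = r τ (st t).1 (st t).2 := by
      rw [st_succ, hτ]
    show R τ (st t).1 ν (st (t + 1)).1 (ν (2 * t + 1))
    rw [h2, h3]
    refine hloc τ _ _ _ _ _ (fun i hi => ?_) h1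
    have hbt : bd τ ≤ t := (le_max_right _ _).trans ht
    exact hν t i (by omega)

section
variable {P : Type} [Preorder P] {G : Type} [Group G] [MulAction G P] [H : SymSys P G]

/-- the tasks -/
abbrev Task : Type := (Σ n : ℕ, Fml n × (Fin n → ℕ)) ⊕ (Σ n : ℕ, Fml (n + 1) × (Fin n → ℕ)) ⊕
  (ℕ × ℕ)

/-- a bound for the indices of a task -/
def tbd : Task → ℕ
  | .inl t => Finset.univ.sup (fun i => t.2.2 i + 1)
  | .inr (.inl t) => Finset.univ.sup (fun i => t.2.2 i + 1)
  | .inr (.inr t) => t.1 + t.2 + 1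

/-- the requirement of a task -/
def tR : Task → P → (ℕ → HN P G) → P → HN P G → Prop
  | .inl t, p, ν, r, x => Frc t.2.1 r (fun i => ν (t.2.2 i)) ∨
      ∀ q, q ≤ r → ¬ Frc t.2.1 q (fun i => ν (t.2.2 i))
  | .inr (.inl t), p, ν, r, x => (∀ q, q ≤ p → ¬ Frc (.all t.2.1) q (fun i => ν (t.2.2 i))) →
      ∀ q, q ≤ r → ¬ Frc t.2.1 q (Fin.cons x (fun i => ν (t.2.2 i)))
  | .inr (.inr t), p, ν, r, x => MemF (ν t.1).1 (ν t.2).1 p → ∃ j : (ν t.2).1.I,
      (ν t.2).1.el j = x.1 ∧ r ≤ (ν t.2).1.cd j ∧ EqF (ν t.1).1 x.1 r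

theorem tR_ex (τ : Task) (p : P) (ν : ℕ → HN P G) : ∃ r, r ≤ p ∧ ∃ x, tR τ p ν r x := by
  rcases τ with t | t | t
  · by_cases h : ∃ r, r ≤ p ∧ Frc t.2.1 r (fun i => ν (t.2.2 i))
    · obtain ⟨r, hr, h⟩ := h
      exact ⟨r, hr, ν 0, Or.inl h⟩
    · push Not at h
      exact ⟨p, le_rfl, ν 0, Or.inr h⟩
  · by_cases h : ∀ q, q ≤ p → ¬ Frc (.all t.2.1) q (fun i => ν (t.2.2 i))
    · have h1 := h p le_rfl
      simp only [Frc] at h1
      push Not at h1
      obtain ⟨x, hx⟩ := h1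
      have h2 : ∃ r, r ≤ p ∧ ∀ q, q ≤ r → ¬ Frc t.2.1 q (Fin.cons x (fun i => ν (t.2.2 i))) := by
        by_contra hcon
        push Not at hcon
        exact hx (frc_dense _ hcon)
      obtain ⟨r, hr, h2⟩ := h2
      exact ⟨r, hr, x, fun _ => h2⟩
    · exact ⟨p, le_rfl, ν 0, fun h' => absurd h' h⟩
  · by_cases h : MemF (ν t.1).1 (ν t.2).1 p
    · obtain ⟨r, hr, j, hj, e⟩ := h p le_rfl
      exact ⟨r, hr, ⟨(ν t.2).1.el j, hr_el (ν t.2).2 j⟩, fun _ => ⟨j, rfl, hj, e⟩⟩
    · exact ⟨p, le_rfl, ν 0, fun h' => absurd h' h⟩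

theorem tR_loc (τ : Task) (p : P) (ν ν' : ℕ → HN P G) (r : P) (x : HN P G)
    (h : ∀ i, i < tbd τ → ν i = ν' i) (hR : tR τ p ν r x) : tR τ p ν' r x := by
  rcases τ with t | t | t
  · have : (fun i => ν (t.2.2 i)) = fun i => ν' (t.2.2 i) := by
      funext i
      refine h _ ?_
      have := Finset.le_sup (f := fun i => t.2.2 i + 1) (Finset.mem_univ i)
      exact this
    simp only [tR] at hR ⊢
    rwa [this] at hR
  · have : (fun i => ν (t.2.2 i)) = fun i => ν' (t.2.2 i) := by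
      funext i
      refine h _ ?_
      have := Finset.le_sup (f := fun i => t.2.2 i + 1) (Finset.mem_univ i)
      exact this
    simp only [tR] at hR ⊢
    rwa [this] at hR
  · have h1 : ν t.1 = ν' t.1 := h _ (by simp only [tbd]; omega)
    have h2 : ν t.2 = ν' t.2 := h _ (by simp only [tbd]; omega)
    simp only [tR] at hR ⊢
    rw [← h1, ← h2]
    exact hR

theorem le_of_anti {c : ℕ → P} (h : ∀ k, c (k + 1) ≤ c k) : ∀ k l, k ≤ l → c l ≤ c k := by
  intro k l hkl
  obtain ⟨d, rfl⟩ := Nat.exists_eq_add_of_le hkl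
  induction d with
  | zero => exact le_rfl
  | succ d ih => exact (h (k + d)).trans (ih (by omega))

end

/-- module GEN -/
theorem genExists : GENStmt := by
  intro P G _ _ _ _ p η
  obtain ⟨ν, c, h0, h1, h2, h3⟩ := bookkeeping (X := HN P G) (Tk := Task) tbd tR tR_ex tR_loc p η
  have hle := le_of_anti h1
  refine ⟨ν, c, ⟨h1, fun {n} f v => ?_, fun {n} f v k hk => ?_, fun a b k hk => ?_⟩, h0, h2⟩
  · obtain ⟨k, _, j, hj⟩ := h3 (.inl ⟨n, f, v⟩) 0
    exact ⟨k + 1, hj⟩
  · obtain ⟨k', hk', j, hj⟩ := h3 (.inr (.inl ⟨n, f, v⟩)) k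
    exact ⟨j, k' + 1, hj fun q hq => hk q (hq.trans (hle _ _ hk'))⟩
  · obtain ⟨k', hk', j, hj⟩ := h3 (.inr (.inr ⟨a, b⟩)) k
    obtain ⟨i, e1, e2, e3⟩ := hj (memF_mono hk (hle _ _ hk'))
    exact ⟨j, k' + 1, i, e1, e2, e3⟩

end CU
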