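import Pool.Agent.H20.CU.Names
import Pool.Agent.H35.SW.SwDefs

/-!
Statements of the modules about names, forcing and the generic quotient.
-/

set_option linter.unusedVariables false
set_option synthInstance.maxSize 100000

namespace CU

open SW

/-- EQ: facts about forced equality and membership -/
structure EqFacts (P : Type) [Preorder P] : Prop where
  refl : ∀ (a : Nm P) p, EqF a a p
  symm : ∀ {a b : Nm P} {p}, EqF a b p → EqF b a p
  trans : ∀ {a b c : Nm P} {p}, EqF a b p → EqF b c p → EqF a c p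
  mono : ∀ {a b : Nm P} {p q}, EqF a b p → q ≤ p → EqF a b q
  dense : ∀ {a b : Nm P} {p}, (∀ q, q ≤ p → ∃ r, r ≤ q ∧ EqF a b r) → EqF a b p
  mmono : ∀ {a b : Nm P} {p q}, MemF a b p → q ≤ p → MemF a b q
  mdense : ∀ {a b : Nm P} {p}, (∀ q, q ≤ p → ∃ r, r ≤ q ∧ MemF a b r) → MemF a b p
  mintro : ∀ {b : Nm P} (j : b.I) {p}, p ≤ b.cd j → MemF (b.el j) b p
  mcongl : ∀ {a a' b : Nm P} {p}, EqF a a' p → MemF a b p → MemF a' b p
  mcongr : ∀ {a b b' : Nm P} {p}, EqF b b' p → MemF a b p → MemF a b' p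
  /-- extensionality for the members of the families -/
  ext : ∀ {a b : Nm P} {p}, (∀ (i : a.I) q, q ≤ p → q ≤ a.cd i → MemF (a.el i) b q) →
    (∀ (j : b.I) q, q ≤ p → q ≤ b.cd j → MemF (b.el j) a q) → EqF a b p

/-- EQ -/
def EQStmt : Prop := ∀ (P : Type) [Preorder P], EqFacts P

/-- ACT: the action on names -/
structure ActFacts (P G : Type) [Preorder P] [Group G] [MulAction G P] [H : SymSys P G] :
    Prop where
  one : ∀ a : Nm P, act (1 : G) a = a
  mul : ∀ (g h : G) (a : Nm P), act (g * h) a = act g (act h a)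
  le_iff : ∀ (g : G) (p q : P), g • p ≤ g • q ↔ p ≤ q
  eq : ∀ (g : G) (a b : Nm P) (p : P), EqF (act g a) (act g b) (g • p) ↔ EqF a b p
  mem : ∀ (g : G) (a b : Nm P) (p : P), MemF (act g a) (act g b) (g • p) ↔ MemF a b p
  sy : ∀ (g : G) (S T : SymSys.Sp P G) (a : Nm P),
    (∀ f ∈ SymSys.Fix (P := P) T, g⁻¹ * f * g ∈ SymSys.Fix (P := P) S) → Sy S a → Sy T (act g a)
  hr : ∀ (g : G) (a : Nm P), HR G a → HR G (act g a)
  /-- common supports of finitely many names -/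
  fin : ∀ {n : ℕ} (v : Fin n → HN P G) (S : SymSys.Sp P G), ∃ T : SymSys.Sp P G,
    (∀ g ∈ SymSys.Fix (P := P) (G := G) T, g ∈ SymSys.Fix (P := P) (G := G) S) ∧
    ∀ i, Sy T (v i).1

/-- ACT -/
def ACTStmt : Prop := ∀ (P G : Type) [Preorder P] [Group G] [MulAction G P] [SymSys P G],
  ActFacts P G

/-- the action on hereditarily respected names (with `ACTStmt` as a hypothesis) -/
def actH {P G : Type} [Preorder P] [Group G] [MulAction G P] [H : SymSys P G]
    (hA : ActFacts P G) (g : G) (a : HN P G) : HN P G := ⟨act g a.1, hA.hr g a.1 a.2⟩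

/-- FRC: the forcing relation -/
structure FrcFacts (P G : Type) [Preorder P] [Group G] [MulAction G P] [H : SymSys P G] :
    Prop where
  mono : ∀ {n : ℕ} (f : Fml n) {p q : P} {v : Fin n → HN P G}, q ≤ p → Frc f p v → Frc f q v
  dense : ∀ {n : ℕ} (f : Fml n) {p : P} {v : Fin n → HN P G},
    (∀ q, q ≤ p → ∃ r, r ≤ q ∧ Frc f r v) → Frc f p v
  congr : ∀ {n : ℕ} (f : Fml n) {p : P} {v w : Fin n → HN P G},
    (∀ i, EqF (v i).1 (w i).1 p) → Frc f p v → Frc f p w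
  /-- the symmetry lemma -/
  symm : ∀ {n : ℕ} (f : Fml n) (g : G) {p : P} {v w : Fin n → HN P G},
    (∀ i, (w i).1 = act g (v i).1) → (Frc f (g • p) w ↔ Frc f p v)

/-- FRC -/
def FRCStmt : Prop := ∀ (P G : Type) [Preorder P] [Group G] [MulAction G P] [SymSys P G],
  FrcFacts P G

/-- GEN: existence of generic sequences -/
def GENStmt : Prop := ∀ (P G : Type) [Preorder P] [Group G] [MulAction G P] [SymSys P G]
  (p : P) (η : ℕ → HN P G), ∃ (ν : ℕ → HN P G) (c : ℕ → P), Gn ν c ∧ c 0 ≤ p ∧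
    ∀ i, ∃ j, ν j = η i

/-- TRU: facts about the generic quotient -/
structure GnFacts {P G : Type} [Preorder P] [Group G] [MulAction G P] [H : SymSys P G]
    (ν : ℕ → HN P G) (c : ℕ → P) : Prop where
  le : ∀ k l, k ≤ l → c l ≤ c k
  surj : ∀ x : GQ ν c, ∃ i, x = qc ν c i
  eq_iff : ∀ i j, qc ν c i = qc ν c j ↔ ∃ k, EqF (ν i).1 (ν j).1 (c k)
  mem_iff : ∀ i j, E (qc ν c i) (qc ν c j) ↔ ∃ k, MemF (ν i).1 (ν j).1 (c k)
  /-- a member of the class of a name is the class of a member of the family -/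
  mem_iff' : ∀ x j, E x (qc ν c j) ↔ ∃ (m l : ℕ) (i : (ν j).1.I), (ν j).1.el i = (ν m).1 ∧
    c l ≤ (ν j).1.cd i ∧ x = qc ν c m
  truth : ∀ {n : ℕ} (f : Fml n) (v : Fin n → ℕ),
    Sat f (fun i => qc ν c (v i)) ↔ ∃ k, Frc f (c k) (fun i => ν (v i))
  wf : WellFounded (fun x y : GQ ν c => E x y)
  cnt : Countable (GQ ν c)

/-- TRU -/
def TRUStmt : Prop := ∀ (P G : Type) [Preorder P] [Group G] [MulAction G P] [SymSys P G]
  (ν : ℕ → HN P G) (c : ℕ → P), Gn ν c → GnFacts ν c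

/-- ZFA -/
def ZFStmt : Prop := ∀ (P G : Type) [Preorder P] [Group G] [MulAction G P] [SymSys P G]
  (ν : ℕ → HN P G) (c : ℕ → P), Gn ν c → ZF (GQ ν c)

/-- FSF: semantic forcing -/
structure FSFacts (P G : Type) [Preorder P] [Group G] [MulAction G P] [H : SymSys P G] :
    Prop where
  /-- semantic forcing is forcing of the formula -/
  frc : ∀ {n : ℕ} (R : ∀ (N : Type) [SetStr N], (Fin n → N) → Prop) (f : Fml n),
    (∀ (N : Type) [SetStr N] (v : Fin n → N), R N v ↔ Sat f v) →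
    ∀ (p : P) (v : Fin n → HN P G), FS R p v ↔ Frc f p v
  mono : ∀ {n : ℕ} (R : ∀ (N : Type) [SetStr N], (Fin n → N) → Prop) {p q : P}
    {v : Fin n → HN P G}, q ≤ p → FS R p v → FS R q v
  dense : ∀ {n : ℕ} (R : ∀ (N : Type) [SetStr N], (Fin n → N) → Prop) [UDf R] {p : P}
    {v : Fin n → HN P G}, (∀ q, q ≤ p → ∃ r, r ≤ q ∧ FS R r v) → FS R p v
  /-- if `p` does not force `R`, some `q` below forces the negation -/
  neg : ∀ {n : ℕ} (R : ∀ (N : Type) [SetStr N], (Fin n → N) → Prop) [UDf R] {p : P}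
    {v : Fin n → HN P G}, ¬ FS R p v → ∃ q, q ≤ p ∧ FS (fun N _ w => ¬ R N w) q v
  ex : ∀ {n : ℕ} (R : ∀ (N : Type) [SetStr N], N → (Fin n → N) → Prop)
    [UDf (fun N _ (w : Fin (n + 1) → N) => R N (w 0) (fun i => w i.succ))] {p : P}
    {v : Fin n → HN P G}, FS (fun N _ w => ∃ x, R N x w) p v ↔
      ∀ q, q ≤ p → ∃ r, r ≤ q ∧ ∃ x : HN P G,
        FS (fun N _ (w : Fin (n + 1) → N) => R N (w 0) (fun i => w i.succ)) r (Fin.cons x v)
  all : ∀ {n : ℕ} (R : ∀ (N : Type) [SetStr N], N → (Fin n → N) → Prop)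
    [UDf (fun N _ (w : Fin (n + 1) → N) => R N (w 0) (fun i => w i.succ))] {p : P}
    {v : Fin n → HN P G}, FS (fun N _ w => ∀ x, R N x w) p v ↔
      ∀ x : HN P G,
        FS (fun N _ (w : Fin (n + 1) → N) => R N (w 0) (fun i => w i.succ)) p (Fin.cons x v)
  /-- truth in a given generic quotient -/
  truth : ∀ {n : ℕ} (R : ∀ (N : Type) [SetStr N], (Fin n → N) → Prop) [UDf R]
    (ν : ℕ → HN P G) (c : ℕ → P), Gn ν c → ∀ v : Fin n → ℕ,
    (R (GQ ν c) (fun i => qc ν c (v i)) ↔ ∃ k, FS R (c k) (fun i => ν (v i)))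
  /-- symmetry for names with a common support -/
  symm : ∀ {n : ℕ} (R : ∀ (N : Type) [SetStr N], (Fin n → N) → Prop) [UDf R]
    (g : G) {p : P} {v w : Fin n → HN P G}, (∀ i, EqF (w i).1 (act g (v i).1) (g • p)) →
      (FS R (g • p) w ↔ FS R p v)

end CU
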