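import Pool.Agent.H20.CU.Box

/-!
Homogeneity and the restriction lemma.
-/

set_option linter.unusedVariables false
set_option synthInstance.maxSize 100000

namespace CU

open SW Topology

section
variable {A A1 A2 : Finset ℕ} {B B1 B2 : Finset (ℕ × ℕ)} {g : GE}

theorem Mv.fix (h : Mv A A1 A2 B B1 B2 g) (k : ℕ) : g ∈ FixS A k B := by
  obtain ⟨θ, h1, h2, h3, h4, h5⟩ := h.h_eq
  exact ⟨fun c i hi => by rw [h1, h3 i hi], fun n _ c => h.s_zero n c, h.π_B⟩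

theorem Mv.inv_smul (h : Mv A A1 A2 B B1 B2 g) {θ : Equiv.Perm ℕ}
    (hθ : ∀ c i, g.h c i = c (θ i)) (hθ' : ∀ i, θ (θ i) = i) (w : Om) :
    g⁻¹ • w = ((fun i => w.1 (θ i)), fun b => w.2 (g.π b)) := by
  refine Prod.ext ?_ ?_
  · show g.h.symm w.1 = fun i => w.1 (θ i)
    rw [Homeomorph.symm_apply_eq]
    funext i
    rw [hθ]
    simp only [hθ']
  · funext b
    show ((w.2 ((g⁻¹).π⁻¹ b)).1 + (g⁻¹).s b.1 w.1, (w.2 ((g⁻¹).π⁻¹ b)).2) = w.2 (g.π b)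
    have e1 : (g⁻¹).π⁻¹ b = g.π b := by
      rw [GE.inv_π, inv_inv]
    rw [e1, GE.inv_s, h.s_zero, neg_zero, add_zero]

theorem Mv.inv_eq (h : Mv A A1 A2 B B1 B2 g) : g⁻¹ = g := by
  obtain ⟨θ, h1, h2, h3, h4, h5⟩ := h.h_eq
  refine GE.ext' ?_ ?_ ?_
  · ext c i
    show g.h.symm c i = g.h c i
    have : g.h.symm c = fun i => c (θ i) := by
      rw [Homeomorph.symm_apply_eq]
      funext i
      rw [h1]
      simp only [h2]
    rw [this, h1]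
  · rw [GE.inv_π]
    ext1 b
    rw [Equiv.Perm.inv_eq_iff_eq, h.π_inv]
  · funext n c
    rw [GE.inv_s, h.s_zero, h.s_zero, neg_zero]

end

/-- homogeneity -/
theorem hom (A : Finset ℕ) (k : ℕ) (B : Finset (ℕ × ℕ)) {U V : Set Om} (hU : IsOpen U)
    (hV : IsOpen V) {x x' : Om} (hx : x ∈ V) (hx' : x' ∈ U) (hag : Ag A B x x') :
    ∃ g ∈ FixS A k B, ∃ w ∈ V, g⁻¹ • w ∈ U := by
  classical
  obtain ⟨A1, B1, O, W, hO, hW, b1, b2⟩ := exists_box hU hx'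
  obtain ⟨A2, B2, O', W', hO', hW', c1, c2⟩ := exists_box hV hx
  obtain ⟨g, hg⟩ := exists_mv A A1 A2 B B1 B2
  obtain ⟨θ, h1, h2, h3, h4, h5⟩ := hg.h_eq
  let w : Om := (fun i => if θ i ∈ A1 ∧ θ i ∉ A then x'.1 (θ i) else x.1 i,
    fun b => if g.π b ∈ B1 ∧ g.π b ∉ B then x'.2 (g.π b) else x.2 b)
  refine ⟨g, hg.fix k, w, c2 ⟨fun i hi => ?_, fun b hb => ?_⟩, ?_⟩
  · have : ¬ (θ i ∈ A1 ∧ θ i ∉ A) := fun ⟨a, b⟩ => by
      have := (h4 _ a b).2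
      rw [h2] at this
      exact this hi
    show (if θ i ∈ A1 ∧ θ i ∉ A then x'.1 (θ i) else x.1 i) ∈ O' i
    rw [if_neg this]
    exact c1.1 i hi
  · have : ¬ (g.π b ∈ B1 ∧ g.π b ∉ B) := fun ⟨a, b'⟩ => by
      have := (hg.π_new _ a b').2
      rw [hg.π_inv] at this
      exact this hb
    show (if g.π b ∈ B1 ∧ g.π b ∉ B then x'.2 (g.π b) else x.2 b) ∈ W' b
    rw [if_neg this]
    exact c1.2 b hb
  · rw [hg.inv_smul h1 h2]
    refine b2 ⟨fun i hi => ?_, fun b hb => ?_⟩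
    · show (if θ (θ i) ∈ A1 ∧ θ (θ i) ∉ A then x'.1 (θ (θ i)) else x.1 (θ i)) ∈ O i
      rw [h2]
      by_cases h : i ∈ A
      · rw [if_neg (fun h' => h'.2 h), h3 i h, hag.1 i h]
        exact b1.1 i hi
      · rw [if_pos ⟨hi, h⟩]
        exact b1.1 i hi
    · show (if g.π (g.π b) ∈ B1 ∧ g.π (g.π b) ∉ B then x'.2 (g.π (g.π b)) else x.2 (g.π b)) ∈ W b
      rw [hg.π_inv]
      by_cases h : b ∈ B
      · rw [if_neg (fun h' => h'.2 h), hg.π_B b h, hag.2 b h]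
        exact b1.2 b hb
      · rw [if_pos ⟨hb, h⟩]
        exact b1.2 b hb

/-- the name `a` is respected by `FixS A k B` -/
def SyF (A : Finset ℕ) (k : ℕ) (B : Finset (ℕ × ℕ)) (a : Nm Pc) : Prop :=
  ∀ g ∈ FixS A k B, ∀ p : Pc, EqF (act g a) a p

theorem SyF.mono {A A' : Finset ℕ} {k k' : ℕ} {B B' : Finset (ℕ × ℕ)} {a : Nm Pc}
    (h : SyF A k B a) (hA : A ⊆ A') (hk : k ≤ k') (hB : B ⊆ B') : SyF A' k' B' a :=
  fun g hg p => h g (FixS_mono hA hk hB hg) p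

/-- the hereditarily respected names of the symmetric system -/
abbrev HNO : Type 1 := HN Pc GE

theorem exists_syF (a : HNO) : ∃ (A : Finset ℕ) (k : ℕ) (B : Finset (ℕ × ℕ)),
    (∀ b ∈ B, b.1 < k) ∧ SyF A k B a.1 := by
  obtain ⟨S, hS⟩ := sy_of_hr a.2
  exact ⟨S.A, S.k, S.B, S.hB, hS⟩

/-- the restriction lemma -/
theorem res {n : ℕ} (R : ∀ (N : Type) [SetStr N], (Fin n → N) → Prop) [UDf R]
    {A : Finset ℕ} {k : ℕ} {B : Finset (ℕ × ℕ)} {U : Pc} {v : Fin n → HNO}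
    (hv : ∀ i, SyF A k B (v i).1) (h : FS R U v) : FS R (rsP A B U) v := by
  refine fs_dense R fun q hq => ?_
  obtain ⟨x, hx⟩ := q.2.2
  obtain ⟨x', hx', e⟩ := hq hx
  obtain ⟨g, hg, w, hw, hw'⟩ := hom A k B U.2.1 q.2.1 hx hx' e
  refine ⟨⟨q.1 ∩ (g • U).1, q.2.1.inter (g • U).2.1, ⟨w, hw, hw'⟩⟩, Set.inter_subset_left, ?_⟩
  refine fs_mono R (p := g • U) Set.inter_subset_right ?_
  exact (fs_symm R g (fun i => eqF_symm (hv i g hg _))).2 h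

/-- the restriction lemma for equality -/
theorem res_eq {A : Finset ℕ} {k : ℕ} {B : Finset (ℕ × ℕ)} {U : Pc} {a b : HNO}
    (ha : SyF A k B a.1) (hb : SyF A k B b.1) (h : EqF a.1 b.1 U) :
    EqF a.1 b.1 (rsP A B U) := by
  have h1 := (fs_eq (0 : Fin 2) 1 U ![a, b]).2 h
  have h2 := res (fun N _ (w : Fin 2 → N) => w 0 = w 1) (A := A) (k := k) (B := B)
    (v := ![a, b]) (fun i => by
      refine Fin.cases ha (fun i => ?_) i
      refine Fin.cases hb (fun i => i.elim0) i) h1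
  exact (fs_eq (0 : Fin 2) 1 (rsP A B U) ![a, b]).1 h2

/-! ### supports of translates -/

theorem syF_act {A A' : Finset ℕ} {k k' : ℕ} {B B' : Finset (ℕ × ℕ)} {a : Nm Pc} {g : GE}
    (h : ∀ f ∈ FixS A' k' B', g⁻¹ * f * g ∈ FixS A k B) (ha : SyF A k B a) :
    SyF A' k' B' (act g a) := by
  intro f hf p
  have h1 := ha _ (h f hf) (g⁻¹ • p)
  rw [← eqF_act g, smul_inv_smul, ← act_mul] at h1
  have : g * (g⁻¹ * f * g) = f * g := by group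
  rw [this, act_mul] at h1
  exact h1

theorem syF_conj {A F : Finset ℕ} {k : ℕ} {B : Finset (ℕ × ℕ)} {a : Nm Pc} {g : GE}
    (hAF : A ⊆ F) (hF : LocH F g.h) (hs : ∀ n < k, LocF F (g.s n)) (ha : SyF A k B a) :
    SyF F k (B.image g.π) (act g a) := syF_act (fun f hf => FixS_conj hAF hF hs hf) ha

/-- the support of a name moved by a permutation -/
theorem syF_mv {A A1 A2 : Finset ℕ} {B B1 B2 : Finset (ℕ × ℕ)} {g : GE}
    (hg : Mv A A1 A2 B B1 B2 g) {θ : Equiv.Perm ℕ}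
    (hθ : ∀ c i, g.h c i = c (θ i)) (hθ' : ∀ i, θ (θ i) = i) {A' : Finset ℕ} {k : ℕ}
    {B' : Finset (ℕ × ℕ)} {a : Nm Pc} (ha : SyF A' k B' a) :
    SyF (A'.image θ) k (B'.image g.π) (act g a) := by
  refine syF_act (fun f hf => ?_) ha
  rw [hg.inv_eq]
  obtain ⟨h1, h2, h3⟩ := hf
  refine ⟨fun c i hi => ?_, fun n hn c => ?_, fun b hb => ?_⟩
  · rw [GE.mul_h, GE.mul_h, hθ, h1 _ _ (Finset.mem_image_of_mem θ hi), hθ, hθ']
  · rw [GE.mul_s, GE.mul_s, hg.s_zero, hg.s_zero, h2 n hn]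
    simp
  · rw [GE.mul_π, GE.mul_π, Equiv.Perm.mul_apply, Equiv.Perm.mul_apply,
      h3 _ (Finset.mem_image_of_mem _ hb), hg.π_inv]

end CU
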