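import Pool.Agent.H20.CU.Hom
import Pool.Agent.H35.SW.SwDefs

/-!
Orbit names; a member of a countable set has a name in which the additional coordinates and
atoms are removed from the support.
-/

set_option linter.unusedVariables false
set_option synthInstance.maxSize 100000

namespace CU

open SW Topology

section
variable {P : Type} [Preorder P] {G : Type} [Group G] [MulAction G P] [H : SymSys P G]

theorem fs_congr {n : ℕ} (R : ∀ (N : Type) [SetStr N], (Fin n → N) → Prop) [hR : UDf R]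
    {p : P} {v w : Fin n → HN P G} (h : ∀ i, EqF (v i).1 (w i).1 p) (h' : FS R p v) :
    FS R p w := by
  obtain ⟨f, hf⟩ := hR.out
  rw [fs_frc R f hf] at h' ⊢
  exact frc_congr f h h'

/-- members of `ω` are numerals -/
theorem mem_om {a : Nm P} {p : P} (h : MemF a (omH P G).1 p) : ∀ q, q ≤ p → ∃ r, r ≤ q ∧
    ∃ i : ℕ, EqF a (numN i) r := by
  intro q hq
  obtain ⟨r, hr, j, hj, e⟩ := h q hq
  exact ⟨r, hr, j.1, e⟩

theorem fs_nat {n : ℕ} (R : ∀ (N : Type) [SetStr N], N → (Fin n → N) → Prop)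
    [hR : UDf (fun N _ (w : Fin (n + 1) → N) => R N (w 0) (fun i => w i.succ))] {p : P}
    {v : Fin n → HN P G} {j : Fin n} (hj : v j = omH P G)
    (h : FS (fun N _ w => ∃ x, E x (w j) ∧ R N x w) p v) :
    ∀ q, q ≤ p → ∃ r, r ≤ q ∧ ∃ i : ℕ,
      FS (fun N _ (w : Fin (n + 1) → N) => R N (w 0) (fun i => w i.succ)) r
        (Fin.cons (numH P G i) v) := by
  intro q hq
  have _ : UDf (fun N _ (w : Fin (n + 1) → N) => E (w 0) (w j.succ) ∧
    R N (w 0) (fun i => w i.succ)) := inferInstance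
  obtain ⟨r, hr, x, hx⟩ := (fs_ex (fun N _ x w => E x (w j) ∧ R N x w)).1 h q hq
  have h1 : MemF x.1 (omH P G).1 r := by
    have h2 : FS (fun N _ (w : Fin (n + 1) → N) => E (w 0) (w j.succ)) r (Fin.cons x v) :=
      fun ν c hg hk w hw => (hx ν c hg hk w hw).1
    have h3 := (fs_mem _ _ _ _).1 h2
    have e : (Fin.cons x v : Fin (n + 1) → HN P G) j.succ = omH P G := hj
    rw [e] at h3
    exact h3
  obtain ⟨r', hr', i, hi⟩ := mem_om (G := G) h1 r le_rfl
  refine ⟨r', hr'.trans hr, i, ?_⟩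
  refine fs_congr _ (v := Fin.cons x v) (fun k => ?_) (fs_mono _ hr' fun ν c hg hk w hw =>
    (hx ν c hg hk w hw).2)
  refine Fin.cases ?_ (fun k => ?_) k
  · exact hi
  · exact eqF_refl _ _

end

/-! ### orbit names -/

/-- all members of the translates `g a`, below the translates of `b` -/
noncomputable def orbN (K : Subgroup GE) (a : Nm Pc) (b : Pc) : Nm Pc :=
  .mk {z : {g // g ∈ K} × a.I × Pc // z.2.2 ≤ z.1.1 • a.cd z.2.1 ∧ z.2.2 ≤ z.1.1 • b}
    (fun z => act z.1.1.1 (a.el z.1.2.1)) (fun z => z.1.2.2)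

theorem smul_le_smul' {g : GE} {p q : Pc} (h : p ≤ q) : g • p ≤ g • q :=
  SymSys.mono (P := Pc) g h

theorem orbN_sy (A : Finset ℕ) (k : ℕ) (B : Finset (ℕ × ℕ)) (hB : ∀ b ∈ B, b.1 < k)
    (a : Nm Pc) (b : Pc) : SyF A k B (orbN (FixS A k B) a b) := by
  have : Sy (P := Pc) (G := GE) (show SymSys.Sp Pc GE from (⟨A, k, B, hB⟩ : Spp))
      (orbN (FixS A k B) a b) := by
    refine sy_of fun f hf z q hq => ?_
    obtain ⟨⟨g, i, r⟩, h1, h2⟩ := z
    have e1 : act f (act g.1 (a.el i)) = act (f * g.1) (a.el i) := (act_mul _ _ _).symm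
    show MemF (act f (act g.1 (a.el i))) _ q
    rw [e1]
    exact memF_intro (b := orbN (FixS A k B) a b)
      ⟨((⟨f * g.1, mul_mem hf g.2⟩ : {g // g ∈ FixS A k B}), i, q),
        by
          show q ≤ (f * g.1) • a.cd i
          rw [mul_smul]
          exact hq.trans (smul_le_smul' h1), by
          show q ≤ (f * g.1) • b
          rw [mul_smul]
          exact hq.trans (smul_le_smul' h2)⟩ le_rfl
  exact this

theorem orbN_hr (A : Finset ℕ) (k : ℕ) (B : Finset (ℕ × ℕ)) (hB : ∀ b ∈ B, b.1 < k)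
    {a : Nm Pc} (ha : HR GE a) (b : Pc) : HR GE (orbN (FixS A k B) a b) :=
  ⟨⟨⟨A, k, B, hB⟩, orbN_sy A k B hB a b⟩, fun z => hr_act _ _ (hr_el ha _)⟩

theorem orbN_eq {K : Subgroup GE} {a : Nm Pc} {b : Pc}
    (h : ∀ g ∈ K, ∀ r : Pc, r ≤ b → r ≤ g • b → EqF (act g a) a r) :
    EqF (orbN K a b) a b := by
  refine eqF_ext (fun z q hq hc => ?_) (fun i q hq hc => ?_)
  · obtain ⟨⟨g, i, r⟩, h1, h2⟩ := z
    have hc' : q ≤ r := hc
    exact memF_congr (h g.1 g.2 q hq (hc'.trans h2)) (el_act g.1 i (hc'.trans h1))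
  · have e1 : a.el i = act (1 : GE) (a.el i) := (act_one _).symm
    rw [e1]
    exact memF_intro (b := orbN K a b)
      ⟨((⟨1, one_mem _⟩ : {g // g ∈ K}), i, q), by
        show q ≤ (1 : GE) • a.cd i
        rw [one_smul]; exact hc, by
        show q ≤ (1 : GE) • b
        rw [one_smul]; exact hq⟩ le_rfl

/-- numerals are respected by everything -/
theorem numH_sy (A : Finset ℕ) (k : ℕ) (B : Finset (ℕ × ℕ)) (n : ℕ) :
    SyF A k B (numH Pc GE n).1 := fun g _ p => numN_act g n p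

theorem omH_act (g : GE) (p : Pc) : EqF (act g (omH Pc GE).1) (omH Pc GE).1 p := by
  refine eqF_ext (fun i q hq hc => ?_) (fun i q hq hc => ?_)
  · exact memF_congl (eqF_symm (numN_act g i.1 q)) (memF_famN (fun n : ℕ => numN n) i.1 q)
  · exact memF_congl (numN_act g i.1 q) (act_famN_mem (fun n : ℕ => numN n) g i.1 q)

theorem omH_sy (A : Finset ℕ) (k : ℕ) (B : Finset (ℕ × ℕ)) : SyF A k B (omH Pc GE).1 :=
  fun g _ p => omH_act g p

/-! ### enumerations -/

/-- `e` is a function from a subset of `om` onto the section `{x : (n, x) ∈ F}` -/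
def Enm {N : Type} [SetStr N] (e om n F : N) : Prop :=
  (∀ m x x' : N, E m om → PairIn m x e → PairIn m x' e → x = x') ∧
  ∀ x : N, PairIn n x F → ∃ m, E m om ∧ PairIn m x e

theorem Enm_u : UDf (fun N _ (w : Fin 4 → N) => Enm (w 0) (w 1) (w 2) (w 3)) := by
  unfold Enm; infer_instance

instance {n : ℕ} {t s u x : ∀ (M : Type) [SetStr M], (Fin n → M) → M} [UV t] [UV s] [UV u]
    [UV x] : UDf (fun M _ v => Enm (t M v) (s M v) (u M v) (x M v)) :=
  Enm_u.comp4 (R := fun _ _ a b c d => Enm a b c d) t s u x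

instance {M : Type} [SetStr M] {n : ℕ} {t s u x : (Fin n → M) → M} [ht : DfT t] [hs : DfT s]
    [hu : DfT u] [hx : DfT x] : Df (fun v => Enm (t v) (s v) (u v) (x v)) :=
  (Enm_u.df M).comp4 (R := fun a b c d => Enm a b c d) ht hs hu hx

/-- `w = (i, c, e, om, n, F)`: `e` enumerates the section and has the value `c` at `i` -/
def QPsi : ∀ (N : Type) [SetStr N], (Fin 6 → N) → Prop := fun N _ w =>
  Enm (w 2) (w 3) (w 4) (w 5) ∧ E (w 0) (w 3) ∧ PairIn (w 0) (w 1) (w 2)

instance : UDf QPsi := by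
  unfold QPsi; infer_instance

theorem psi_eq {p : Pc} {i c c' e n F : HNO}
    (h1 : FS QPsi p ![i, c, e, omH Pc GE, n, F]) (h2 : FS QPsi p ![i, c', e, omH Pc GE, n, F]) :
    EqF c.1 c'.1 p := by
  refine (fs_eq (0 : Fin 2) 1 p ![c, c']).1 ?_
  refine fs_of (fun N _ (w : Fin 2 → N) => w 0 = w 1)
    (fun j => if h : j < 5 then ![i, e, omH Pc GE, n, F] ⟨j, h⟩ else i)
    fun ν d hg hk w hw u hu => ?_
  have w0 : ν (w 0) = c := hw 0
  have w1 : ν (w 1) = c' := hw 1
  have u0 : ν (u 0) = i := hu 0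
  have u1 : ν (u 1) = e := hu 1
  have u2 : ν (u 2) = omH Pc GE := hu 2
  have u3 : ν (u 3) = n := hu 3
  have u4 : ν (u 4) = F := hu 4
  have a1 := h1 ν d hg hk ![u 0, w 0, u 1, u 2, u 3, u 4] (fun j => by
    fin_cases j
    · exact u0
    · exact w0
    · exact u1
    · exact u2
    · exact u3
    · exact u4)
  have a2 := h2 ν d hg hk ![u 0, w 1, u 1, u 2, u 3, u 4] (fun j => by
    fin_cases j
    · exact u0
    · exact w1
    · exact u1
    · exact u2
    · exact u3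
    · exact u4)
  exact a1.1.1 _ _ _ a1.2.1 a1.2.2 a2.2.2

/-- `w = (om, n, F)`: the section is countable -/
def QCt : ∀ (N : Type) [SetStr N], (Fin 3 → N) → Prop := fun N _ w =>
  ∃ e, Enm e (w 0) (w 1) (w 2)

instance : UDf QCt := by
  unfold QCt; infer_instance

/-- `w = (n, c, F)`: `(n, c)` is a member of `F` -/
def QIn : ∀ (N : Type) [SetStr N], (Fin 3 → N) → Prop := fun N _ w => PairIn (w 0) (w 1) (w 2)

instance : UDf QIn := PairIn_u

/-- an index of `c` in an enumeration -/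
theorem psi_ex {p : Pc} {c e n F : HNO}
    (h1 : FS (fun N _ (w : Fin 4 → N) => Enm (w 0) (w 1) (w 2) (w 3)) p ![e, omH Pc GE, n, F])
    (h2 : FS QIn p ![n, c, F]) :
    ∃ r, r ≤ p ∧ ∃ i : ℕ, FS QPsi r ![numH Pc GE i, c, e, omH Pc GE, n, F] := by
  have h3 : FS (fun N _ (w : Fin 5 → N) => ∃ x, E x (w 2) ∧
      (Enm (w 1) (w 2) (w 3) (w 4) ∧ E x (w 2) ∧ PairIn x (w 0) (w 1))) p
      ![c, e, omH Pc GE, n, F] := by
    intro ν d hg hk w hw
    have w0 : ν (w 0) = c := hw 0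
    have w1 : ν (w 1) = e := hw 1
    have w2 : ν (w 2) = omH Pc GE := hw 2
    have w3 : ν (w 3) = n := hw 3
    have w4 : ν (w 4) = F := hw 4
    have a1 := h1 ν d hg hk ![w 1, w 2, w 3, w 4] (fun j => by
      fin_cases j
      · exact w1
      · exact w2
      · exact w3
      · exact w4)
    have a2 := h2 ν d hg hk ![w 3, w 0, w 4] (fun j => by
      fin_cases j
      · exact w3
      · exact w0
      · exact w4)
    obtain ⟨m, hm1, hm2⟩ := a1.2 _ a2
    exact ⟨m, hm1, a1, hm1, hm2⟩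
  obtain ⟨r, hr, i, hi⟩ := fs_nat (fun N _ x (w : Fin 5 → N) =>
    Enm (w 1) (w 2) (w 3) (w 4) ∧ E x (w 2) ∧ PairIn x (w 0) (w 1)) (j := 2) rfl h3 p le_rfl
  refine ⟨r, hr, i, fun ν d hg hk w hw => ?_⟩
  exact hi ν d hg hk w (fun j => by
    fin_cases j
    · exact hw 0
    · exact hw 1
    · exact hw 2
    · exact hw 3
    · exact hw 4
    · exact hw 5)

/-- symmetry of `QPsi` -/
theorem psi_act {g : GE} {p : Pc} {i : ℕ} {c e n F e' F' : HNO} (hn : ∀ q, EqF (act g n.1) n.1 q)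
    (hF : ∀ q, EqF (act g F.1) F'.1 q) (he : ∀ q, EqF (act g e.1) e'.1 q)
    (h : FS QPsi p ![numH Pc GE i, c, e, omH Pc GE, n, F]) :
    FS QPsi (g • p) ![numH Pc GE i, actN g c, e', omH Pc GE, n, F'] := by
  refine (fs_symm QPsi g (v := ![numH Pc GE i, c, e, omH Pc GE, n, F]) fun j => ?_).2 h
  fin_cases j
  · exact eqF_symm (numN_act g i _)
  · exact eqF_refl _ _
  · exact eqF_symm (he _)
  · exact eqF_symm (omH_act g _)
  · exact eqF_symm (hn _)
  · exact eqF_symm (hF _)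

end CU
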