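import Pool.Agent.H20.CU.KeyA

/-!
Key lemma, first part: additional coordinates and atoms can be removed from the support of a
member of a countable set.
-/

set_option linter.unusedVariables false
set_option synthInstance.maxSize 100000

namespace CU

open SW Topology

theorem hom_mv {A A1 A2 : Finset ℕ} {B B1 B2 : Finset (ℕ × ℕ)} {g : GE}
    (hg : Mv A A1 A2 B B1 B2 g) {θ : Equiv.Perm ℕ} (h1 : ∀ c i, g.h c i = c (θ i))
    (h2 : ∀ i, θ (θ i) = i) (h3 : ∀ i ∈ A, θ i = i)
    (h4 : ∀ i ∈ A1, i ∉ A → θ i ∉ A1 ∧ θ i ∉ A2) {a1 a2 : Finset ℕ} {b1 b2 : Finset (ℕ × ℕ)}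
    {O O' : ℕ → Set ℝ} {W W' : ℕ × ℕ → Set (ℝ × (ℕ → Bool))} (ha1 : a1 ⊆ A1) (hb1 : b1 ⊆ B1)
    (ha2 : a2 ⊆ A1 ∪ A2) (hb2 : b2 ⊆ B1 ∪ B2) {x x' : Om} (hx : x ∈ bx a2 b2 O' W')
    (hx' : x' ∈ bx a1 b1 O W) (hag : Ag A B x x') :
    ∃ w, w ∈ bx a2 b2 O' W' ∧ g⁻¹ • w ∈ bx a1 b1 O W := by
  classical
  let w : Om := (fun i => if θ i ∈ A1 ∧ θ i ∉ A then x'.1 (θ i) else x.1 i,
    fun b => if g.π b ∈ B1 ∧ g.π b ∉ B then x'.2 (g.π b) else x.2 b)
  refine ⟨w, ⟨fun i hi => ?_, fun b hb => ?_⟩, ?_⟩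
  · have : ¬ (θ i ∈ A1 ∧ θ i ∉ A) := fun ⟨a, b⟩ => by
      have h := h4 _ a b
      rw [h2] at h
      rcases Finset.mem_union.1 (ha2 hi) with h' | h'
      · exact h.1 h'
      · exact h.2 h'
    show (if θ i ∈ A1 ∧ θ i ∉ A then x'.1 (θ i) else x.1 i) ∈ O' i
    rw [if_neg this]
    exact hx.1 i hi
  · have : ¬ (g.π b ∈ B1 ∧ g.π b ∉ B) := fun ⟨a, b'⟩ => by
      have h := hg.π_new _ a b'
      rw [hg.π_inv] at h
      rcases Finset.mem_union.1 (hb2 hb) with h' | h'
      · exact h.1 h'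
      · exact h.2 h'
    show (if g.π b ∈ B1 ∧ g.π b ∉ B then x'.2 (g.π b) else x.2 b) ∈ W' b
    rw [if_neg this]
    exact hx.2 b hb
  · rw [hg.inv_smul h1 h2]
    refine ⟨fun i hi => ?_, fun b hb => ?_⟩
    · show (if θ (θ i) ∈ A1 ∧ θ (θ i) ∉ A then x'.1 (θ (θ i)) else x.1 (θ i)) ∈ O i
      rw [h2]
      by_cases h : i ∈ A
      · rw [if_neg (fun h' => h'.2 h), h3 i h, hag.1 i h]
        exact hx'.1 i hi
      · rw [if_pos ⟨ha1 hi, h⟩]
        exact hx'.1 i hi
    · show (if g.π (g.π b) ∈ B1 ∧ g.π (g.π b) ∉ B then x'.2 (g.π (g.π b)) else x.2 (g.π b)) ∈ W b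
      rw [hg.π_inv]
      by_cases h : b ∈ B
      · rw [if_neg (fun h' => h'.2 h), hg.π_B b h, hag.2 b h]
        exact hx'.2 b hb
      · rw [if_pos ⟨hb1 hb, h⟩]
        exact hx'.2 b hb

theorem bx_sub_rs {A a : Finset ℕ} {B b : Finset (ℕ × ℕ)} {O : ℕ → Set ℝ}
    {W : ℕ × ℕ → Set (ℝ × (ℕ → Bool))} {x0 : Om} (h0 : x0 ∈ bx a b O W) :
    bx (a ∩ A) (b ∩ B) O W ⊆ rs A B (bx a b O W) := by
  intro y hy
  refine ⟨mix A B y x0, ⟨fun i hi => ?_, fun c hc => ?_⟩, (mix_ag A B y x0).symm⟩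
  · show (if i ∈ A then y.1 i else x0.1 i) ∈ O i
    by_cases h : i ∈ A
    · rw [if_pos h]; exact hy.1 i (Finset.mem_inter.2 ⟨hi, h⟩)
    · rw [if_neg h]; exact h0.1 i hi
  · show (if c ∈ B then y.2 c else x0.2 c) ∈ W c
    by_cases h : c ∈ B
    · rw [if_pos h]; exact hy.2 c (Finset.mem_inter.2 ⟨hc, h⟩)
    · rw [if_neg h]; exact h0.2 c hc

theorem bx_anti {A a : Finset ℕ} {B b : Finset (ℕ × ℕ)} {O : ℕ → Set ℝ}
    {W : ℕ × ℕ → Set (ℝ × (ℕ → Bool))} (ha : a ⊆ A) (hb : b ⊆ B) : bx A B O W ⊆ bx a b O W :=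
  fun x hx => ⟨fun i hi => hx.1 i (ha hi), fun c hc => hx.2 c (hb hc)⟩

/-- boxes as conditions -/
def bxP (A : Finset ℕ) (B : Finset (ℕ × ℕ)) (O : ℕ → Set ℝ) (W : ℕ × ℕ → Set (ℝ × (ℕ → Bool)))
    (hO : ∀ i, IsOpen (O i)) (hW : ∀ b, IsOpen (W b)) (h : (bx A B O W).Nonempty) : Pc :=
  ⟨bx A B O W, bx_open hO hW, h⟩

/-- Key lemma, first part. -/
theorem keyAB {A A' : Finset ℕ} {k : ℕ} {B B' : Finset (ℕ × ℕ)} (hB : ∀ b ∈ B, b.1 < k)
    (hA : A ⊆ A') (hBB : B ⊆ B') (hB' : ∀ b ∈ B', b.1 < k) {F c : HNO} {n : ℕ} {q : Pc}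
    (hF : SyF A k B F.1) (hc : SyF A' k B' c.1) (h1 : FS QIn q ![numH Pc GE n, c, F])
    (h2 : FS QCt q ![omH Pc GE, numH Pc GE n, F]) :
    ∃ r, r ≤ q ∧ ∃ u : HNO, SyF A k B u.1 ∧ EqF c.1 u.1 r := by
  classical
  -- an enumeration below `q`
  obtain ⟨q1, hq1, e, he⟩ := (fs_ex (fun N _ e (w : Fin 3 → N) => Enm e (w 0) (w 1) (w 2))).1
    h2 q le_rfl
  obtain ⟨Ae, ke, Be, hBe, hSe⟩ := exists_syF e
  obtain ⟨x1, hx1⟩ := q1.2.2
  obtain ⟨A1, B1, O1, W1, hO1, hW1, b1, b2⟩ := exists_box q1.2.1 hx1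
  -- move its support away
  obtain ⟨ρ, hρ⟩ := exists_mv A (A1 ∪ Ae) A' B (B1 ∪ Be) B'
  obtain ⟨θ, t1, t2, t3, t4, t5⟩ := hρ.h_eq
  obtain ⟨w, hw1, hw2⟩ := hom_mv hρ t1 t2 t3 t4 (a1 := A1) (a2 := A1) (b1 := B1) (b2 := B1)
    Finset.subset_union_left Finset.subset_union_left
    (fun i hi => by simp [hi]) (fun b hb => by simp [hb]) b1 b1 (Ag.refl x1)
  have hρA : ρ ∈ FixS A k B := hρ.fix k
  let e' : HNO := actN ρ e
  have hSe' : SyF (Ae.image θ) ke (Be.image ρ.π) e'.1 := syF_mv hρ t1 t2 hSe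
  let Ae' : Finset ℕ := Ae.image θ ∪ A
  let Be' : Finset (ℕ × ℕ) := Be.image ρ.π ∪ B
  let ke' : ℕ := max ke k
  have hSe2 : SyF Ae' ke' Be' e'.1 := hSe'.mono Finset.subset_union_left (le_max_left _ _)
    Finset.subset_union_left
  have hAe' : ∀ i ∈ Ae', i ∈ A' → i ∈ A := by
    intro i hi hi'
    rcases Finset.mem_union.1 hi with h | h
    · obtain ⟨j, hj, rfl⟩ := Finset.mem_image.1 h
      by_contra hcon
      have hjA : j ∉ A := fun h => hcon (by rw [t3 j h]; exact h)
      exact (t4 j (Finset.mem_union_right _ hj) hjA).2 hi'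
    · exact h
  have hBe' : ∀ b ∈ Be', b ∈ B' → b ∈ B := by
    intro b hb hb'
    rcases Finset.mem_union.1 hb with h | h
    · obtain ⟨j, hj, rfl⟩ := Finset.mem_image.1 h
      by_contra hcon
      have hjB : j ∉ B := fun h => hcon (by rw [hρ.π_B j h]; exact h)
      exact (hρ.π_new j (Finset.mem_union_right _ hj) hjB).2 hb'
    · exact h
  let q1' : Pc := bxP A1 B1 O1 W1 hO1 hW1 ⟨x1, b1⟩
  let q2 : Pc := ⟨q1'.1 ∩ (ρ • q1').1, q1'.2.1.inter (ρ • q1').2.1, ⟨w, hw1, hw2⟩⟩
  have hq21 : q2 ≤ q1' := Set.inter_subset_left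
  have hq2ρ : q2 ≤ ρ • q1' := Set.inter_subset_right
  have hq1' : q1' ≤ q1 := b2
  have he1 : FS (fun N _ (w : Fin 4 → N) => Enm (w 0) (w 1) (w 2) (w 3)) q1'
      ![e, omH Pc GE, numH Pc GE n, F] := fs_mono _ hq1' he
  have he2 : FS (fun N _ (w : Fin 4 → N) => Enm (w 0) (w 1) (w 2) (w 3)) q2
      ![e', omH Pc GE, numH Pc GE n, F] := by
    refine fs_mono _ hq2ρ ((fs_symm _ ρ (v := ![e, omH Pc GE, numH Pc GE n, F])
      fun j => ?_).2 he1)
    fin_cases j
    · exact eqF_refl _ _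
    · exact eqF_symm (omH_act ρ _)
    · exact eqF_symm (numN_act ρ n _)
    · exact eqF_symm (hF ρ hρA _)
  -- the index of `c`
  obtain ⟨q3, hq3, i0, hi0⟩ := psi_ex he2 (fs_mono _ (hq21.trans (hq1'.trans hq1)) h1)
  obtain ⟨x3, hx3⟩ := q3.2.2
  obtain ⟨A3, B3, O, W, hO, hW, c1, c2⟩ := exists_box q3.2.1 hx3
  let A4 : Finset ℕ := A' ∪ Ae'
  let B4 : Finset (ℕ × ℕ) := B' ∪ Be'
  let V : Pc := bxP (A3 ∩ A4) (B3 ∩ B4) O W hO hW
    ⟨x3, bx_anti Finset.inter_subset_left Finset.inter_subset_left c1⟩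
  have hAA4 : A ⊆ A4 := hA.trans Finset.subset_union_left
  have hV : FS QPsi V ![numH Pc GE i0, c, e', omH Pc GE, numH Pc GE n, F] := by
    have h3 := res QPsi (A := A4) (k := ke') (B := B4) (U := bxP A3 B3 O W hO hW ⟨x3, c1⟩)
      (v := ![numH Pc GE i0, c, e', omH Pc GE, numH Pc GE n, F]) (fun j => by
        fin_cases j
        · exact numH_sy _ _ _ _
        · exact hc.mono Finset.subset_union_left (le_max_right _ _) Finset.subset_union_left
        · exact hSe2.mono Finset.subset_union_right le_rfl Finset.subset_union_right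
        · exact omH_sy _ _ _
        · exact numH_sy _ _ _ _
        · exact hF.mono hAA4 (le_max_right _ _) (hBB.trans Finset.subset_union_left))
      (fs_mono _ (show (bxP A3 B3 O W hO hW ⟨x3, c1⟩ : Pc) ≤ q3 from c2) hi0)
    exact fs_mono _ (show V ≤ rsP A4 B4 (bxP A3 B3 O W hO hW ⟨x3, c1⟩) from
      fun z hz => bx_sub_rs c1 hz) h3
  let b0 : Pc := bxP (A3 ∩ A') (B3 ∩ B') O W hO hW
    ⟨x3, bx_anti Finset.inter_subset_left Finset.inter_subset_left c1⟩
  -- the main claim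
  have claim : ∀ g ∈ FixS A k B, ∀ r : Pc, r ≤ b0 → r ≤ g • b0 → EqF (act g c.1) c.1 r := by
    intro g hg r hr1 hr2
    obtain ⟨Fg, f1, f2, f3⟩ := exists_conj A' k g
    obtain ⟨π, hπ⟩ := exists_mv A A' (Ae' ∪ Fg) B B'
      (Be' ∪ B'.image g.π ∪ g.fin.toFinset)
    obtain ⟨τ, s1, s2, s3, s4, s5⟩ := hπ.h_eq
    -- `π` fixes the support of `e'`
    have hπe : π ∈ FixS Ae' ke' Be' := by
      refine ⟨fun c' i hi => ?_, fun m _ c' => hπ.s_zero m c', fun b hb => ?_⟩
      · rw [s1]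
        by_cases h : i ∈ A'
        · rw [s3 i (hAe' i hi h)]
        · rw [s5 i (Finset.mem_union_left _ hi) h]
      · by_cases h : b ∈ B'
        · exact hπ.π_B b (hBe' b hb h)
        · exact hπ.π_old b (by simp [hb]) h
    -- `g` fixes the moved coordinates
    have hgn : ∀ c' : Cc, ∀ i ∈ A', g.h c' (τ i) = c' (τ i) := by
      intro c' i hi
      by_cases h : i ∈ A
      · rw [s3 i h]; exact hg.1 c' i h
      · exact f2.1 c' _ fun h' => (s4 i hi h).2 (Finset.mem_union_right _ h')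
    have hgn' : ∀ b ∈ B', g.π (π.π b) = π.π b := by
      intro b hb
      by_cases h : b ∈ B
      · rw [hπ.π_B b h]; exact hg.2.2 b h
      · by_contra h'
        have h5 : π.π b ∈ g.fin.toFinset := by
          rw [Set.Finite.mem_toFinset]; exact h'
        exact (hπ.π_new b hb h).2 (by simp [h5])
    have hgS : g ∈ FixS (A'.image τ) k (B'.image π.π) := by
      refine ⟨fun c' i hi => ?_, hg.2.1, fun b hb => ?_⟩
      · obtain ⟨j, hj, rfl⟩ := Finset.mem_image.1 hi
        exact hgn c' j hj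
      · obtain ⟨j, hj, rfl⟩ := Finset.mem_image.1 hb
        exact hgn' j hj
    have hπA : π ∈ FixS A k B := hπ.fix k
    have hSc : SyF (A'.image τ) k (B'.image π.π) (act π c.1) := syF_mv hπ s1 s2 hc
    -- equality on `V ∩ π V`
    have hV2 : FS QPsi (π • V) ![numH Pc GE i0, actN π c, e', omH Pc GE, numH Pc GE n, F] :=
      psi_act (fun q => numN_act π n q) (fun q => hF π hπA q) (fun q => hSe2 π hπe q) hV
    have hVV : ∀ r : Pc, r ≤ V → r ≤ π • V → EqF c.1 (act π c.1) r := fun r h h' =>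
      psi_eq (fs_mono _ h hV) (fs_mono _ h' hV2)
    -- equality on `b0 ∩ π b0`
    have hbb : ∀ r : Pc, r ≤ b0 → r ≤ π • b0 → EqF c.1 (act π c.1) r := by
      intro r h h'
      have hne : ∀ x : Om, x ∈ b0.1 → x ∈ (π • b0).1 → ∃ y, y ∈ V.1 ∧ y ∈ (π • V).1 ∧
          Ag (A' ∪ A'.image τ) (B' ∪ B'.image π.π) x y := by
        intro x hxb hxπ
        have hxπ' : π⁻¹ • x ∈ b0.1 := hxπ
        rw [hπ.inv_smul s1 s2] at hxπ'
        refine ⟨mix (A' ∪ A'.image τ) (B' ∪ B'.image π.π) x x3, ⟨fun i hi => ?_, fun b hb => ?_⟩,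
          ?_, (mix_ag _ _ x x3).symm⟩
        · show (if i ∈ A' ∪ A'.image τ then x.1 i else x3.1 i) ∈ O i
          rw [Finset.mem_inter] at hi
          by_cases h : i ∈ A'
          · rw [if_pos (Finset.mem_union_left _ h)]
            exact hxb.1 i (Finset.mem_inter.2 ⟨hi.1, h⟩)
          · have hi2 : i ∈ Ae' := (Finset.mem_union.1 hi.2).resolve_left h
            have h5 : i ∉ A' ∪ A'.image τ := by
              rw [Finset.mem_union, not_or]
              refine ⟨h, fun h6 => ?_⟩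
              obtain ⟨j, hj, rfl⟩ := Finset.mem_image.1 h6
              by_cases h7 : j ∈ A
              · rw [s3 j h7] at h; exact h hj
              · exact (s4 j hj h7).2 (Finset.mem_union_left _ hi2)
            rw [if_neg h5]
            exact c1.1 i hi.1
        · show (if b ∈ B' ∪ B'.image π.π then x.2 b else x3.2 b) ∈ W b
          rw [Finset.mem_inter] at hb
          by_cases h : b ∈ B'
          · rw [if_pos (Finset.mem_union_left _ h)]
            exact hxb.2 b (Finset.mem_inter.2 ⟨hb.1, h⟩)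
          · have hi2 : b ∈ Be' := (Finset.mem_union.1 hb.2).resolve_left h
            have h5 : b ∉ B' ∪ B'.image π.π := by
              rw [Finset.mem_union, not_or]
              refine ⟨h, fun h6 => ?_⟩
              obtain ⟨j, hj, rfl⟩ := Finset.mem_image.1 h6
              by_cases h7 : j ∈ B
              · rw [hπ.π_B j h7] at h; exact h hj
              · exact (hπ.π_new j hj h7).2 (by simp [hi2])
            rw [if_neg h5]
            exact c1.2 b hb.1
        · show π⁻¹ • mix (A' ∪ A'.image τ) (B' ∪ B'.image π.π) x x3 ∈ V.1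
          rw [hπ.inv_smul s1 s2]
          refine ⟨fun i hi => ?_, fun b hb => ?_⟩
          · show (if τ i ∈ A' ∪ A'.image τ then x.1 (τ i) else x3.1 (τ i)) ∈ O i
            rw [Finset.mem_inter] at hi
            by_cases h : i ∈ A'
            · rw [if_pos (Finset.mem_union_right _ (Finset.mem_image_of_mem τ h))]
              exact hxπ'.1 i (Finset.mem_inter.2 ⟨hi.1, h⟩)
            · have hi2 : i ∈ Ae' := (Finset.mem_union.1 hi.2).resolve_left h
              have h8 : τ i = i := s5 i (Finset.mem_union_left _ hi2) h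
              have h5 : i ∉ A' ∪ A'.image τ := by
                rw [Finset.mem_union, not_or]
                refine ⟨h, fun h6 => ?_⟩
                obtain ⟨j, hj, rfl⟩ := Finset.mem_image.1 h6
                by_cases h7 : j ∈ A
                · rw [s3 j h7] at h; exact h hj
                · exact (s4 j hj h7).2 (Finset.mem_union_left _ hi2)
              rw [h8, if_neg h5]
              exact c1.1 i hi.1
          · show (if π.π b ∈ B' ∪ B'.image π.π then x.2 (π.π b) else x3.2 (π.π b)) ∈ W b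
            rw [Finset.mem_inter] at hb
            by_cases h : b ∈ B'
            · rw [if_pos (Finset.mem_union_right _ (Finset.mem_image_of_mem π.π h))]
              exact hxπ'.2 b (Finset.mem_inter.2 ⟨hb.1, h⟩)
            · have hi2 : b ∈ Be' := (Finset.mem_union.1 hb.2).resolve_left h
              have h8 : π.π b = b := hπ.π_old b (by simp [hi2]) h
              have h5 : b ∉ B' ∪ B'.image π.π := by
                rw [Finset.mem_union, not_or]
                refine ⟨h, fun h6 => ?_⟩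
                obtain ⟨j, hj, rfl⟩ := Finset.mem_image.1 h6
                by_cases h7 : j ∈ B
                · rw [hπ.π_B j h7] at h; exact h hj
                · exact (hπ.π_new j hj h7).2 (by simp [hi2])
              rw [h8, if_neg h5]
              exact c1.2 b hb.1
      obtain ⟨x, hx⟩ := r.2.2
      obtain ⟨y, hy1, hy2, hy3⟩ := hne x (h hx) (h' hx)
      let VV : Pc := ⟨V.1 ∩ (π • V).1, V.2.1.inter (π • V).2.1, ⟨y, hy1, hy2⟩⟩
      have h5 := hVV VV Set.inter_subset_left Set.inter_subset_right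
      have h6 := res_eq (A := A' ∪ A'.image τ) (k := k) (B := B' ∪ B'.image π.π) (U := VV)
        (a := c) (b := actN π c)
        (hc.mono Finset.subset_union_left le_rfl Finset.subset_union_left)
        (hSc.mono Finset.subset_union_right le_rfl Finset.subset_union_right) h5
      refine eqF_mono h6 fun z hz => ?_
      obtain ⟨y', hy1', hy2', hy3'⟩ := hne z (h hz) (h' hz)
      exact ⟨y', ⟨hy1', hy2'⟩, hy3'⟩
    -- `b0 ∩ g b0 ∩ π b0` and its restriction
    have hne : ∀ x : Om, x ∈ b0.1 → x ∈ (g • b0).1 → ∃ y, y ∈ b0.1 ∧ y ∈ (g • b0).1 ∧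
        y ∈ (π • b0).1 ∧ Ag (A' ∪ Fg) (B' ∪ B'.image g.π) x y := by
      intro x hxb hxg
      have hxg' : g⁻¹ • x ∈ b0.1 := hxg
      -- modify `x` at the new coordinates
      let y : Om := (fun i => if τ i ∈ A' ∧ τ i ∉ A then x.1 (τ i) else x.1 i,
        fun b => if π.π b ∈ B' ∧ π.π b ∉ B then x.2 (π.π b) else x.2 b)
      have hy1 : Ag (A' ∪ Fg) (B' ∪ B'.image g.π) x y := by
        refine ⟨fun i hi => ?_, fun b hb => ?_⟩
        · have : ¬ (τ i ∈ A' ∧ τ i ∉ A) := fun ⟨a, b⟩ => by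
            have h := s4 _ a b
            rw [s2] at h
            rcases Finset.mem_union.1 hi with h' | h'
            · exact h.1 h'
            · exact h.2 (Finset.mem_union_right _ h')
          show x.1 i = (if τ i ∈ A' ∧ τ i ∉ A then x.1 (τ i) else x.1 i)
          rw [if_neg this]
        · have : ¬ (π.π b ∈ B' ∧ π.π b ∉ B) := fun ⟨a, b'⟩ => by
            have h := hπ.π_new _ a b'
            rw [hπ.π_inv] at h
            rcases Finset.mem_union.1 hb with h' | h'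
            · exact h.1 h'
            · exact h.2 (by
                rw [Finset.mem_union, Finset.mem_union]
                exact Or.inl (Or.inr h'))
          show x.2 b = (if π.π b ∈ B' ∧ π.π b ∉ B then x.2 (π.π b) else x.2 b)
          rw [if_neg this]
      have hyb : y ∈ b0.1 := bx_dep x hxb y
        (hy1.mono (Finset.inter_subset_right.trans Finset.subset_union_left)
          (Finset.inter_subset_right.trans Finset.subset_union_left))
      refine ⟨y, hyb, ?_, ?_, hy1⟩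
      · -- `g⁻¹ y` agrees with `g⁻¹ x`
        show g⁻¹ • y ∈ b0.1
        refine bx_dep (g⁻¹ • x) hxg' (g⁻¹ • y) ⟨fun i hi => ?_, fun b hb => ?_⟩
        · have h5 := f2.2.2.2 x.1 y.1 (fun j hj => hy1.1 j (Finset.mem_union_right _ hj))
          exact h5 i (f1 (Finset.mem_inter.1 hi).2)
        · have hb' := (Finset.mem_inter.1 hb).2
          have h5 : x.2 (g.π b) = y.2 (g.π b) := hy1.2 _
            (Finset.mem_union_right _ (Finset.mem_image_of_mem _ hb'))
          have h6 : ∀ z : Om, (g⁻¹ • z).2 b = ((z.2 (g.π b)).1 + 0, (z.2 (g.π b)).2) := by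
            intro z
            rw [smul_snd]
            have e1 : (g⁻¹).π⁻¹ b = g.π b := by
              rw [GE.inv_π, inv_inv]
            rw [e1, GE.inv_s, hg.2.1 _ (hB' b hb'), neg_zero]
          rw [h6, h6, h5]
      · show π⁻¹ • y ∈ b0.1
        rw [hπ.inv_smul s1 s2]
        refine ⟨fun i hi => ?_, fun b hb => ?_⟩
        · have hi' := (Finset.mem_inter.1 hi).2
          show (if τ (τ i) ∈ A' ∧ τ (τ i) ∉ A then x.1 (τ (τ i)) else x.1 (τ i)) ∈ O i
          rw [s2]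
          by_cases h : i ∈ A
          · rw [if_neg (fun h' => h'.2 h), s3 i h]
            exact hxb.1 i hi
          · rw [if_pos ⟨hi', h⟩]
            exact hxb.1 i hi
        · have hb' := (Finset.mem_inter.1 hb).2
          show (if π.π (π.π b) ∈ B' ∧ π.π (π.π b) ∉ B then x.2 (π.π (π.π b))
            else x.2 (π.π b)) ∈ W b
          rw [hπ.π_inv]
          by_cases h : b ∈ B
          · rw [if_neg (fun h' => h'.2 h), hπ.π_B b h]
            exact hxb.2 b hb
          · rw [if_pos ⟨hb', h⟩]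
            exact hxb.2 b hb
    obtain ⟨x, hx⟩ := r.2.2
    obtain ⟨y, hy1, hy2, hy3, hy4⟩ := hne x (hr1 hx) (hr2 hx)
    let U : Pc := ⟨b0.1 ∩ (g • b0).1 ∩ (π • b0).1,
      (b0.2.1.inter (g • b0).2.1).inter (π • b0).2.1, ⟨y, ⟨hy1, hy2⟩, hy3⟩⟩
    have hU1 : U ≤ b0 := fun z hz => hz.1.1
    have hU2 : U ≤ g • b0 := fun z hz => hz.1.2
    have hU3 : U ≤ π • b0 := fun z hz => hz.2
    have e1 : EqF c.1 (act π c.1) U := hbb U hU1 hU3
    have e2 : EqF (act g c.1) (act π c.1) U := by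
      -- apply `g` to the equality below `b0` and `π b0`
      have hle1 : g⁻¹ • U ≤ b0 := by
        intro z hz
        have hz' : g⁻¹⁻¹ • z ∈ U.1 := hz
        rw [inv_inv] at hz'
        have := hU2 hz'
        rw [mem_smul_iff, inv_smul_smul] at this
        exact this
      have hle2 : g⁻¹ • U ≤ π • b0 := by
        intro z hz
        have hz' : g⁻¹⁻¹ • z ∈ U.1 := hz
        rw [inv_inv] at hz'
        have h5 := hU3 hz'
        have h5' : π⁻¹ • (g • z) ∈ b0.1 := h5
        show π⁻¹ • z ∈ b0.1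
        rw [hπ.inv_smul s1 s2] at h5' ⊢
        refine bx_dep _ h5' _ ⟨fun i hi => ?_, fun b hb => ?_⟩
        · exact hgn z.1 i (Finset.mem_inter.1 hi).2
        · have hb' := (Finset.mem_inter.1 hb).2
          show (g • z).2 (π.π b) = z.2 (π.π b)
          rw [smul_snd]
          have e3 : g.π⁻¹ (π.π b) = π.π b := by
            rw [Equiv.Perm.inv_eq_iff_eq]
            exact (hgn' b hb').symm
          have e4 : g.s (π.π b).1 z.1 = 0 := by
            rw [π.blk]
            exact hg.2.1 _ (hB' b hb') _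
          rw [e3, e4, add_zero]
      have h5 := hbb (g⁻¹ • U) hle1 hle2
      rw [← eqF_act g, smul_inv_smul] at h5
      exact eqF_trans h5 (hSc g hgS _)
    have e3 : EqF (act g c.1) c.1 U := eqF_trans e2 (eqF_symm e1)
    have hSg : SyF Fg k (B'.image g.π) (act g c.1) := syF_conj f1 f2 f3 hc
    have e4 := res_eq (A := A' ∪ Fg) (k := k) (B := B' ∪ B'.image g.π) (U := U)
      (a := actN g c) (b := c)
      (hSg.mono Finset.subset_union_right le_rfl Finset.subset_union_right)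
      (hc.mono Finset.subset_union_left le_rfl Finset.subset_union_left) e3
    refine eqF_mono e4 fun z hz => ?_
    obtain ⟨y', h1', h2', h3', h4'⟩ := hne z (hr1 hz) (hr2 hz)
    exact ⟨y', ⟨⟨h1', h2'⟩, h3'⟩, h4'⟩
  -- the orbit name
  refine ⟨⟨q3.1 ∩ b0.1, q3.2.1.inter b0.2.1, ⟨x3, hx3,
    bx_anti Finset.inter_subset_left Finset.inter_subset_left c1⟩⟩, ?_,
    ⟨orbN (FixS A k B) c.1 b0, orbN_hr A k B hB c.2 b0⟩, orbN_sy A k B hB c.1 b0, ?_⟩
  · have : q3 ≤ q := hq3.trans (hq21.trans (hq1'.trans hq1))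
    exact fun z hz => this hz.1
  · exact eqF_mono (eqF_symm (orbN_eq claim)) Set.inter_subset_right

end CU
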