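import Pool.Agent.H20.CU.KeyB

/-!
Key lemma, second part: the origins of blocks can be removed from the support of a member of a
countable set.
-/

set_option linter.unusedVariables false
set_option synthInstance.maxSize 100000

namespace CU

open SW Topology

/-- the shift of the block `m` by the function `u` -/
noncomputable def sh (m : ℕ) (u : Cc → ℝ) (hu : Continuous u) (hl : ∃ F, LocF F u) : GE where
  h := Homeomorph.refl _
  π := 1
  s := fun n c => if n = m then u c else 0
  hloc := ⟨∅, locH_refl _⟩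
  blk := fun b => rfl
  fin := (1 : GE).fin
  cont := fun n => by
    by_cases h : n = m
    · simp only [if_pos h]; exact hu
    · simp only [if_neg h]; exact continuous_const
  sloc := fun n => by
    by_cases h : n = m
    · simp only [if_pos h]; exact hl
    · simp only [if_neg h]; exact ⟨∅, fun _ _ _ => rfl⟩

/-- the translation of the coordinate `i0` by a function of the other coordinates -/
noncomputable def sg (i0 : ℕ) (s : Cc → ℝ) (hs : Continuous s) (F : Finset ℕ) (hF : LocF F s)
    (hi : i0 ∉ F) : GE where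
  h :=
    { toFun := fun c => Function.update c i0 (c i0 + s c)
      invFun := fun c => Function.update c i0 (c i0 - s c)
      left_inv := fun c => by
        have h1 : s (Function.update c i0 (c i0 + s c)) = s c := hF _ _ fun i h => by
          rw [Function.update_of_ne (show i ≠ i0 from fun e => hi (e ▸ h))]
        simp only [Function.update_self, Function.update_idem, h1]
        rw [add_sub_cancel_right, Function.update_eq_self]
      right_inv := fun c => by
        have h1 : s (Function.update c i0 (c i0 - s c)) = s c := hF _ _ fun i h => by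
          rw [Function.update_of_ne (show i ≠ i0 from fun e => hi (e ▸ h))]
        simp only [Function.update_self, Function.update_idem, h1]
        rw [sub_add_cancel, Function.update_eq_self]
      continuous_toFun := by
        refine continuous_id.update i0 ?_
        exact (continuous_apply i0).add hs
      continuous_invFun := by
        refine continuous_id.update i0 ?_
        exact (continuous_apply i0).sub hs }
  π := 1
  s := fun _ _ => 0
  hloc := by
    refine ⟨insert i0 F, fun c i h => ?_, fun c c' e i h => ?_, fun c i h => ?_,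
      fun c c' e i h => ?_⟩
    · show Function.update c i0 (c i0 + s c) i = c i
      rw [Function.update_of_ne (fun e => h (by simp [e]))]
    · show Function.update c i0 (c i0 + s c) i = Function.update c' i0 (c' i0 + s c') i
      have h1 : s c = s c' := hF _ _ fun j hj => e j (Finset.mem_insert_of_mem hj)
      by_cases hii : i = i0
      · subst hii
        rw [Function.update_self, Function.update_self, h1, e i h]
      · rw [Function.update_of_ne hii, Function.update_of_ne hii, e i h]
    · show Function.update c i0 (c i0 - s c) i = c i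
      rw [Function.update_of_ne (fun e => h (by simp [e]))]
    · show Function.update c i0 (c i0 - s c) i = Function.update c' i0 (c' i0 - s c') i
      have h1 : s c = s c' := hF _ _ fun j hj => e j (Finset.mem_insert_of_mem hj)
      by_cases hii : i = i0
      · subst hii
        rw [Function.update_self, Function.update_self, h1, e i h]
      · rw [Function.update_of_ne hii, Function.update_of_ne hii, e i h]
  blk := fun b => rfl
  fin := (1 : GE).fin
  cont := fun _ => continuous_const
  sloc := fun _ => ⟨∅, fun _ _ _ => rfl⟩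

section
variable {m : ℕ} {u u' : Cc → ℝ} {hu : Continuous u} {hl : ∃ F, LocF F u}
  {hu' : Continuous u'} {hl' : ∃ F, LocF F u'}

theorem sh_fix (A : Finset ℕ) (B : Finset (ℕ × ℕ)) : sh m u hu hl ∈ FixS A m B :=
  ⟨fun c i hi => rfl, fun n hn c => if_neg hn.ne, fun b hb => rfl⟩

theorem sh_syF {A F : Finset ℕ} {k : ℕ} {B : Finset (ℕ × ℕ)} {a : Nm Pc} (hF : LocF F u)
    (ha : SyF A k B a) : SyF (A ∪ F) k B (act (sh m u hu hl) a) := by
  classical
  have h := syF_conj (g := sh m u hu hl) (F := A ∪ F) Finset.subset_union_left (locH_refl _)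
    (fun n _ => by
      show LocF (A ∪ F) (fun c => if n = m then u c else 0)
      by_cases h : n = m
      · simp only [if_pos h]; exact hF.mono Finset.subset_union_right
      · simp only [if_neg h]; exact fun _ _ _ => rfl) ha
  have e : B.image (sh m u hu hl).π = B := by
    show B.image (1 : Equiv.Perm (ℕ × ℕ)) = B
    exact Finset.image_id
  rw [e] at h
  exact h

theorem sh_smul (x : Om) : sh m u hu hl • x = (x.1, fun b =>
    ((x.2 b).1 + (if b.1 = m then u x.1 else 0), (x.2 b).2)) := rfl

theorem sh_mul {w : Cc → ℝ} {hw : Continuous w} {hlw : ∃ F, LocF F w}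
    (h : ∀ c, w c = u c + u' c) :
    sh m u hu hl * sh m u' hu' hl' = sh m w hw hlw := by
  refine GE.ext' rfl rfl ?_
  funext n c
  show (if n = m then u' c else 0) + (if n = m then u c else 0) = if n = m then w c else 0
  by_cases hn : n = m
  · simp only [if_pos hn, h]; ring
  · simp only [if_neg hn, add_zero]

theorem sh_zero (h : ∀ c, u c = 0) : sh m u hu hl = 1 := by
  refine GE.ext' rfl rfl ?_
  funext n c
  show (if n = m then u c else 0) = 0
  rw [h]
  simp

theorem sh_ag {A : Finset ℕ} {B : Finset (ℕ × ℕ)} (hB : ∀ b ∈ B, b.1 < m) (x : Om) :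
    Ag A B x (sh m u hu hl • x) := by
  refine ⟨fun i hi => rfl, fun b hb => ?_⟩
  rw [sh_smul]
  show x.2 b = ((x.2 b).1 + (if b.1 = m then u x.1 else 0), (x.2 b).2)
  rw [if_neg (hB b hb).ne, add_zero]

theorem sh_ag' {A : Finset ℕ} {B : Finset (ℕ × ℕ)} (hB : ∀ b ∈ B, b.1 < m) (x : Om) :
    Ag A B x ((sh m u hu hl)⁻¹ • x) := by
  have h := sh_ag (A := A) (hu := hu) (hl := hl) hB ((sh m u hu hl)⁻¹ • x)
  rw [smul_inv_smul] at h
  exact h.symm

theorem sh_le {A : Finset ℕ} {B : Finset (ℕ × ℕ)} (hB : ∀ b ∈ B, b.1 < m) {U : Pc}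
    (hU : Dep A B U.1) : U ≤ sh m u hu hl • U := fun x hx => hU x hx _ (sh_ag' hB x)

end

theorem sg_fix {i0 : ℕ} {s : Cc → ℝ} {hs : Continuous s} {F : Finset ℕ} {hF : LocF F s}
    {hi : i0 ∉ F} {A : Finset ℕ} (hA : i0 ∉ A) (k : ℕ) (B : Finset (ℕ × ℕ)) :
    sg i0 s hs F hF hi ∈ FixS A k B :=
  ⟨fun c i hi' => by
    show Function.update c i0 (c i0 + s c) i = c i
    rw [Function.update_of_ne (show i ≠ i0 from fun e => hA (e ▸ hi'))], fun n hn c => rfl, fun b hb => rfl⟩

theorem sg_inv_smul {i0 : ℕ} {s : Cc → ℝ} {hs : Continuous s} {F : Finset ℕ} {hF : LocF F s}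
    {hi : i0 ∉ F} (x : Om) :
    (sg i0 s hs F hF hi)⁻¹ • x = (Function.update x.1 i0 (x.1 i0 - s x.1), x.2) := by
  refine Prod.ext rfl ?_
  funext b
  show ((x.2 b).1 + - 0, (x.2 b).2) = x.2 b
  rw [neg_zero, add_zero]

/-- Key lemma, second part. -/
theorem keyC {A : Finset ℕ} {m : ℕ} {B : Finset (ℕ × ℕ)} (hB : ∀ b ∈ B, b.1 < m)
    {F c : HNO} {n : ℕ} {q : Pc} (hF : SyF A m B F.1) (hc : SyF A (m + 1) B c.1)
    (h1 : FS QIn q ![numH Pc GE n, c, F]) (h2 : FS QCt q ![omH Pc GE, numH Pc GE n, F]) :
    ∃ u : HNO, SyF A m B u.1 ∧ EqF c.1 u.1 q := by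
  classical
  let b0 : Pc := rsP A B q
  have hb0 : Dep A B b0.1 := dep_rs q.1
  have h1' : FS QIn b0 ![numH Pc GE n, c, F] := res QIn (A := A) (k := m + 1) (B := B)
    (fun j => by
      fin_cases j
      · exact numH_sy _ _ _ _
      · exact hc
      · exact hF.mono subset_rfl (Nat.le_succ m) subset_rfl) h1
  have h2' : FS QCt b0 ![omH Pc GE, numH Pc GE n, F] := res QCt (A := A) (k := m + 1) (B := B)
    (fun j => by
      fin_cases j
      · exact omH_sy _ _ _
      · exact numH_sy _ _ _ _
      · exact hF.mono subset_rfl (Nat.le_succ m) subset_rfl) h2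
  -- the name is respected by all shifts of the block `m`
  have claim : ∀ (s : Cc → ℝ) (hs : Continuous s) (Fs : Finset ℕ) (hFs : LocF Fs s)
      (v : Cc → ℝ) (hv : Continuous v) (hlv : ∃ F, LocF F v), (∀ c, v c = - s c) →
      EqF c.1 (act (sh m v hv hlv) c.1) b0 := by
    intro s hs Fs hFs v hv hlv hvs
    refine eqF_dense fun q' hq' => ?_
    obtain ⟨q1, hq1, e, he⟩ := (fs_ex (fun N _ e (w : Fin 3 → N) =>
      Enm e (w 0) (w 1) (w 2))).1 h2' q' hq'
    obtain ⟨Ae, ke, Be, hBe, hSe⟩ := exists_syF e
    let A2 : Finset ℕ := Ae ∪ A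
    let B2 : Finset (ℕ × ℕ) := Be ∪ B
    let k2 : ℕ := max ke (m + 1)
    have hSe2 : SyF A2 k2 B2 e.1 := hSe.mono Finset.subset_union_left (le_max_left _ _)
      Finset.subset_union_left
    obtain ⟨i0, hi0⟩ := Infinite.exists_notMem_finset (A2 ∪ Fs)
    have hi0A : i0 ∉ A2 := fun h => hi0 (Finset.mem_union_left _ h)
    have hi0F : i0 ∉ Fs := fun h => hi0 (Finset.mem_union_right _ h)
    let γ : Cc → ℝ := fun c => c i0
    have hγ : Continuous γ := continuous_apply i0
    have hγl : LocF {i0} γ := fun c c' e => e i0 (Finset.mem_singleton_self _)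
    let τ : GE := sh m γ hγ ⟨_, hγl⟩
    have hτF : τ ∈ FixS A m B := sh_fix A B
    have h3 : FS QIn b0 ![numH Pc GE n, actN τ c, F] := by
      refine fs_mono _ (sh_le hB hb0 : b0 ≤ τ • b0) ?_
      refine (fs_symm QIn τ (v := ![numH Pc GE n, c, F]) fun j => ?_).2 h1'
      fin_cases j
      · exact eqF_symm (numN_act τ n _)
      · exact eqF_refl _ _
      · exact eqF_symm (hF τ hτF _)
    obtain ⟨q2, hq2, i1, hi1⟩ := psi_ex he (fs_mono _ (hq1.trans hq') h3)
    obtain ⟨x0, hx0⟩ := q2.2.2
    let V : Pc := rsP (A2 ∪ {i0}) B2 q2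
    have hAA2 : A ⊆ A2 := Finset.subset_union_right
    have hBB2 : B ⊆ B2 := Finset.subset_union_right
    have hSτ : SyF (A ∪ {i0}) (m + 1) B (act τ c.1) := sh_syF hγl hc
    have hV : FS QPsi V ![numH Pc GE i1, actN τ c, e, omH Pc GE, numH Pc GE n, F] :=
      res QPsi (A := A2 ∪ {i0}) (k := k2) (B := B2) (fun j => by
        fin_cases j
        · exact numH_sy _ _ _ _
        · exact hSτ.mono (Finset.union_subset_union hAA2 subset_rfl) (le_max_right _ _) hBB2
        · exact hSe2.mono Finset.subset_union_left le_rfl subset_rfl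
        · exact omH_sy _ _ _
        · exact numH_sy _ _ _ _
        · exact hF.mono (hAA2.trans Finset.subset_union_left)
            ((Nat.le_succ m).trans (le_max_right _ _)) hBB2) hi1
    have hx0V : x0 ∈ V.1 := sub_rs _ hx0
    -- a small translation
    obtain ⟨M, hM⟩ : ∃ M : ℕ, (Function.update x0.1 i0 (x0.1 i0 - s x0.1 / (M + 1 : ℝ)), x0.2)
        ∈ V.1 := by
      have hcont : Continuous fun t : ℝ => ((Function.update x0.1 i0 (x0.1 i0 - t), x0.2) : Om) := by
        refine Continuous.prodMk ?_ continuous_const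
        refine continuous_const.update i0 ?_
        exact continuous_const.sub continuous_id
      have h0 : (fun t : ℝ => ((Function.update x0.1 i0 (x0.1 i0 - t), x0.2) : Om)) 0 ∈ V.1 := by
        simp only [sub_zero, Function.update_eq_self]
        exact hx0V
      have hnh := hcont.continuousAt.preimage_mem_nhds (V.2.1.mem_nhds h0)
      have hlim : Filter.Tendsto (fun M : ℕ => s x0.1 / ((M : ℝ) + 1)) Filter.atTop (𝓝 0) := by
        have := (tendsto_one_div_add_atTop_nhds_zero_nat (𝕜 := ℝ)).const_mul (s x0.1)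
        rw [mul_zero] at this
        refine this.congr fun M => ?_
        rw [mul_one_div]
      obtain ⟨M, hM⟩ := (hlim.eventually hnh).exists
      exact ⟨M, hM⟩
    let s' : Cc → ℝ := fun c => s c / (M + 1 : ℝ)
    have hs' : Continuous s' := hs.div_const _
    have hFs' : LocF Fs s' := fun c c' e => by
      show s c / _ = s c' / _
      rw [hFs c c' e]
    let σ : GE := sg i0 s' hs' Fs hFs' hi0F
    have hx0σ : x0 ∈ (σ • V).1 := by
      show σ⁻¹ • x0 ∈ V.1
      rw [sg_inv_smul]
      exact hM
    have hσe : σ ∈ FixS A2 k2 B2 := sg_fix hi0A _ _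
    have hσc : σ ∈ FixS A (m + 1) B := sg_fix (fun h => hi0A (hAA2 h)) _ _
    have hσF : σ ∈ FixS A m B := sg_fix (fun h => hi0A (hAA2 h)) _ _
    -- the translated statement
    let γ' : Cc → ℝ := fun c => c i0 - s' c
    have hγ' : Continuous γ' := hγ.sub hs'
    have hγl' : LocF ({i0} ∪ Fs) γ' := fun c c' e => by
      show c i0 - s' c = c' i0 - s' c'
      rw [e i0 (by simp), hFs' c c' fun i hi => e i (by simp [hi])]
    let τ' : GE := sh m γ' hγ' ⟨_, hγl'⟩
    have hστ : σ * τ = τ' * σ := by
      refine GE.ext' rfl rfl ?_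
      funext j c'
      show (if j = m then c' i0 else 0) + 0 = 0 + (if j = m then
        (Function.update c' i0 (c' i0 + s' c')) i0
          - s' (Function.update c' i0 (c' i0 + s' c')) else 0)
      have e1 : s' (Function.update c' i0 (c' i0 + s' c')) = s' c' := hFs' _ _ fun i h => by
        rw [Function.update_of_ne (show i ≠ i0 from fun e => hi0F (e ▸ h))]
      by_cases hj : j = m
      · simp only [if_pos hj, Function.update_self, e1]; ring
      · simp only [if_neg hj]
    have hσV : FS QPsi (σ • V) ![numH Pc GE i1, actN τ' c, e, omH Pc GE, numH Pc GE n, F] := by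
      have h4 := psi_act (g := σ) (e' := e) (F' := F) (fun q => numN_act σ n q)
        (fun q => hF σ hσF q) (fun q => hSe2 σ hσe q) hV
      refine fs_congr QPsi (fun j => ?_) h4
      fin_cases j
      · exact eqF_refl _ _
      · show EqF (act σ (act τ c.1)) (act τ' c.1) _
        rw [← act_mul, hστ, act_mul]
        have h5 := hc σ hσc (τ'⁻¹ • (σ • V))
        rw [← eqF_act τ', smul_inv_smul] at h5
        exact h5
      · exact eqF_refl _ _
      · exact eqF_refl _ _
      · exact eqF_refl _ _
      · exact eqF_refl _ _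
    let VV : Pc := ⟨V.1 ∩ (σ • V).1, V.2.1.inter (σ • V).2.1, ⟨x0, hx0V, hx0σ⟩⟩
    have h5 : EqF (act τ c.1) (act τ' c.1) VV := psi_eq (c := actN τ c) (c' := actN τ' c)
      (fs_mono _ (show VV ≤ V from Set.inter_subset_left) hV)
      (fs_mono _ (show VV ≤ σ • V from Set.inter_subset_right) hσV)
    -- shift back
    let γn : Cc → ℝ := fun c => - c i0
    have hγn : Continuous γn := hγ.neg
    have hγnl : LocF {i0} γn := fun c c' e => by
      show - c i0 = - c' i0
      rw [e i0 (Finset.mem_singleton_self _)]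
    let τn : GE := sh m γn hγn ⟨_, hγnl⟩
    let sn : Cc → ℝ := fun c => - s' c
    have hsn : Continuous sn := hs'.neg
    have hsnl : LocF Fs sn := fun c c' e => by
      show - s' c = - s' c'
      rw [hFs' c c' e]
    let δ : GE := sh m sn hsn ⟨_, hsnl⟩
    have h6 : EqF c.1 (act δ c.1) (τn • VV) := by
      have h7 := (eqF_act τn _ _ _).2 h5
      rw [← act_mul, ← act_mul] at h7
      have e1 : τn * τ = 1 := by
        have : τn * τ = sh m (fun _ => 0) continuous_const ⟨∅, fun _ _ _ => rfl⟩ :=
          sh_mul (fun c' => by show (0 : ℝ) = - c' i0 + c' i0; ring)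
        rw [this]
        exact sh_zero fun _ => rfl
      have e2 : τn * τ' = δ := sh_mul (fun c' => by
        show - s' c' = - c' i0 + (c' i0 - s' c'); ring)
      rw [e1, e2, act_one] at h7
      exact h7
    let r0 : Pc := rsP (A ∪ Fs) B (τn • VV)
    have hr0 : Dep (A ∪ Fs) B r0.1 := dep_rs _
    have hSδ : SyF (A ∪ Fs) (m + 1) B (act δ c.1) := sh_syF hsnl hc
    have h8 : EqF c.1 (act δ c.1) r0 := res_eq (a := c) (b := actN δ c)
      (hc.mono Finset.subset_union_left le_rfl subset_rfl) hSδ h6
    have hx0r : x0 ∈ r0.1 := by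
      refine ⟨τn • x0, ?_, sh_ag hB x0⟩
      show τn⁻¹ • τn • x0 ∈ VV.1
      rw [inv_smul_smul]
      exact ⟨hx0V, hx0σ⟩
    -- iterate
    have h9 : ∀ (j : ℕ) (w : Cc → ℝ) (hw : Continuous w) (hlw : ∃ F, LocF F w),
        (∀ c', w c' = - ((j : ℝ) * s' c')) → EqF c.1 (act (sh m w hw hlw) c.1) r0 := by
      intro j
      induction j with
      | zero =>
        intro w hw hlw hwj
        rw [sh_zero (fun c' => by rw [hwj]; simp), act_one]
        exact eqF_refl _ _
      | succ j ih =>
        intro w hw hlw hwj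
        let w' : Cc → ℝ := fun c => - ((j : ℝ) * s' c)
        have hw' : Continuous w' := (continuous_const.mul hs').neg
        have hlw' : ∃ F, LocF F w' := ⟨Fs, fun c c' e => by
          show - ((j : ℝ) * s' c) = - ((j : ℝ) * s' c')
          rw [hFs' c c' e]⟩
        have h10 := ih w' hw' hlw' fun _ => rfl
        have h11 := eqF_mono ((eqF_act δ _ _ _).2 h10) (sh_le hB hr0 : r0 ≤ δ • r0)
        rw [← act_mul] at h11
        have e1 : δ * sh m w' hw' hlw' = sh m w hw hlw := sh_mul (fun c' => by
          rw [hwj]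
          show - (((j + 1 : ℕ) : ℝ) * s' c') = - s' c' + - ((j : ℝ) * s' c')
          push_cast
          ring)
        rw [e1] at h11
        exact eqF_trans h8 h11
    refine ⟨⟨q2.1 ∩ r0.1, q2.2.1.inter r0.2.1, ⟨x0, hx0, hx0r⟩⟩, ?_, ?_⟩
    · exact fun z hz => (hq2.trans hq1) hz.1
    · refine eqF_mono (h9 (M + 1) v hv hlv fun c' => ?_) Set.inter_subset_right
      rw [hvs]
      show - s c' = - (((M + 1 : ℕ) : ℝ) * (s c' / (M + 1 : ℝ)))
      push_cast
      have : (M : ℝ) + 1 ≠ 0 := by positivity
      field_simp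
  -- the orbit name
  refine ⟨⟨orbN (FixS A m B) c.1 b0, orbN_hr A m B hB c.2 b0⟩, orbN_sy A m B hB c.1 b0, ?_⟩
  refine eqF_mono (eqF_symm (orbN_eq fun g hg r hr _ => ?_)) (le_rsP A B q)
  -- decompose `g`
  obtain ⟨Fg, hFg⟩ := g.hloc
  obtain ⟨Fm, hFm⟩ := g.sloc m
  let u : Cc → ℝ := fun c => g.s m (g.h.symm c)
  have hu : Continuous u := (g.cont m).comp g.h.symm.continuous
  have hul : LocF (Fm ∪ Fg) u :=
    (hFm.mono Finset.subset_union_left).comp (hFg.mono Finset.subset_union_right).symm
  let un : Cc → ℝ := fun c => - u c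
  have hun : Continuous un := hu.neg
  have hunl : LocF (Fm ∪ Fg) un := fun c c' e => by
    show - u c = - u c'
    rw [hul c c' e]
  let g' : GE := sh m un hun ⟨_, hunl⟩ * g
  have hg' : g' ∈ FixS A (m + 1) B := by
    refine ⟨fun c' i hi => hg.1 c' i hi, fun n hn c' => ?_, fun b hb => hg.2.2 b hb⟩
    show g.s n c' + (if n = m then un (g.h c') else 0) = 0
    by_cases hnm : n = m
    · rw [if_pos hnm, hnm]
      show g.s m c' + - g.s m (g.h.symm (g.h c')) = 0
      rw [Homeomorph.symm_apply_apply]
      ring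
    · rw [if_neg hnm, hg.2.1 n (by omega), add_zero]
  have hgg : g = sh m u hu ⟨_, hul⟩ * g' := by
    show g = sh m u hu ⟨_, hul⟩ * (sh m un hun ⟨_, hunl⟩ * g)
    rw [← mul_assoc]
    have : sh m u hu ⟨_, hul⟩ * sh m un hun ⟨_, hunl⟩
        = sh m (fun _ => 0) continuous_const ⟨∅, fun _ _ _ => rfl⟩ :=
      sh_mul (fun c' => by show (0 : ℝ) = u c' + - u c'; ring)
    rw [this, sh_zero fun _ => rfl, one_mul]
  rw [hgg, act_mul]
  have h12 := hc g' hg' ((sh m u hu ⟨_, hul⟩)⁻¹ • r)
  rw [← eqF_act (sh m u hu ⟨_, hul⟩), smul_inv_smul] at h12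
  have h13 := claim un hun _ hunl u hu ⟨_, hul⟩ (fun c' => by show u c' = - - u c'; ring)
  exact eqF_trans h12 (eqF_symm (eqF_mono h13 hr))

end CU
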