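import Pool.Agent.H20.CU.Dat

/-!
Names of sets of natural numbers and of real numbers given by families of open sets; the
labels, the differences of the real coordinates, the set of all differences.
-/

set_option linter.unusedVariables false
set_option synthInstance.maxSize 100000

namespace CU

open SW CUR Topology

/-- the set of all `f t`, where `x ∈ U t` -/
def sN {ι : Type} (f : ι → ℕ) (U : ι → Set Om) (hU : ∀ t, IsOpen (U t)) : Nm Pc :=
  .mk {t : ι // (U t).Nonempty} (fun t => numN (f t.1)) (fun t => ⟨U t.1, hU t.1, t.2⟩)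

theorem memF_sN {ι : Type} {f : ι → ℕ} {U : ι → Set Om} {hU : ∀ t, IsOpen (U t)} (t : ι)
    {q : Pc} (h : q.1 ⊆ U t) : MemF (numN (f t)) (sN f U hU) q :=
  memF_intro (b := sN f U hU) ⟨t, q.2.2.mono h⟩ h

theorem act_sN {ι : Type} {f : ι → ℕ} {U U' : ι → Set Om} {hU : ∀ t, IsOpen (U t)}
    {hU' : ∀ t, IsOpen (U' t)} (g : GE) (h : ∀ t x, x ∈ U' t ↔ g⁻¹ • x ∈ U t) (p : Pc) :
    EqF (act g (sN f U hU)) (sN f U' hU') p := by
  refine eqF_ext (fun i q hq hc => ?_) (fun i q hq hc => ?_)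
  · obtain ⟨t, ht⟩ := i
    refine memF_congl (eqF_symm (numN_act g (f t) q)) (memF_sN t fun x hx => ?_)
    exact (h t x).2 (hc hx)
  · obtain ⟨t, ht⟩ := i
    refine memF_congl (numN_act g (f t) q) ?_
    have hne : (U t).Nonempty := by
      obtain ⟨x, hx⟩ := q.2.2
      exact ⟨_, (h t x).1 (hc hx)⟩
    exact el_act (a := sN f U hU) g ⟨t, hne⟩ (fun x hx => (h t x).1 (hc hx))

theorem sN_hr {ι : Type} {f : ι → ℕ} {U : ι → Set Om} {hU : ∀ t, IsOpen (U t)}
    {A : Finset ℕ} {k : ℕ} {B : Finset (ℕ × ℕ)} (hB : ∀ b ∈ B, b.1 < k)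
    (h : ∀ g ∈ FixS A k B, ∀ t x, x ∈ U t ↔ g⁻¹ • x ∈ U t) : HR GE (sN f U hU) := by
  refine ⟨⟨(⟨A, k, B, hB⟩ : Spp), fun g hg p => ?_⟩, fun t => numN_hr _⟩
  exact act_sN (hU := hU) (hU' := hU) g (h g hg) p

/-! ### real numbers -/

/-- the name of the real number `φ x` -/
noncomputable def rl (φ : Om → ℝ) (hφ : Continuous φ) : Nm Pc :=
  sN (ι := {p : ℕ × ℕ // qq p.1 < qq p.2}) (fun p => p.1.1) (fun p => {x | (qq p.1.2 : ℝ) < φ x})
    (fun p => isOpen_lt continuous_const hφ)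

theorem act_rl {φ ψ : Om → ℝ} {hφ : Continuous φ} {hψ : Continuous ψ} (g : GE)
    (h : ∀ x, ψ x = φ (g⁻¹ • x)) (p : Pc) : EqF (act g (rl φ hφ)) (rl ψ hψ) p :=
  act_sN g (fun t x => by
    show (qq t.1.2 : ℝ) < ψ x ↔ (qq t.1.2 : ℝ) < φ (g⁻¹ • x)
    rw [h]) p

theorem inv_smul_snd (g : GE) (x : Om) (b : ℕ × ℕ) :
    (g⁻¹ • x).2 b = ((x.2 (g.π b)).1 + g⁻¹.s b.1 x.1, (x.2 (g.π b)).2) := by
  rw [smul_snd, GE.inv_π, inv_inv]

/-- the real coordinate -/
def zf (b : ℕ × ℕ) (x : Om) : ℝ := (x.2 b).1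

theorem zf_cont (b : ℕ × ℕ) : Continuous (zf b) :=
  continuous_fst.comp ((continuous_apply b).comp continuous_snd)

theorem zf_inv (g : GE) (x : Om) (b : ℕ × ℕ) :
    zf b (g⁻¹ • x) = zf (g.π b) x + g⁻¹.s b.1 x.1 := by
  show ((g⁻¹ • x).2 b).1 = _
  rw [inv_smul_snd]
  rfl

/-- the name of the real coordinate -/
noncomputable def zH (b : ℕ × ℕ) : HNO := ⟨rl (zf b) (zf_cont b),
  sN_hr (A := ∅) (k := b.1 + 1) (B := {b}) (by simp) fun g hg t x => by
    show (qq t.1.2 : ℝ) < zf b x ↔ (qq t.1.2 : ℝ) < zf b (g⁻¹ • x)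
    have h1 : g.π b = b := hg.2.2 b (by simp)
    have h2 : g⁻¹.s b.1 x.1 = 0 := (inv_mem hg).2.1 _ (Nat.lt_succ_self _) _
    rw [zf_inv, h1, h2, add_zero]⟩

/-- the difference of the real coordinates, plus an integer -/
def df (b b' : ℕ × ℕ) (m : ℤ) (x : Om) : ℝ := zf b' x - zf b x + m

theorem df_cont (b b' : ℕ × ℕ) (m : ℤ) : Continuous (df b b' m) :=
  ((zf_cont b').sub (zf_cont b)).add continuous_const

theorem df_inv (g : GE) (x : Om) {b b' : ℕ × ℕ} (hb : b.1 = b'.1) (m : ℤ) :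
    df (g.π b) (g.π b') m x = df b b' m (g⁻¹ • x) := by
  unfold df
  rw [zf_inv, zf_inv, hb]
  ring

/-- the name of the difference -/
noncomputable def dH (b b' : ℕ × ℕ) (m : ℤ) (hb : b.1 = b'.1) : HNO := ⟨rl (df b b' m) (df_cont b b' m),
  sN_hr (A := ∅) (k := b.1 + 1) (B := {b, b'}) (by
      intro c hc
      rw [Finset.mem_insert, Finset.mem_singleton] at hc
      rcases hc with rfl | rfl
      · exact Nat.lt_succ_self _
      · rw [hb]; exact Nat.lt_succ_self _) fun g hg t x => by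
    show (qq t.1.2 : ℝ) < df b b' m x ↔ (qq t.1.2 : ℝ) < df b b' m (g⁻¹ • x)
    have h1 : g.π b = b := hg.2.2 b (by simp)
    have h2 : g.π b' = b' := hg.2.2 b' (by simp)
    rw [← df_inv g x hb, h1, h2]⟩

theorem dH_act (g : GE) {b b' : ℕ × ℕ} (m : ℤ) (hb : b.1 = b'.1) (hb' : (g.π b).1 = (g.π b').1)
    (p : Pc) : EqF (actN g (dH b b' m hb)).1 (dH (g.π b) (g.π b') m hb').1 p :=
  act_rl (hφ := df_cont b b' m) (hψ := df_cont (g.π b) (g.π b') m) g
    (fun x => df_inv g x hb m) p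

/-- the bits of the label -/
def yS (b : ℕ × ℕ) (i : ℕ) : Set Om := {x | (x.2 b).2 i = true}

theorem yS_cont (b : ℕ × ℕ) (i : ℕ) : Continuous (fun x : Om => (x.2 b).2 i) :=
  (continuous_apply i).comp (continuous_snd.comp ((continuous_apply b).comp continuous_snd))

theorem yS_open (b : ℕ × ℕ) (i : ℕ) : IsOpen (yS b i) :=
  (isOpen_discrete {true}).preimage (yS_cont b i)

/-- the name of the label -/
noncomputable def yH (b : ℕ × ℕ) : HNO := ⟨sN (ι := ℕ) id (yS b) (yS_open b),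
  sN_hr (A := ∅) (k := b.1 + 1) (B := {b}) (by simp) fun g hg t x => by
    show (x.2 b).2 t = true ↔ ((g⁻¹ • x).2 b).2 t = true
    have h1 : g.π b = b := hg.2.2 b (by simp)
    rw [inv_smul_snd, h1]⟩

theorem yH_act (g : GE) (b : ℕ × ℕ) (p : Pc) : EqF (actN g (yH b)).1 (yH (g.π b)).1 p :=
  act_sN (hU := yS_open b) (hU' := yS_open (g.π b)) g (fun t x => by
    show (x.2 (g.π b)).2 t = true ↔ ((g⁻¹ • x).2 b).2 t = true
    rw [inv_smul_snd]) p

/-- the indices of the members of the set of all differences -/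
abbrev DI : Type := {t : (ℕ × ℕ) × (ℕ × ℕ) × ℤ // t.1.1 = t.2.1.1}

/-- the members of the set of all differences -/
noncomputable def dm (t : DI) : HNO :=
  opN (numH Pc GE t.1.1.1) (opN (yH t.1.1) (opN (yH t.1.2.1) (dH t.1.1 t.1.2.1 t.1.2.2 t.2)))

theorem dm_act (g : GE) (t : DI) (p : Pc) : ∃ t' : DI, EqF (act g (dm t).1) (dm t').1 p := by
  obtain ⟨⟨b, b', m⟩, hb⟩ := t
  have hb' : (g.π b).1 = (g.π b').1 := by rw [g.blk, g.blk]; exact hb
  refine ⟨⟨(g.π b, g.π b', m), hb'⟩, ?_⟩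
  refine eqF_trans (opN_act g _ _ p) (opN_congr ?_ (eqF_trans (opN_act g _ _ p)
    (opN_congr (yH_act g b p) (eqF_trans (opN_act g _ _ p) (opN_congr (yH_act g b' p)
      (dH_act g m hb hb' p))))))
  show EqF (act g (numN b.1)) (numN (g.π b).1) p
  rw [g.blk]
  exact numN_act g _ p

/-- the name of the set of all differences -/
noncomputable def DH : HNO := ⟨famN (fun t : DI => (dm t).1),
  famN_hr (T := SymSys.S0 (P := Pc) (G := GE)) (fun t => (dm t).2) (famN_sy fun g hg t q => by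
    obtain ⟨t', ht'⟩ := dm_act g t q
    exact memF_congl (eqF_symm ht') (memF_famN (fun t : DI => (dm t).1) t' q))⟩

theorem DH_act (g : GE) (p : Pc) : EqF (act g DH.1) DH.1 p := by
  refine eqF_ext (fun i q hq hc => ?_) (fun i q hq hc => ?_)
  · obtain ⟨t', ht'⟩ := dm_act g i.1 q
    exact memF_congl (eqF_symm ht') (memF_famN (fun t : DI => (dm t).1) t' q)
  · obtain ⟨t', ht'⟩ := dm_act g⁻¹ i.1 (g⁻¹ • q)
    have h1 := (eqF_act g _ _ _).2 ht'
    rw [smul_inv_smul, ← act_mul, mul_inv_cancel, act_one] at h1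
    exact memF_congl (eqF_symm h1) (act_famN_mem (fun t : DI => (dm t).1) g t' q)

end CU
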