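import Pool.Agent.H35.SW.Sets

/-!
Names over a type of conditions, forced equality and membership, the action of a group,
hereditarily respected names, the forcing relation, the generic quotient.
-/

set_option linter.unusedVariables false
set_option synthInstance.maxSize 100000

namespace CU

open SW

/-- Names over the type `P` of conditions: a family of names with conditions. -/
inductive Nm (P : Type) : Type 1
  | mk (ι : Type) (x : ι → Nm P) (c : ι → P) : Nm P

namespace Nm

variable {P : Type}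

/-- the index type of a name -/
def I : Nm P → Type
  | .mk ι _ _ => ι

/-- the members of a name -/
def el : (a : Nm P) → a.I → Nm P
  | .mk _ x _ => x

/-- the conditions of a name -/
def cd : (a : Nm P) → a.I → P
  | .mk _ _ c => c

end Nm

section

variable {P : Type} [Preorder P]

/-- `p` forces `a = b` -/
def EqF : Nm P → Nm P → P → Prop
  | .mk ι x c, .mk κ y d, p =>
    (∀ i q, q ≤ p → q ≤ c i → ∃ r, r ≤ q ∧ ∃ j, r ≤ d j ∧ EqF (x i) (y j) r) ∧
    (∀ j q, q ≤ p → q ≤ d j → ∃ r, r ≤ q ∧ ∃ i, r ≤ c i ∧ EqF (x i) (y j) r)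

/-- `p` forces `a ∈ b` -/
def MemF (a b : Nm P) (p : P) : Prop :=
  ∀ q, q ≤ p → ∃ r, r ≤ q ∧ ∃ j : b.I, r ≤ b.cd j ∧ EqF a (b.el j) r

theorem EqF_iff {a b : Nm P} {p : P} : EqF a b p ↔
    (∀ (i : a.I) q, q ≤ p → q ≤ a.cd i → ∃ r, r ≤ q ∧ ∃ j : b.I, r ≤ b.cd j ∧
      EqF (a.el i) (b.el j) r) ∧
    (∀ (j : b.I) q, q ≤ p → q ≤ b.cd j → ∃ r, r ≤ q ∧ ∃ i : a.I, r ≤ a.cd i ∧
      EqF (a.el i) (b.el j) r) := by
  obtain ⟨ι, x, c⟩ := a
  obtain ⟨κ, y, d⟩ := b
  simp only [EqF]
  exact Iff.rfl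

/-- A symmetric system: a group of automorphisms of the conditions and a family of subgroups
`Fix S` indexed by the supports `S`, directed downwards and closed under conjugation. -/
class SymSys (P : Type) [Preorder P] (G : Type) [Group G] [MulAction G P] where
  mono : ∀ (g : G) {p q : P}, p ≤ q → g • p ≤ g • q
  /-- the supports -/
  Sp : Type
  /-- the subgroup of a support -/
  Fix : Sp → Subgroup G
  S0 : Sp
  dir : ∀ S T : Sp, ∃ U, ∀ g ∈ Fix U, g ∈ Fix S ∧ g ∈ Fix T
  normal : ∀ (S : Sp) (g : G), ∃ T, ∀ f ∈ Fix T, g⁻¹ * f * g ∈ Fix S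

end

section

variable {P : Type} [Preorder P] {G : Type} [Group G] [MulAction G P]

/-- the action on names -/
def act (g : G) : Nm P → Nm P
  | .mk ι x c => .mk ι (fun i => act g (x i)) (fun i => g • c i)

variable [H : SymSys P G]

/-- the name `a` has the support `S`: all elements of `Fix S` respect it (up to forced equality) -/
def Sy (S : SymSys.Sp P G) (a : Nm P) : Prop :=
  ∀ g ∈ SymSys.Fix (P := P) (G := G) S, ∀ p : P, EqF (act g a) a p

variable (G) in
/-- hereditarily respected names -/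
def HR : Nm P → Prop
  | .mk ι x c => (∃ S : SymSys.Sp P G, Sy S (.mk ι x c)) ∧ ∀ i, HR (x i)

variable (P G) in
/-- the type of hereditarily respected names -/
def HN : Type 1 := {a : Nm P // HR G a}

/-- the forcing relation -/
def Frc : {n : ℕ} → Fml n → P → (Fin n → HN P G) → Prop
  | _, .mem i j, p, v => MemF (v i).1 (v j).1 p
  | _, .eq i j, p, v => EqF (v i).1 (v j).1 p
  | _, .bot, _, _ => False
  | _, .imp f g, p, v => ∀ q, q ≤ p → Frc f q v → Frc g q v
  | _, .all f, p, v => ∀ x : HN P G, Frc f p (Fin.cons x v)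

/-- A generic sequence of names and conditions: `c` is a decreasing sequence of conditions which
decides all formulas about the names `ν i`, with witnesses among these names; members of names
are witnessed by the members of the family defining the name. -/
structure Gn (ν : ℕ → HN P G) (c : ℕ → P) : Prop where
  anti : ∀ k, c (k + 1) ≤ c k
  dec : ∀ {n : ℕ} (f : Fml n) (v : Fin n → ℕ), ∃ k, Frc f (c k) (fun i => ν (v i)) ∨
    ∀ q, q ≤ c k → ¬ Frc f q (fun i => ν (v i))
  wit : ∀ {n : ℕ} (f : Fml (n + 1)) (v : Fin n → ℕ) (k : ℕ),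
    (∀ q, q ≤ c k → ¬ Frc (.all f) q (fun i => ν (v i))) →
      ∃ j l, ∀ q, q ≤ c l → ¬ Frc f q (Fin.cons (ν j) (fun i => ν (v i)))
  chi : ∀ a b k, MemF (ν a).1 (ν b).1 (c k) → ∃ (m l : ℕ) (j : (ν b).1.I),
    (ν b).1.el j = (ν m).1 ∧ c l ≤ (ν b).1.cd j ∧ EqF (ν a).1 (ν m).1 (c l)

/-- the generic quotient -/
def GQ (ν : ℕ → HN P G) (c : ℕ → P) : Type :=
  Quot (fun i j : ℕ => ∃ k, EqF (ν i).1 (ν j).1 (c k))

/-- the class of the name `ν i` -/
def qc (ν : ℕ → HN P G) (c : ℕ → P) (i : ℕ) : GQ ν c := Quot.mk _ i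

instance (ν : ℕ → HN P G) (c : ℕ → P) : SetStr (GQ ν c) where
  mem x y := ∃ i j, qc ν c i = x ∧ qc ν c j = y ∧ ∃ k, MemF (ν i).1 (ν j).1 (c k)

/-- forced statements, semantically: `R` holds in all generic quotients with a condition below
`p` in the generic sequence -/
def FS {n : ℕ} (R : ∀ (N : Type) [SetStr N], (Fin n → N) → Prop) (p : P)
    (v : Fin n → HN P G) : Prop :=
  ∀ (ν : ℕ → HN P G) (c : ℕ → P), Gn ν c → (∃ k, c k ≤ p) → ∀ w : Fin n → ℕ,
    (∀ i, ν (w i) = v i) → R (GQ ν c) (fun i => qc ν c (w i))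

end

end CU
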