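import Pool.Agent.H20.CU.Ev2

/-!
There is no choice function for the circles; the model.
-/

set_option linter.unusedVariables false
set_option synthInstance.maxSize 100000

namespace CU

open SW CUR Topology Filter

/-- A condition is compatible with its translate by a half turn of the block `k`, combined with
a permutation which moves a given atom of the block. -/
theorem exists_half (A : Finset ℕ) (k : ℕ) (B : Finset (ℕ × ℕ)) (hB : ∀ b ∈ B, b.1 < k) (U : Pc)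
    (b0 : ℕ × ℕ) (hb0 : b0.1 = k) : ∃ g ∈ FixS A k B, g.π b0 ≠ b0 ∧
      (∀ x, zf b0 (g⁻¹ • x) = zf (g.π b0) x - 1 / 2) ∧ ∃ w ∈ U.1, g⁻¹ • w ∈ U.1 := by
  classical
  obtain ⟨x0, hx0⟩ := U.2.2
  let s : GE := sh k (fun _ => 1 / 2) continuous_const ⟨∅, fun _ _ _ => rfl⟩
  let V : Set Om := (fun x => s • x) ⁻¹' U.1
  have hV : IsOpen V := U.2.1.preimage (continuous_smul' s)
  have hx : s⁻¹ • x0 ∈ V := by
    show s • s⁻¹ • x0 ∈ U.1
    rw [smul_inv_smul]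
    exact hx0
  obtain ⟨a1, b1, O, W, hO, hW, h1, h2⟩ := exists_box U.2.1 hx0
  obtain ⟨a2, b2, O', W', hO', hW', h3, h4⟩ := exists_box hV hx
  obtain ⟨g, hg⟩ := exists_mv A a1 a2 B (insert b0 b1) b2
  obtain ⟨θ, t1, t2, t3, t4, t5⟩ := hg.h_eq
  obtain ⟨w, hw1, hw2⟩ := hom_mv hg t1 t2 t3 t4 (subset_rfl : a1 ⊆ a1)
    (Finset.subset_insert b0 b1) (Finset.subset_union_right : a2 ⊆ a1 ∪ a2)
    (Finset.subset_union_right : b2 ⊆ insert b0 b1 ∪ b2) h3 h1 (sh_ag' hB x0).symm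
  have hb0B : b0 ∉ B := fun h => (hB b0 h).ne hb0
  refine ⟨s * g, mul_mem (sh_fix A B) (hg.fix k), ?_, fun x => ?_, s • w, h4 hw1, ?_⟩
  · intro h
    have h5 : (s * g).π b0 = g.π b0 := rfl
    rw [h5] at h
    have h6 := (hg.π_new b0 (Finset.mem_insert_self _ _) hb0B).1
    rw [h] at h6
    exact h6 (Finset.mem_insert_self _ _)
  · rw [zf_inv]
    have h5 : (s * g)⁻¹.s b0.1 x.1 = -(1 / 2) := by
      rw [GE.inv_s]
      congr 1
      rw [GE.mul_s, hg.s_zero]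
      show (0 : ℝ) + (if b0.1 = k then 1 / 2 else 0) = 1 / 2
      rw [if_pos hb0, zero_add]
    rw [h5]
    ring
  · rw [mul_inv_rev, mul_smul, inv_smul_smul]
    exact h2 hw2

/-- `w = (h, n, y, a, a', ω, lt, ad, D)`: the value of `h` at `n` is a point of the circle number
`n` whose coordinate with respect to the label `y` is between `a` and `a'`. -/
def QH : ∀ (N : Type) [SetStr N], (Fin 9 → N) → Prop := fun N _ w =>
  ∃ G x, FunAt (w 0) (w 1) G ∧ PtU (w 6) (w 7) (w 5) (w 8) (w 1) G ∧ PairIn (w 2) x G ∧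
    E (w 3) x ∧ ¬ E (w 4) x

instance : UDf QH := by
  unfold QH PtU MemP; infer_instance

/-- the facts about the circles in a generic quotient -/
structure CF (ν : ℕ → HNO) (c : ℕ → Pc) [ZF (GQ ν c)] (cd : Codes (GQ ν c))
    (y : ℕ × ℕ → GQ ν c) (z : ℕ × ℕ → ℝ) (D : GQ ν c) : Prop where
  H : Circ cd y z D
  lim : ∀ b, Tendsto (zf b) (gF c) (𝓝 (z b))
  hy : ∀ m b, ν m = yH b → qc ν c m = y b
  hD : ∀ m, ν m = DH → qc ν c m = D
  hlt : ∀ m, ν m = ltH → qc ν c m = cd.lt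
  had : ∀ m, ν m = adH → qc ν c m = cd.ad
  num : ∀ m n, ν m = numH Pc GE n → qc ν c m = nu n
  hom : ∀ m, ν m = omH Pc GE → qc ν c m = om

theorem exists_CF {ν : ℕ → HNO} {c : ℕ → Pc} (hg : Gn ν c) [ZF (GQ ν c)] (hR : Rch ν) :
    ∃ cd y z D, CF ν c cd y z D := by
  obtain ⟨cd, y, z, D, h1, h2, h3, h4, h5, h6, h7, h8⟩ := circ_of hg hR
  exact ⟨cd, y, z, D, h1, h2, h3, h4, h5, h6, h7, h8⟩

/-- the coordinate of a point -/
theorem qh_val {ν : ℕ → HNO} {c : ℕ → Pc} [ZF (GQ ν c)] {cd : Codes (GQ ν c)}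
    {y : ℕ × ℕ → GQ ν c} {z : ℕ × ℕ → ℝ} {D : GQ ν c} (F : CF ν c cd y z D)
    {n : ℕ} {b : ℕ × ℕ} (hb : b.1 = n) {θ : T} {G x : GQ ν c} (hG : KK y z n θ G)
    (hx : PairIn (y b) x G) {a a' : ℕ} (h1 : E (nu a) x) (h2 : ¬ E (nu a') x) :
    ∃ r : ℝ, (r : T) = θ - ((z b : ℝ) : T) ∧ (qq a : ℝ) < r ∧ r ≤ qq a' := by
  rw [pairIn_iff] at hx
  obtain ⟨β, w, r, e1, e2, e3⟩ := (hG.2 _).1 hx
  rw [opair_inj] at e1
  obtain ⟨e4, rfl⟩ := e1
  obtain ⟨n', β'⟩ := b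
  have hn : n' = n := hb
  subst hn
  obtain rfl := F.H.inj _ _ _ e4
  refine ⟨r, e3, (e2.2 a).1 h1, ?_⟩
  by_contra hcon
  push Not at hcon
  exact h2 ((e2.2 a').2 hcon)

theorem no_choice (R2 : R2Stmt) {ν : ℕ → HNO} {c : ℕ → Pc} (hg : Gn ν c) [ZF (GQ ν c)]
    (hR : Rch ν) {cd : Codes (GQ ν c)} {y : ℕ × ℕ → GQ ν c} {z : ℕ × ℕ → ℝ} {D : GQ ν c}
    (F : CF ν c cd y z D) :
    ¬ ∃ h : GQ ν c, ∀ n, ∃ G, FunAt h (nu n) G ∧ ∃ θ, KK y z n θ G := by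
  rintro ⟨h, hh⟩
  obtain ⟨m0, rfl⟩ := gn_surj h
  obtain ⟨A, k, B, hB, hS⟩ := exists_syF (ν m0)
  obtain ⟨G, hG1, θ, hG2⟩ := hh k
  obtain ⟨u0, hu0⟩ := hG2.1
  obtain ⟨β, w, r, rfl, e2, e3⟩ := (hG2.2 _).1 hu0
  obtain ⟨q1, hq1, hq1'⟩ := exists_rat_btwn (show r - 1 / 16 < r by linarith)
  obtain ⟨q2, hq2, hq2'⟩ := exists_rat_btwn (show r < r + 1 / 16 by linarith)
  obtain ⟨a, rfl⟩ := qq_surj q1
  obtain ⟨a', rfl⟩ := qq_surj q2
  let b0 : ℕ × ℕ := (k, β)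
  obtain ⟨η, hη⟩ := exists_etN
  have hmem : ∀ a ∈ NS, ∃ j, η j = a := fun a ha => by
    rw [hη] at ha
    exact ha
  -- indices
  have n1 : ∀ n, numH Pc GE n ∈ NS := fun n =>
    Or.inl (Or.inl (Or.inl (Or.inl (Or.inl (Or.inl (Or.inl (Or.inr ⟨n, rfl⟩)))))))
  have n2 : ∀ x ∈ ({omH Pc GE, ltH, adH, DH} : Set HNO), x ∈ NS := fun x hx =>
    Or.inl (Or.inl (Or.inl (Or.inl (Or.inl (Or.inl (Or.inr hx))))))
  have n3 : ∀ b, yH b ∈ NS := fun b =>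
    Or.inl (Or.inl (Or.inl (Or.inl (Or.inl (Or.inr ⟨b, rfl⟩)))))
  obtain ⟨jk, hjk⟩ := hR _ (n1 k)
  obtain ⟨ja, hja⟩ := hR _ (n1 a)
  obtain ⟨ja', hja'⟩ := hR _ (n1 a')
  obtain ⟨jo, hjo⟩ := hR _ (n2 (omH Pc GE) (by simp))
  obtain ⟨jl, hjl⟩ := hR _ (n2 ltH (by simp))
  obtain ⟨jd, hjd⟩ := hR _ (n2 adH (by simp))
  obtain ⟨jD, hjD⟩ := hR _ (n2 DH (by simp))
  obtain ⟨jy, hjy⟩ := hR _ (n3 b0)
  have hR1 := cur_r1 (GQ ν c) cd
  have hinj : ∀ m n, (nu m : GQ ν c) = nu n → m = n := fun m n h => nu_inj h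
  have hQ : QH (GQ ν c) (fun i => qc ν c (![m0, jk, jy, ja, ja', jo, jl, jd, jD] i)) := by
    refine ⟨G, w, ?_, ?_, ?_, ?_, ?_⟩
    · show FunAt (qc ν c m0) (qc ν c jk) G
      rw [F.num _ _ hjk]
      exact hG1
    · show PtU (qc ν c jl) (qc ν c jd) (qc ν c jo) (qc ν c jD) (qc ν c jk) G
      rw [F.hlt _ hjl, F.had _ hjd, F.hom _ hjo, F.hD _ hjD, F.num _ _ hjk]
      rw [ptU_iff hinj hR1 (R2 _ cd) F.H]
      exact ⟨θ, hG2⟩
    · show PairIn (qc ν c jy) w G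
      rw [F.hy _ _ hjy, pairIn_iff]
      exact hu0
    · show E (qc ν c ja) w
      rw [F.num _ _ hja]
      exact (e2.2 a).2 hq1'
    · show ¬ E (qc ν c ja') w
      rw [F.num _ _ hja', e2.2]
      exact not_lt.2 hq2.le
  obtain ⟨l, hl⟩ := (fs_truth QH ν c hg _).1 hQ
  obtain ⟨x0, hx0⟩ := (c l).2.2
  have ho : IsOpen {x : Om | |zf b0 x - zf b0 x0| < 1 / 16} :=
    isOpen_lt ((zf_cont b0).sub continuous_const).abs continuous_const
  let q : Pc := ⟨(c l).1 ∩ {x | |zf b0 x - zf b0 x0| < 1 / 16}, (c l).2.1.inter ho,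
    ⟨x0, hx0, by show |zf b0 x0 - zf b0 x0| < 1 / 16; rw [sub_self, abs_zero]; norm_num⟩⟩
  have hql : q ≤ c l := fun x hx => hx.1
  obtain ⟨g, hgF, hπ, hz, w0, hw1, hw2⟩ := exists_half A k B hB q b0 rfl
  have f1 : FS QH q ![ν m0, numH Pc GE k, yH b0, numH Pc GE a, numH Pc GE a', omH Pc GE, ltH,
      adH, DH] := by
    have h1 := fs_mono QH hql hl
    refine fs_congr QH (fun i => ?_) h1
    fin_cases i
    · exact eqF_refl _ _
    · show EqF (ν jk).1 _ _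
      rw [hjk]; exact eqF_refl _ _
    · show EqF (ν jy).1 _ _
      rw [hjy]; exact eqF_refl _ _
    · show EqF (ν ja).1 _ _
      rw [hja]; exact eqF_refl _ _
    · show EqF (ν ja').1 _ _
      rw [hja']; exact eqF_refl _ _
    · show EqF (ν jo).1 _ _
      rw [hjo]; exact eqF_refl _ _
    · show EqF (ν jl).1 _ _
      rw [hjl]; exact eqF_refl _ _
    · show EqF (ν jd).1 _ _
      rw [hjd]; exact eqF_refl _ _
    · show EqF (ν jD).1 _ _
      rw [hjD]; exact eqF_refl _ _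
  have f2 : FS QH (g • q) ![ν m0, numH Pc GE k, yH (g.π b0), numH Pc GE a, numH Pc GE a',
      omH Pc GE, ltH, adH, DH] := by
    refine (fs_symm QH g (v := ![ν m0, numH Pc GE k, yH b0, numH Pc GE a, numH Pc GE a',
      omH Pc GE, ltH, adH, DH]) fun i => ?_).2 f1
    fin_cases i
    · exact eqF_symm (hS g hgF _)
    · exact eqF_symm (numN_act g k _)
    · exact eqF_symm (yH_act g b0 _)
    · exact eqF_symm (numN_act g a _)
    · exact eqF_symm (numN_act g a' _)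
    · exact eqF_symm (omH_act g _)
    · exact eqF_symm (codes_spec.1 g _)
    · exact eqF_symm (codes_spec.2.1 g _)
    · exact eqF_symm (DH_act g _)
  let r0 : Pc := ⟨q.1 ∩ (g • q).1, q.2.1.inter (g • q).2.1, ⟨w0, hw1, hw2⟩⟩
  obtain ⟨ν', c', hg', hc', hν'⟩ := genExists Pc GE r0 (fun i => if i = 0 then ν m0 else η (i - 1))
  have hR' : Rch ν' := fun a ha => by
    obtain ⟨j, hj⟩ := hmem a ha
    obtain ⟨i, hi⟩ := hν' (j + 1)
    refine ⟨i, ?_⟩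
    rw [hi, if_neg (by omega), Nat.add_sub_cancel]
    exact hj
  obtain ⟨m', hm'⟩ := hν' 0
  rw [if_pos rfl] at hm'
  have _ : ZF (GQ ν' c') := gn_zf hg'
  obtain ⟨cd', y', z', D', F'⟩ := exists_CF hg' hR'
  obtain ⟨jk', hjk'⟩ := hR' _ (n1 k)
  obtain ⟨ia, hia⟩ := hR' _ (n1 a)
  obtain ⟨ia', hia'⟩ := hR' _ (n1 a')
  obtain ⟨io, hio⟩ := hR' _ (n2 (omH Pc GE) (by simp))
  obtain ⟨il, hil⟩ := hR' _ (n2 ltH (by simp))
  obtain ⟨id', hid⟩ := hR' _ (n2 adH (by simp))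
  obtain ⟨iD, hiD⟩ := hR' _ (n2 DH (by simp))
  obtain ⟨iy, hiy⟩ := hR' _ (n3 b0)
  obtain ⟨iy', hiy'⟩ := hR' _ (n3 (g.π b0))
  have k1 := f1 ν' c' hg' ⟨0, hc'.trans (show r0 ≤ q from fun x hx => hx.1)⟩
    ![m', jk', iy, ia, ia', io, il, id', iD] (fun i => by
      fin_cases i
      · exact hm'
      · exact hjk'
      · exact hiy
      · exact hia
      · exact hia'
      · exact hio
      · exact hil
      · exact hid
      · exact hiD)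
  have k2 := f2 ν' c' hg' ⟨0, hc'.trans (show r0 ≤ g • q from fun x hx => hx.2)⟩
    ![m', jk', iy', ia, ia', io, il, id', iD] (fun i => by
      fin_cases i
      · exact hm'
      · exact hjk'
      · exact hiy'
      · exact hia
      · exact hia'
      · exact hio
      · exact hil
      · exact hid
      · exact hiD)
  have hR1' := cur_r1 (GQ ν' c') cd'
  have hinj' : ∀ m n, (nu m : GQ ν' c') = nu n → m = n := fun m n h => nu_inj h
  obtain ⟨G1, x1, p1, p2, p3, p4, p5⟩ := k1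
  obtain ⟨G2, x2, s1, s2, s3, s4, s5⟩ := k2
  have hGG : G2 = G1 := p1.2 G2 s1.1
  have p2' : PtU (qc ν' c' il) (qc ν' c' id') (qc ν' c' io) (qc ν' c' iD) (qc ν' c' jk') G1 := p2
  have p3' : PairIn (qc ν' c' iy) x1 G1 := p3
  have p4' : E (qc ν' c' ia) x1 := p4
  have p5' : ¬ E (qc ν' c' ia') x1 := p5
  have s3' : PairIn (qc ν' c' iy') x2 G2 := s3
  have s4' : E (qc ν' c' ia) x2 := s4
  have s5' : ¬ E (qc ν' c' ia') x2 := s5
  rw [F'.hlt _ hil, F'.had _ hid, F'.hom _ hio, F'.hD _ hiD, F'.num _ _ hjk',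
    ptU_iff hinj' hR1' (R2 _ cd') F'.H] at p2'
  obtain ⟨θ', hθ'⟩ := p2'
  rw [F'.hy _ _ hiy] at p3'
  rw [F'.hy _ _ hiy', hGG] at s3'
  rw [F'.num _ _ hia] at p4' s4'
  rw [F'.num _ _ hia'] at p5' s5'
  obtain ⟨r1, v1, v2, v3⟩ := qh_val F' (b := b0) rfl hθ' p3' p4' p5'
  obtain ⟨r2, v4, v5, v6⟩ := qh_val F' (b := g.π b0) (g.blk b0) hθ' s3' s4' s5'
  have := gF_neBot hg'.anti
  -- the values of the real coordinates
  have z1 : |z' b0 - zf b0 x0| ≤ 1 / 16 := by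
    refine le_of_tendsto ((F'.lim b0).sub_const (zf b0 x0)).abs ?_
    rw [gF_ev hg'.anti]
    exact ⟨0, fun x hx => (show |zf b0 x - zf b0 x0| < 1 / 16 from (hc' hx).1.2).le⟩
  have z2 : |z' (g.π b0) - 1 / 2 - zf b0 x0| ≤ 1 / 16 := by
    refine le_of_tendsto (((F'.lim (g.π b0)).sub_const (1 / 2)).sub_const (zf b0 x0)).abs ?_
    rw [gF_ev hg'.anti]
    refine ⟨0, fun x hx => ?_⟩
    have h1 : g⁻¹ • x ∈ q.1 := (hc' hx).2
    have h2 : |zf b0 (g⁻¹ • x) - zf b0 x0| < 1 / 16 := h1.2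
    rw [hz] at h2
    exact h2.le
  have h3 : ((r1 - r2 : ℝ) : T) = ((z' (g.π b0) - z' b0 : ℝ) : T) := by
    rw [AddCircle.coe_sub, AddCircle.coe_sub, v1, v4]
    abel
  obtain ⟨m, hm⟩ := circle_int h3
  rw [abs_le] at z1 z2
  have h4 : (m : ℝ) < 0 := by linarith
  have h5 : (-1 : ℝ) < m := by linarith
  have h6 : m < 0 := by exact_mod_cast h4
  have h7 : -1 < m := by exact_mod_cast h5
  omega

/-- the model -/
theorem mod_of (R2 : R2Stmt) : MODStmt := by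
  obtain ⟨η, hη⟩ := exists_etN
  let x0 : Om := ((fun _ => 0), fun _ => (0, fun _ => false))
  obtain ⟨ν, c, hg, _, hν⟩ := genExists Pc GE ⟨Set.univ, isOpen_univ, ⟨x0, trivial⟩⟩ η
  have hR : Rch ν := fun a ha => by
    rw [hη] at ha
    obtain ⟨j, rfl⟩ := ha
    exact hν j
  have hzf : ZF (GQ ν c) := gn_zf hg
  obtain ⟨cd, y, z, D, F⟩ := exists_CF hg hR
  obtain ⟨o, ho⟩ := hR (omH Pc GE) (Or.inl (Or.inl (Or.inl (Or.inl (Or.inl (Or.inl
    (Or.inr (by simp))))))))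
  refine ⟨GQ ν c, inferInstance, hzf, cd, inferInstance, gn_wf hg, ?_, ?_⟩
  · exact gn_cuc (fun N _ _ w => isOm_iff w) hg ho (F.hom o ho)
  · exact dataN nu_mem_om (fun m n h => nu_inj h) (cur_r1 _ cd) (R2 _ cd) F.H
      (no_choice R2 hg hR F)

end CU
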