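import Mathlib
import Pool.Agent.H20.CU.Names

/-!
The space of the Cohen reals, the group of its automorphisms, the symmetric system.
-/

set_option linter.unusedVariables false

namespace CU

open Topology

/-- the real coordinates -/
abbrev Cc : Type := ℕ → ℝ

/-- the data of the atoms: a real and a label -/
abbrev At : Type := ℕ × ℕ → ℝ × (ℕ → Bool)

/-- the space -/
abbrev Om : Type := Cc × At

/-- agreement on a finite set of coordinates -/
def AgC (F : Finset ℕ) (c c' : Cc) : Prop := ∀ i ∈ F, c i = c' i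

/-- a homeomorphism which changes only the coordinates in `F`, depending only on the
coordinates in `F` -/
def LocH (F : Finset ℕ) (h : Cc ≃ₜ Cc) : Prop :=
  (∀ c, ∀ i ∉ F, h c i = c i) ∧ (∀ c c', AgC F c c' → AgC F (h c) (h c')) ∧
  (∀ c, ∀ i ∉ F, h.symm c i = c i) ∧ (∀ c c', AgC F c c' → AgC F (h.symm c) (h.symm c'))

/-- a function depending only on the coordinates in `F` -/
def LocF (F : Finset ℕ) (s : Cc → ℝ) : Prop := ∀ c c', AgC F c c' → s c = s c'

theorem perm_inv_r {α : Type} (π : Equiv.Perm α) (b : α) : π (π⁻¹ b) = b :=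
  Equiv.apply_symm_apply π b

theorem perm_inv_l {α : Type} (π : Equiv.Perm α) (b : α) : π⁻¹ (π b) = b :=
  Equiv.symm_apply_apply π b

/-- the elements of the group -/
structure GE where
  /-- the homeomorphism of the real coordinates -/
  h : Cc ≃ₜ Cc
  /-- the permutation of the atoms -/
  π : Equiv.Perm (ℕ × ℕ)
  /-- the shifts of the blocks -/
  s : ℕ → Cc → ℝ
  hloc : ∃ F, LocH F h
  blk : ∀ b, (π b).1 = b.1
  fin : {b | π b ≠ b}.Finite
  cont : ∀ n, Continuous (s n)
  sloc : ∀ n, ∃ F, LocF F (s n)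

theorem LocH.mono {F F' : Finset ℕ} {h : Cc ≃ₜ Cc} (H : LocH F h) (hF : F ⊆ F') : LocH F' h := by
  refine ⟨fun c i hi => H.1 c i fun h' => hi (hF h'), fun c c' hc i hi => ?_,
    fun c i hi => H.2.2.1 c i fun h' => hi (hF h'), fun c c' hc i hi => ?_⟩
  · by_cases h1 : i ∈ F
    · exact H.2.1 c c' (fun j hj => hc j (hF hj)) i h1
    · rw [H.1 c i h1, H.1 c' i h1]
      exact hc i hi
  · by_cases h1 : i ∈ F
    · exact H.2.2.2 c c' (fun j hj => hc j (hF hj)) i h1
    · rw [H.2.2.1 c i h1, H.2.2.1 c' i h1]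
      exact hc i hi

theorem LocH.symm {F : Finset ℕ} {h : Cc ≃ₜ Cc} (H : LocH F h) : LocH F h.symm :=
  ⟨H.2.2.1, H.2.2.2, H.1, H.2.1⟩

theorem LocH.trans {F : Finset ℕ} {h h' : Cc ≃ₜ Cc} (H : LocH F h) (H' : LocH F h') :
    LocH F (h.trans h') :=
  ⟨fun c i hi => by
      show h' (h c) i = c i
      rw [H'.1 _ i hi, H.1 _ i hi],
    fun c c' hc => H'.2.1 _ _ (H.2.1 _ _ hc),
    fun c i hi => by
      show h.symm (h'.symm c) i = c i
      rw [H.2.2.1 _ i hi, H'.2.2.1 _ i hi],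
    fun c c' hc => H.2.2.2 _ _ (H'.2.2.2 _ _ hc)⟩

theorem locH_refl (F : Finset ℕ) : LocH F (Homeomorph.refl Cc) :=
  ⟨fun c i hi => rfl, fun c c' hc => hc, fun c i hi => rfl, fun c c' hc => hc⟩

theorem LocF.mono {F F' : Finset ℕ} {s : Cc → ℝ} (H : LocF F s) (hF : F ⊆ F') : LocF F' s :=
  fun c c' hc => H c c' fun i hi => hc i (hF hi)

theorem LocF.comp {F : Finset ℕ} {s : Cc → ℝ} {h : Cc ≃ₜ Cc} (H : LocF F s) (H' : LocH F h) :
    LocF F (fun c => s (h c)) := fun c c' hc => H _ _ (H'.2.1 _ _ hc)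

@[ext]
theorem GE.ext' {g g' : GE} (h1 : g.h = g'.h) (h2 : g.π = g'.π) (h3 : g.s = g'.s) : g = g' := by
  cases g
  cases g'
  simp only at h1 h2 h3
  subst h1 h2 h3
  rfl

noncomputable instance : Mul GE where
  mul g g' :=
    { h := g'.h.trans g.h
      π := g.π * g'.π
      s := fun n c => g'.s n c + g.s n (g'.h c)
      hloc := by
        obtain ⟨F, hF⟩ := g.hloc
        obtain ⟨F', hF'⟩ := g'.hloc
        exact ⟨F ∪ F', (hF'.mono Finset.subset_union_right).trans
          (hF.mono Finset.subset_union_left)⟩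
      blk := fun b => by
        rw [Equiv.Perm.mul_apply, g.blk, g'.blk]
      fin := by
        refine (g.fin.union g'.fin).subset fun b hb => ?_
        by_contra hcon
        have h1 : g.π b = b := by
          by_contra h
          exact hcon (Or.inl h)
        have h2 : g'.π b = b := by
          by_contra h
          exact hcon (Or.inr h)
        exact hb (by rw [Equiv.Perm.mul_apply, h2, h1])
      cont := fun n => (g'.cont n).add ((g.cont n).comp g'.h.continuous)
      sloc := fun n => by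
        obtain ⟨F, hF⟩ := g.sloc n
        obtain ⟨F', hF'⟩ := g'.sloc n
        obtain ⟨F'', hF''⟩ := g'.hloc
        refine ⟨F ∪ F' ∪ F'', fun c c' hc => ?_⟩
        have h1 := (hF'.mono (F' := F ∪ F' ∪ F'') (fun i hi => by simp [hi])) c c' hc
        have h2 := ((hF.mono (F' := F ∪ F' ∪ F'') (fun i hi => by simp [hi])).comp
          (hF''.mono (F' := F ∪ F' ∪ F'') (fun i hi => by simp [hi]))) c c' hc
        simp only at h2 ⊢
        rw [h1, h2] }

noncomputable instance : One GE where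
  one :=
    { h := Homeomorph.refl _
      π := 1
      s := fun _ _ => 0
      hloc := ⟨∅, locH_refl _⟩
      blk := fun b => rfl
      fin := by
        convert Set.finite_empty
        ext b
        simp
      cont := fun n => continuous_const
      sloc := fun n => ⟨∅, fun _ _ _ => rfl⟩ }

noncomputable instance : Inv GE where
  inv g :=
    { h := g.h.symm
      π := g.π⁻¹
      s := fun n c => - g.s n (g.h.symm c)
      hloc := by
        obtain ⟨F, hF⟩ := g.hloc
        exact ⟨F, hF.symm⟩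
      blk := fun b => by
        have := g.blk (g.π⁻¹ b)
        rw [perm_inv_r] at this
        exact this.symm
      fin := by
        refine g.fin.subset fun b hb => ?_
        intro h
        exact hb (by rw [Equiv.Perm.inv_eq_iff_eq]; exact h.symm)
      cont := fun n => ((g.cont n).comp g.h.symm.continuous).neg
      sloc := fun n => by
        obtain ⟨F, hF⟩ := g.sloc n
        obtain ⟨F'', hF''⟩ := g.hloc
        refine ⟨F ∪ F'', fun c c' hc => ?_⟩
        have h2 := ((hF.mono (F' := F ∪ F'') (fun i hi => by simp [hi])).comp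
          (hF''.mono (F' := F ∪ F'') (fun i hi => by simp [hi])).symm) c c' hc
        simp only at h2 ⊢
        rw [h2] }

theorem GE.mul_h (g g' : GE) (c : Cc) : (g * g').h c = g.h (g'.h c) := rfl
theorem GE.mul_π (g g' : GE) : (g * g').π = g.π * g'.π := rfl
theorem GE.mul_s (g g' : GE) (n : ℕ) (c : Cc) : (g * g').s n c = g'.s n c + g.s n (g'.h c) := rfl
theorem GE.one_h (c : Cc) : (1 : GE).h c = c := rfl
theorem GE.one_π : (1 : GE).π = 1 := rfl
theorem GE.one_s (n : ℕ) (c : Cc) : (1 : GE).s n c = 0 := rfl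
theorem GE.inv_h (g : GE) (c : Cc) : g⁻¹.h c = g.h.symm c := rfl
theorem GE.inv_π (g : GE) : g⁻¹.π = g.π⁻¹ := rfl
theorem GE.inv_s (g : GE) (n : ℕ) (c : Cc) : g⁻¹.s n c = - g.s n (g.h.symm c) := rfl

noncomputable instance : Group GE where
  mul_assoc a b c := by
    refine GE.ext' rfl (mul_assoc _ _ _) ?_
    funext n x
    simp only [GE.mul_s, GE.mul_h]
    ring
  one_mul a := by
    refine GE.ext' rfl (one_mul _) ?_
    funext n x
    simp only [GE.mul_s, GE.one_s, add_zero]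
  mul_one a := by
    refine GE.ext' rfl (mul_one _) ?_
    funext n x
    simp only [GE.mul_s, GE.one_s, zero_add, GE.one_h]
  inv_mul_cancel a := by
    refine GE.ext' ?_ (inv_mul_cancel _) ?_
    · ext x i
      show a.h.symm (a.h x) i = x i
      rw [Homeomorph.symm_apply_apply]
    · funext n x
      simp only [GE.mul_s, GE.one_s, GE.inv_s, Homeomorph.symm_apply_apply]
      ring

/-- the action on the space -/
noncomputable instance : MulAction GE Om where
  smul g x := (g.h x.1, fun b => ((x.2 (g.π⁻¹ b)).1 + g.s b.1 x.1, (x.2 (g.π⁻¹ b)).2))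
  one_smul x := by
    refine Prod.ext rfl ?_
    funext b
    show ((x.2 b).1 + 0, (x.2 b).2) = x.2 b
    rw [add_zero]
  mul_smul g g' x := by
    refine Prod.ext rfl ?_
    funext b
    have hb : (g.π⁻¹ b).1 = b.1 := g⁻¹.blk b
    show ((x.2 ((g.π * g'.π)⁻¹ b)).1 + (g'.s b.1 x.1 + g.s b.1 (g'.h x.1)), (x.2 ((g.π * g'.π)⁻¹ b)).2)
      = ((x.2 (g'.π⁻¹ (g.π⁻¹ b))).1 + g'.s (g.π⁻¹ b).1 x.1 + g.s b.1 (g'.h x.1),
        (x.2 (g'.π⁻¹ (g.π⁻¹ b))).2)
    rw [hb, mul_inv_rev, Equiv.Perm.mul_apply, add_assoc]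

theorem smul_fst (g : GE) (x : Om) : (g • x).1 = g.h x.1 := rfl

theorem smul_snd (g : GE) (x : Om) (b : ℕ × ℕ) :
    (g • x).2 b = ((x.2 (g.π⁻¹ b)).1 + g.s b.1 x.1, (x.2 (g.π⁻¹ b)).2) := rfl

theorem continuous_smul' (g : GE) : Continuous (fun x : Om => g • x) := by
  refine Continuous.prodMk (g.h.continuous.comp continuous_fst) ?_
  refine continuous_pi fun b => ?_
  have h1 : Continuous fun x : Om => x.2 (g.π⁻¹ b) :=
    (continuous_apply _).comp continuous_snd
  exact ((continuous_fst.comp h1).add ((g.cont _).comp continuous_fst)).prodMk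
    (continuous_snd.comp h1)

/-- the conditions: nonempty open sets -/
def Pc : Type := {U : Set Om // IsOpen U ∧ U.Nonempty}

instance : Preorder Pc where
  le U V := U.1 ⊆ V.1
  le_refl U := subset_rfl
  le_trans U V W h h' := subset_trans h h'

theorem Pc.le_def (U V : Pc) : U ≤ V ↔ U.1 ⊆ V.1 := Iff.rfl

noncomputable instance : MulAction GE Pc where
  smul g U := ⟨(fun x : Om => g⁻¹ • x) ⁻¹' U.1, U.2.1.preimage (continuous_smul' _), by
    obtain ⟨x, hx⟩ := U.2.2
    exact ⟨g • x, by show g⁻¹ • g • x ∈ U.1; rw [inv_smul_smul]; exact hx⟩⟩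
  one_smul U := by
    refine Subtype.ext ?_
    show (fun x : Om => (1 : GE)⁻¹ • x) ⁻¹' U.1 = U.1
    simp
  mul_smul g g' U := by
    refine Subtype.ext ?_
    show (fun x : Om => (g * g')⁻¹ • x) ⁻¹' U.1
      = (fun x : Om => g⁻¹ • x) ⁻¹' ((fun x : Om => g'⁻¹ • x) ⁻¹' U.1)
    ext x
    simp only [Set.mem_preimage, mul_inv_rev, mul_smul]

theorem mem_smul_iff (g : GE) (U : Pc) (x : Om) : x ∈ (g • U).1 ↔ g⁻¹ • x ∈ U.1 := Iff.rfl

/-- the supports -/
structure Spp where
  /-- fixed real coordinates -/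
  A : Finset ℕ
  /-- the blocks below `k` are not shifted -/
  k : ℕ
  /-- fixed atoms -/
  B : Finset (ℕ × ℕ)
  hB : ∀ b ∈ B, b.1 < k

/-- the subgroup of a support -/
def FixS (A : Finset ℕ) (k : ℕ) (B : Finset (ℕ × ℕ)) : Subgroup GE where
  carrier := {g | (∀ c, ∀ i ∈ A, g.h c i = c i) ∧ (∀ n < k, ∀ c, g.s n c = 0) ∧
    ∀ b ∈ B, g.π b = b}
  one_mem' := ⟨fun c i hi => rfl, fun n hn c => rfl, fun b hb => rfl⟩
  mul_mem' := by
    rintro a b ⟨h1, h2, h3⟩ ⟨h1', h2', h3'⟩
    refine ⟨fun c i hi => ?_, fun n hn c => ?_, fun b' hb => ?_⟩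
    · rw [GE.mul_h, h1 _ i hi, h1' _ i hi]
    · rw [GE.mul_s, h2 n hn, h2' n hn, add_zero]
    · rw [GE.mul_π, Equiv.Perm.mul_apply, h3' b' hb, h3 b' hb]
  inv_mem' := by
    rintro a ⟨h1, h2, h3⟩
    refine ⟨fun c i hi => ?_, fun n hn c => ?_, fun b' hb => ?_⟩
    · have := h1 (a.h.symm c) i hi
      rw [Homeomorph.apply_symm_apply] at this
      rw [GE.inv_h]
      exact this.symm
    · rw [GE.inv_s, h2 n hn, neg_zero]
    · rw [GE.inv_π, Equiv.Perm.inv_eq_iff_eq]
      exact (h3 b' hb).symm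

theorem mem_FixS {A : Finset ℕ} {k : ℕ} {B : Finset (ℕ × ℕ)} {g : GE} : g ∈ FixS A k B ↔
    (∀ c, ∀ i ∈ A, g.h c i = c i) ∧ (∀ n < k, ∀ c, g.s n c = 0) ∧ ∀ b ∈ B, g.π b = b := Iff.rfl

theorem FixS_mono {A A' : Finset ℕ} {k k' : ℕ} {B B' : Finset (ℕ × ℕ)} (hA : A ⊆ A')
    (hk : k ≤ k') (hB : B ⊆ B') : FixS A' k' B' ≤ FixS A k B := fun g hg =>
  ⟨fun c i hi => hg.1 c i (hA hi), fun n hn c => hg.2.1 n (hn.trans_le hk) c,
    fun b hb => hg.2.2 b (hB hb)⟩

/-- conjugation, with explicit data: `F` contains `A`, `h` is local for `F` and so are the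
shifts of the blocks below `k`. -/
theorem FixS_conj {A : Finset ℕ} {k : ℕ} {B : Finset (ℕ × ℕ)} {g : GE} {F : Finset ℕ}
    (hAF : A ⊆ F) (hF : LocH F g.h) (hs : ∀ n < k, LocF F (g.s n)) {f : GE}
    (hf : f ∈ FixS F k (B.image g.π)) : g⁻¹ * f * g ∈ FixS A k B := by
  obtain ⟨h1, h2, h3⟩ := hf
  have key : ∀ c, AgC F (g.h.symm (f.h (g.h c))) c := by
    intro c
    have h4 : AgC F (f.h (g.h c)) (g.h c) := fun i hi => h1 _ i hi
    have h5 := hF.2.2.2 _ _ h4
    rw [Homeomorph.symm_apply_apply] at h5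
    exact h5
  refine ⟨fun c i hi => key c i (hAF hi), fun n hn c => ?_, fun b hb => ?_⟩
  · simp only [GE.mul_s, GE.inv_s, h2 n hn]
    rw [hs n hn _ _ (key c)]
    ring
  · rw [GE.mul_π, GE.mul_π, GE.inv_π, Equiv.Perm.mul_apply, Equiv.Perm.mul_apply,
      h3 _ (Finset.mem_image_of_mem _ hb), perm_inv_l]

theorem exists_conj (A : Finset ℕ) (k : ℕ) (g : GE) : ∃ F : Finset ℕ, A ⊆ F ∧ LocH F g.h ∧
    ∀ n < k, LocF F (g.s n) := by
  obtain ⟨F, hF⟩ := g.hloc
  choose Fs hFs using g.sloc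
  have h1 : F ⊆ A ∪ F ∪ (Finset.range k).biUnion Fs := fun i hi => by simp [hi]
  refine ⟨A ∪ F ∪ (Finset.range k).biUnion Fs, fun i hi => by simp [hi], hF.mono h1,
    fun n hn => (hFs n).mono fun i hi => ?_⟩
  simp only [Finset.mem_union, Finset.mem_biUnion, Finset.mem_range]
  exact Or.inr ⟨n, hn, hi⟩

instance : SymSys Pc GE where
  mono g p q h := fun x hx => h hx
  Sp := Spp
  Fix S := FixS S.A S.k S.B
  S0 := ⟨∅, 0, ∅, by simp⟩
  dir S T := ⟨⟨S.A ∪ T.A, max S.k T.k, S.B ∪ T.B, fun b hb => by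
    rcases Finset.mem_union.1 hb with h | h
    · exact (S.hB b h).trans_le (le_max_left _ _)
    · exact (T.hB b h).trans_le (le_max_right _ _)⟩, fun g hg =>
      ⟨FixS_mono Finset.subset_union_left (le_max_left _ _) Finset.subset_union_left hg,
        FixS_mono Finset.subset_union_right (le_max_right _ _) Finset.subset_union_right hg⟩⟩
  normal S g := by
    obtain ⟨F, h1, h2, h3⟩ := exists_conj S.A S.k g
    refine ⟨⟨F, S.k, S.B.image g.π, fun b hb => ?_⟩, fun f hf => FixS_conj h1 h2 h3 hf⟩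
    obtain ⟨b', hb', rfl⟩ := Finset.mem_image.1 hb
    rw [g.blk]
    exact S.hB b' hb'

end CU
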