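import Pool.Agent.H20.CU.GEN

set_option linter.unusedVariables false
set_option linter.unusedSectionVars false

namespace CU

open SW

section
variable {P : Type} [Preorder P] {G : Type} [Group G] [MulAction G P] [H : SymSys P G]
variable {ν : ℕ → HN P G} {c : ℕ → P}

theorem gn_rel_equiv (h : Gn ν c) :
    Equivalence (fun i j : ℕ => ∃ k, EqF (ν i).1 (ν j).1 (c k)) where
  refl i := ⟨0, eqF_refl _ _⟩
  symm := fun ⟨k, e⟩ => ⟨k, eqF_symm e⟩
  trans := fun ⟨k, e⟩ ⟨l, e'⟩ => ⟨max k l, eqF_trans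
    (eqF_mono e (le_of_anti h.anti _ _ (le_max_left _ _)))
    (eqF_mono e' (le_of_anti h.anti _ _ (le_max_right _ _)))⟩

theorem gn_eq_iff (h : Gn ν c) (i j : ℕ) :
    qc ν c i = qc ν c j ↔ ∃ k, EqF (ν i).1 (ν j).1 (c k) := by
  constructor
  · intro e
    have := Quot.eqvGen_exact e
    exact (gn_rel_equiv h).eqvGen_iff.1 this
  · intro e
    exact Quot.sound e

theorem gn_mem_iff (h : Gn ν c) (i j : ℕ) :
    E (qc ν c i) (qc ν c j) ↔ ∃ k, MemF (ν i).1 (ν j).1 (c k) := by
  constructor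
  · rintro ⟨i', j', hi, hj, k, hk⟩
    obtain ⟨k1, h1⟩ := (gn_eq_iff h _ _).1 hi
    obtain ⟨k2, h2⟩ := (gn_eq_iff h _ _).1 hj
    have l0 := le_of_anti h.anti k (max k (max k1 k2)) (le_max_left _ _)
    have l1 := le_of_anti h.anti k1 (max k (max k1 k2))
      ((le_max_left _ _).trans (le_max_right _ _))
    have l2 := le_of_anti h.anti k2 (max k (max k1 k2))
      ((le_max_right _ _).trans (le_max_right _ _))
    exact ⟨_, memF_congr (eqF_mono h2 l2) (memF_congl (eqF_mono h1 l1) (memF_mono hk l0))⟩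
  · rintro ⟨k, hk⟩
    exact ⟨i, j, rfl, rfl, k, hk⟩

theorem gn_surj (x : GQ ν c) : ∃ i, x = qc ν c i := by
  obtain ⟨i, rfl⟩ := Quot.exists_rep x
  exact ⟨i, rfl⟩

theorem gn_mem_iff' (h : Gn ν c) (x : GQ ν c) (j : ℕ) : E x (qc ν c j) ↔
    ∃ (m l : ℕ) (i : (ν j).1.I), (ν j).1.el i = (ν m).1 ∧ c l ≤ (ν j).1.cd i ∧
      x = qc ν c m := by
  constructor
  · intro hx
    obtain ⟨a, rfl⟩ := gn_surj x
    obtain ⟨k, hk⟩ := (gn_mem_iff h _ _).1 hx
    obtain ⟨m, l, i, e1, e2, e3⟩ := h.chi a j k hk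
    exact ⟨m, l, i, e1, e2, (gn_eq_iff h _ _).2 ⟨l, e3⟩⟩
  · rintro ⟨m, l, i, e1, e2, rfl⟩
    refine (gn_mem_iff h _ _).2 ⟨l, ?_⟩
    rw [← e1]
    exact memF_intro i e2

theorem gn_truth (h : Gn ν c) : ∀ {n : ℕ} (f : Fml n) (v : Fin n → ℕ),
    Sat f (fun i => qc ν c (v i)) ↔ ∃ k, Frc f (c k) (fun i => ν (v i))
  | _, .mem i j, v => gn_mem_iff h _ _
  | _, .eq i j, v => gn_eq_iff h _ _
  | _, .bot, v => by simp [Sat, Frc]
  | _, .imp f g, v => by
      simp only [Sat]
      rw [gn_truth h f, gn_truth h g]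
      constructor
      · intro hi
        obtain ⟨k, hk⟩ := h.dec f v
        rcases hk with hk | hk
        · obtain ⟨l, hl⟩ := hi ⟨k, hk⟩
          exact ⟨l, fun q hq _ => frc_mono g hq hl⟩
        · exact ⟨k, fun q hq hf => absurd hf (hk q hq)⟩
      · rintro ⟨k, hk⟩ ⟨l, hl⟩
        refine ⟨max k l, hk _ (le_of_anti h.anti _ _ (le_max_left _ _)) (frc_mono f ?_ hl)⟩
        exact le_of_anti h.anti _ _ (le_max_right _ _)
  | _, .all f, v => by
      have key : ∀ j : ℕ, (fun i => qc ν c ((Fin.cons j v : Fin _ → ℕ) i))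
          = (Fin.cons (qc ν c j) (fun i => qc ν c (v i)) : Fin _ → GQ ν c) := by
        intro j
        funext i
        refine Fin.cases ?_ (fun j => ?_) i <;> rfl
      have key' : ∀ j : ℕ, (fun i => ν ((Fin.cons j v : Fin _ → ℕ) i))
          = (Fin.cons (ν j) (fun i => ν (v i)) : Fin _ → HN P G) := by
        intro j
        funext i
        refine Fin.cases ?_ (fun j => ?_) i <;> rfl
      simp only [Sat]
      constructor
      · intro hall
        obtain ⟨k, hk⟩ := h.dec (.all f) v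
        rcases hk with hk | hk
        · exact ⟨k, hk⟩
        · exfalso
          obtain ⟨j, l, hj⟩ := h.wit f v k hk
          have h1 := hall (qc ν c j)
          rw [← key, gn_truth h f] at h1
          obtain ⟨k', hk'⟩ := h1
          rw [key'] at hk'
          exact hj _ (le_of_anti h.anti l (max l k') (le_max_left _ _))
            (frc_mono f (le_of_anti h.anti k' (max l k') (le_max_right _ _)) hk')
      · rintro ⟨k, hk⟩ x
        obtain ⟨j, rfl⟩ := gn_surj x
        rw [← key, gn_truth h f]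
        refine ⟨k, ?_⟩
        rw [key']
        exact hk (ν j)

/-- every class is well founded -/
theorem gn_wf (h : Gn ν c) : WellFounded (fun x y : GQ ν c => E x y) := by
  have key : ∀ (a : Nm P) (j : ℕ), (ν j).1 = a →
      Acc (fun x y : GQ ν c => E x y) (qc ν c j) := by
    intro a
    induction a with
    | mk ι x d ih =>
      intro j hj
      refine Acc.intro _ fun y hy => ?_
      obtain ⟨m, l, i, e1, e2, rfl⟩ := (gn_mem_iff' h y j).1 hy
      have : ∀ (b : Nm P), b = .mk ι x d → ∀ i : b.I, ∃ i' : ι, b.el i = x i' := by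
        rintro _ rfl i
        exact ⟨i, rfl⟩
      obtain ⟨i', hi'⟩ := this _ hj i
      exact ih i' m (by rw [← e1, hi'])
  refine ⟨fun x => ?_⟩
  obtain ⟨j, rfl⟩ := gn_surj x
  exact key _ j rfl

instance : Countable (GQ ν c) := by
  refine Function.Surjective.countable (f := qc ν c) fun x => ?_
  obtain ⟨i, hi⟩ := gn_surj x
  exact ⟨i, hi.symm⟩

end

/-- module TRU -/
theorem gnFacts : TRUStmt := fun P G _ _ _ _ ν c h =>
  { le := le_of_anti h.anti
    surj := gn_surj
    eq_iff := gn_eq_iff h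
    mem_iff := gn_mem_iff h
    mem_iff' := gn_mem_iff' h
    truth := gn_truth h
    wf := gn_wf h
    cnt := inferInstance }

end CU
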