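import Pool.Agent.H20.CU.FSF

set_option linter.unusedVariables false
set_option linter.unusedSectionVars false
set_option synthInstance.maxSize 100000

namespace CU

open SW

section
variable {P : Type} [Preorder P] {G : Type} [Group G] [MulAction G P] [H : SymSys P G]

theorem fs_mem {n : ℕ} (i j : Fin n) (p : P) (v : Fin n → HN P G) :
    FS (fun N _ w => E (w i) (w j)) p v ↔ MemF (v i).1 (v j).1 p :=
  fs_frc _ (.mem i j) (fun N _ w => Iff.rfl) p v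

theorem fs_eq {n : ℕ} (i j : Fin n) (p : P) (v : Fin n → HN P G) :
    FS (fun N _ w => w i = w j) p v ↔ EqF (v i).1 (v j).1 p :=
  fs_frc _ (.eq i j) (fun N _ w => Iff.rfl) p v

/-- existence of witnesses in all generic quotients -/
theorem exw {n : ℕ} (R : ∀ (N : Type) [SetStr N], N → (Fin n → N) → Prop)
    [hR : UDf (fun N _ (w : Fin (n + 1) → N) => R N (w 0) (fun i => w i.succ))]
    (h : ∀ v : Fin n → HN P G, ∃ B : HN P G, ∀ (ν : ℕ → HN P G) (c : ℕ → P), Gn ν c →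
      ∀ (m : ℕ) (w : Fin n → ℕ), ν m = B → (∀ i, ν (w i) = v i) →
        R (GQ ν c) (qc ν c m) (fun i => qc ν c (w i)))
    (ν : ℕ → HN P G) (c : ℕ → P) (hg : Gn ν c) (w : Fin n → ℕ) :
    ∃ x, R (GQ ν c) x (fun i => qc ν c (w i)) := by
  have _ : UDf (fun N _ (w : Fin n → N) => ∃ x, R N x w) := inferInstance
  refine (fs_truth (fun N _ w => ∃ x, R N x w) ν c hg w).2 ⟨0, ?_⟩
  refine (fs_ex R).2 fun q hq => ⟨q, le_rfl, ?_⟩
  obtain ⟨B, hB⟩ := h (fun i => ν (w i))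
  refine ⟨B, fun ν' c' hg' _ w' hw' => ?_⟩
  exact hB ν' c' hg' (w' 0) (fun i => w' i.succ) (hw' 0) (fun i => hw' i.succ)

/-- A name is respected by a group if one inclusion is forced for all elements of the group. -/
theorem sy_of {T : SymSys.Sp P G} {u : Nm P}
    (h : ∀ g ∈ SymSys.Fix (P := P) (G := G) T, ∀ (i : u.I) (q : P), q ≤ g • u.cd i →
      MemF (act g (u.el i)) u q) : Sy T u := by
  intro g hg p
  obtain ⟨ι, x, c⟩ := u
  refine eqF_ext (fun i q hq hc => h g hg i q hc) (fun i q hq hc => ?_)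
  have h1 := h g⁻¹ (inv_mem hg) i (g⁻¹ • q) (H.mono _ hc)
  rw [← memF_act g, smul_inv_smul, ← act_mul, mul_inv_cancel, act_one] at h1
  exact h1

/-- the name of a subset of `a` -/
def sepN (a : Nm P) (Φ : a.I → P → Prop) : Nm P :=
  .mk {z : a.I × P // z.2 ≤ a.cd z.1 ∧ Φ z.1 z.2} (fun z => a.el z.1.1) (fun z => z.1.2)

theorem el_act {a : Nm P} (g : G) (i : a.I) {q : P} (h : q ≤ g • a.cd i) :
    MemF (act g (a.el i)) (act g a) q := by
  obtain ⟨ι, x, c⟩ := a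
  exact memF_intro (b := .mk ι (fun i => act g (x i)) (fun i => g • c i)) i h

theorem sepN_sy {a : Nm P} {Φ : a.I → P → Prop} {T : SymSys.Sp P G} (ha : Sy T a)
    (hΦ : ∀ g ∈ SymSys.Fix (P := P) (G := G) T, ∀ i j r r', Φ i r → r' ≤ g • r →
      EqF (act g (a.el i)) (a.el j) r' → Φ j r') : Sy T (sepN a Φ) := by
  refine sy_of fun g hg z q hq => ?_
  obtain ⟨⟨i, r⟩, hr, hz⟩ := z
  have h1 : MemF (act g (a.el i)) a q :=
    memF_congr (ha g hg q) (el_act g i (hq.trans (H.mono g hr)))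
  intro q1 hq1
  obtain ⟨r', hr', j, hj, e⟩ := h1 q1 hq1
  exact ⟨r', hr', ⟨(j, r'), hj, hΦ g hg i j r r' hz ((hr'.trans hq1).trans hq) e⟩, le_rfl, e⟩

theorem sepN_hr {a : Nm P} {Φ : a.I → P → Prop} (ha : HR G a) {T : SymSys.Sp P G}
    (h : Sy T (sepN a Φ)) : HR G (sepN a Φ) :=
  ⟨⟨T, h⟩, fun z => hr_el ha z.1.1⟩

/-- the name of the intersection of `a` and `y` -/
theorem capN_sy {a y : HN P G} {T : SymSys.Sp P G} (ha : Sy T a.1) (hy : Sy T y.1) :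
    Sy T (sepN a.1 (fun i r => MemF (a.1.el i) y.1 r)) := by
  refine sepN_sy ha fun g hg i j r r' h1 h2 e => ?_
  have h3 := (memF_act g _ _ _).2 h1
  exact memF_congl e (memF_congr (hy g hg r') (memF_mono h3 h2))

theorem capN_eq {a y : HN P G} {p : P}
    (h : ∀ (i : y.1.I) (q : P), q ≤ p → q ≤ y.1.cd i → MemF (y.1.el i) a.1 q) :
    EqF y.1 (sepN a.1 (fun i r => MemF (a.1.el i) y.1 r)) p := by
  refine eqF_ext (fun i q hq hc => ?_) (fun z q hq hc => ?_)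
  · intro q1 hq1
    obtain ⟨r, hr, j, hj, e⟩ := h i q hq hc q1 hq1
    refine ⟨r, hr, ⟨(j, r), hj, ?_⟩, le_rfl, e⟩
    exact memF_congl e (memF_intro i ((hr.trans hq1).trans hc))
  · exact memF_mono z.2.2 hc

/-! ### extensionality -/

theorem gn_ext {ν : ℕ → HN P G} {c : ℕ → P} (hg : Gn ν c) (x y : GQ ν c)
    (h : ∀ z, E z x ↔ E z y) : x = y := by
  obtain ⟨i, rfl⟩ := gn_surj x
  obtain ⟨j, rfl⟩ := gn_surj y
  obtain ⟨k, hk⟩ := (fs_truth (fun N _ (w : Fin 2 → N) => ∀ z : N, E z (w 0) ↔ E z (w 1))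
    ν c hg ![i, j]).1 h
  refine (gn_eq_iff hg i j).2 ⟨k, ?_⟩
  rw [fs_all (fun N _ z (w : Fin 2 → N) => E z (w 0) ↔ E z (w 1))] at hk
  have key : ∀ (z : HN P G) (q : P), q ≤ c k → (MemF z.1 (ν i).1 q ↔ MemF z.1 (ν j).1 q) := by
    intro z q hq
    have h1 := fs_mono _ hq (hk z)
    have h2 := fs_mem (1 : Fin 3) 0 q (Fin.cons z (fun i' => ν (![i, j] i')))
    have e1 := fs_mem (0 : Fin 3) 1 q (Fin.cons z (fun i' => ν (![i, j] i')) : Fin 3 → HN P G)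
    have e2 := fs_mem (0 : Fin 3) 2 q (Fin.cons z (fun i' => ν (![i, j] i')) : Fin 3 → HN P G)
    constructor
    · intro hz
      exact e2.1 fun ν' c' hg' hk' w' hw' => (h1 ν' c' hg' hk' w' hw').1 (e1.2 hz ν' c' hg' hk' w' hw')
    · intro hz
      exact e1.1 fun ν' c' hg' hk' w' hw' => (h1 ν' c' hg' hk' w' hw').2 (e2.2 hz ν' c' hg' hk' w' hw')
  refine eqF_ext (fun i' q hq hc => ?_) (fun i' q hq hc => ?_)
  · exact (key ⟨_, hr_el (ν i).2 i'⟩ q hq).1 (memF_intro i' hc)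
  · exact (key ⟨_, hr_el (ν j).2 i'⟩ q hq).2 (memF_intro i' hc)

theorem gn_found {ν : ℕ → HN P G} {c : ℕ → P} (hg : Gn ν c) (x : GQ ν c)
    (h : ∃ y, E y x) : ∃ y, E y x ∧ ∀ z, E z x → ¬ E z y := by
  obtain ⟨y, hy⟩ := h
  obtain ⟨z, hz, hmin⟩ := (gn_wf hg).has_min {y | E y x} ⟨y, hy⟩
  exact ⟨z, hz, fun w hw hwz => hmin w hw hwz⟩

end

end CU
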