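import Pool.Agent.H20.CU.ZFX

set_option linter.unusedVariables false
set_option linter.unusedSectionVars false
set_option synthInstance.maxSize 100000

namespace CU

open SW

section
variable {P : Type} [Preorder P] {G : Type} [Group G] [MulAction G P] [H : SymSys P G]

/-! ### names of sets of names -/

/-- the name of the set of all `x i` -/
def famN {ι : Type} (x : ι → Nm P) : Nm P := .mk (ι × P) (fun z => x z.1) (fun z => z.2)

theorem memF_famN {ι : Type} (x : ι → Nm P) (i : ι) (p : P) : MemF (x i) (famN x) p :=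
  fun q hq => ⟨q, le_rfl, (i, q), le_rfl, eqF_refl _ _⟩

theorem famN_sy {ι : Type} {x : ι → Nm P} {T : SymSys.Sp P G}
    (h : ∀ g ∈ SymSys.Fix (P := P) (G := G) T, ∀ i q, MemF (act g (x i)) (famN x) q) :
    Sy T (famN x) :=
  sy_of fun g hg z q hq => h g hg z.1 q

theorem famN_hr {ι : Type} {x : ι → Nm P} (hx : ∀ i, HR G (x i)) {T : SymSys.Sp P G}
    (h : Sy T (famN x)) : HR G (famN x) := ⟨⟨T, h⟩, fun z => hx z.1⟩

/-- members of `famN x` in the quotient -/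
theorem gn_famN {ν : ℕ → HN P G} {c : ℕ → P} (hg : Gn ν c) {ι : Type} {x : ι → Nm P} {m : ℕ}
    (hm : (ν m).1 = famN x) (y : GQ ν c) :
    E y (qc ν c m) ↔ ∃ (i : ι) (j k : ℕ), y = qc ν c j ∧ EqF (ν j).1 (x i) (c k) := by
  obtain ⟨j, rfl⟩ := gn_surj y
  rw [gn_mem_iff hg, hm]
  constructor
  · rintro ⟨k, hk⟩
    obtain ⟨m', l, z, e1, e2, e3⟩ := hg.chi j m k (by rw [hm]; exact hk)
    have : ∀ (b : Nm P), b = famN x → ∀ z : b.I, ∃ i : ι, b.el z = x i := by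
      rintro _ rfl z
      exact ⟨z.1, rfl⟩
    obtain ⟨i, hi⟩ := this _ hm z
    exact ⟨i, j, l, rfl, by rw [← hi, e1]; exact e3⟩
  · rintro ⟨i, j', k, e, hk⟩
    obtain ⟨k', hk'⟩ := (gn_eq_iff hg _ _).1 e
    have l1 := le_of_anti hg.anti k (max k k') (le_max_left _ _)
    have l2 := le_of_anti hg.anti k' (max k k') (le_max_right _ _)
    exact ⟨max k k', memF_congl (eqF_symm (eqF_trans (eqF_mono hk' l2) (eqF_mono hk l1)))
      (memF_famN x i _)⟩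

/-- a variant of the previous lemma if the members are among the `ν j` -/
theorem gn_famN' {ν : ℕ → HN P G} {c : ℕ → P} (hg : Gn ν c) {ι : Type} {x : ι → Nm P} {m : ℕ}
    (hm : (ν m).1 = famN x) {f : ι → ℕ} (hf : ∀ i, (ν (f i)).1 = x i) (y : GQ ν c) :
    E y (qc ν c m) ↔ ∃ i : ι, y = qc ν c (f i) := by
  rw [gn_famN hg hm]
  constructor
  · rintro ⟨i, j, k, rfl, hk⟩
    exact ⟨i, (gn_eq_iff hg _ _).2 ⟨k, by rw [hf]; exact hk⟩⟩
  · rintro ⟨i, rfl⟩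
    exact ⟨i, f i, 0, rfl, by rw [hf]; exact eqF_refl _ _⟩

/-- common supports of two names -/
theorem sy_two (a b : HN P G) : ∃ T : SymSys.Sp P G, Sy T a.1 ∧ Sy T b.1 := by
  obtain ⟨T, _, hT⟩ := sy_fin (n := 2) ![a, b] H.S0
  exact ⟨T, hT 0, hT 1⟩

/-- the unordered pair -/
def pairN (a b : HN P G) : HN P G :=
  ⟨famN (fun t : Bool => if t then a.1 else b.1), by
    obtain ⟨T, h1, h2⟩ := sy_two a b
    refine famN_hr (T := T) (fun i => ?_) (famN_sy fun g hg i q => ?_)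
    · cases i
      · exact b.2
      · exact a.2
    · cases i
      · exact memF_congl (eqF_symm (h2 g hg q))
          (memF_famN (fun t : Bool => if t then a.1 else b.1) false q)
      · exact memF_congl (eqF_symm (h1 g hg q))
          (memF_famN (fun t : Bool => if t then a.1 else b.1) true q)⟩

theorem gn_pairN {ν : ℕ → HN P G} {c : ℕ → P} (hg : Gn ν c) {m i j : ℕ}
    (hm : ν m = pairN (ν i) (ν j)) (y : GQ ν c) :
    E y (qc ν c m) ↔ y = qc ν c i ∨ y = qc ν c j := by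
  rw [gn_famN' hg (x := fun t : Bool => if t then (ν i).1 else (ν j).1)
    (by rw [hm]; rfl) (f := fun t => if t then i else j) (fun t => by cases t <;> rfl)]
  constructor
  · rintro ⟨t, rfl⟩
    cases t
    · exact Or.inr rfl
    · exact Or.inl rfl
  · rintro (rfl | rfl)
    · exact ⟨true, rfl⟩
    · exact ⟨false, rfl⟩

theorem gn_pair {ν : ℕ → HN P G} {c : ℕ → P} (hg : Gn ν c) (x y : GQ ν c) :
    ∃ z, ∀ w, E w z ↔ w = x ∨ w = y := by
  obtain ⟨i, rfl⟩ := gn_surj x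
  obtain ⟨j, rfl⟩ := gn_surj y
  exact exw (fun N _ z (w : Fin 2 → N) => ∀ u : N, E u z ↔ u = w 0 ∨ u = w 1)
    (fun v => ⟨pairN (v 0) (v 1), fun ν' c' hg' m w hm hw y => by
      exact gn_pairN hg' (i := w 0) (j := w 1) (by rw [hw, hw]; exact hm) y⟩) ν c hg ![i, j]

/-! ### union -/

/-- the name of the union -/
def unionN (a : Nm P) : Nm P :=
  .mk {z : (Σ i : a.I, (a.el i).I) × P // z.2 ≤ a.cd z.1.1 ∧ z.2 ≤ (a.el z.1.1).cd z.1.2}
    (fun z => (a.el z.1.1.1).el z.1.1.2) (fun z => z.1.2)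

theorem unionN_hr {a : Nm P} (ha : HR G a) : HR G (unionN a) := by
  obtain ⟨T, hT⟩ := sy_of_hr ha
  refine ⟨⟨T, sy_of fun g hg z q hq => ?_⟩, fun z => hr_el (hr_el ha _) _⟩
  obtain ⟨⟨⟨i, j⟩, r⟩, h1, h2⟩ := z
  have h3 : MemF (act g (a.el i)) a q :=
    memF_congr (hT g hg q) (el_act g i (hq.trans (H.mono g h1)))
  have h4 : MemF (act g ((a.el i).el j)) (act g (a.el i)) q := el_act g j (hq.trans (H.mono g h2))
  intro q1 hq1
  obtain ⟨r1, hr1, i', hi', e⟩ := h3 q1 hq1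
  obtain ⟨r2, hr2, j', hj', e'⟩ := memF_congr e (memF_mono h4 (hr1.trans hq1)) r1 le_rfl
  exact ⟨r2, hr2.trans hr1, ⟨((⟨i', j'⟩ : Σ i : a.I, (a.el i).I), r2),
    ⟨hr2.trans hi', hj'⟩⟩, le_rfl, e'⟩

theorem gn_union {ν : ℕ → HN P G} {c : ℕ → P} (hg : Gn ν c) (x : GQ ν c) :
    ∃ u, ∀ w, E w u ↔ ∃ y, E y x ∧ E w y := by
  obtain ⟨i, rfl⟩ := gn_surj x
  refine exw (fun N _ z (w : Fin 1 → N) => ∀ u : N, E u z ↔ ∃ y, E y (w 0) ∧ E u y)
    (fun v => ⟨⟨unionN (v 0).1, unionN_hr (v 0).2⟩, fun ν' c' hg' m w hm hw y => ?_⟩) ν c hg ![i]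
  obtain ⟨j, rfl⟩ := gn_surj y
  have hw0 := hw 0
  constructor
  · intro h
    obtain ⟨m', l, z, e1, e2, e3⟩ := (gn_mem_iff' hg' _ _).1 h
    have : ∀ b : HN P G, b = ⟨unionN (v 0).1, unionN_hr (v 0).2⟩ → ∀ z : b.1.I, ∃ (i : (v 0).1.I)
        (j : ((v 0).1.el i).I), b.1.el z = ((v 0).1.el i).el j ∧ b.1.cd z ≤ (v 0).1.cd i ∧
          b.1.cd z ≤ ((v 0).1.el i).cd j := by
      rintro _ rfl z
      exact ⟨z.1.1.1, z.1.1.2, rfl, z.2.1, z.2.2⟩
    obtain ⟨i0, j0, f1, f2, f3⟩ := this _ hm z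
    have h1 : MemF ((v 0).1.el i0) (ν' (w 0)).1 (c' l) := by
      rw [hw0]
      exact memF_intro i0 (e2.trans f2)
    -- the member `el i0` is a class
    have h2 : ∃ y : GQ ν' c', E y (qc ν' c' (w 0)) ∧ E (qc ν' c' m') y := by
      have h3 : FS (fun N _ (u : Fin 2 → N) => ∃ y, E y (u 0) ∧ E (u 1) y) (c' l)
          ![ν' (w 0), ν' m'] := by
        refine (fs_ex (fun N _ y (u : Fin 2 → N) => E y (u 0) ∧ E (u 1) y)).2
          fun q hq => ⟨q, le_rfl, ⟨(v 0).1.el i0, hr_el (v 0).2 i0⟩, ?_⟩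
        have g1 := (fs_mem (0 : Fin 3) 1 q (Fin.cons (⟨(v 0).1.el i0, hr_el (v 0).2 i0⟩ : HN P G)
          ![ν' (w 0), ν' m'] : Fin 3 → HN P G)).2 (memF_mono h1 hq)
        have g2 := (fs_mem (2 : Fin 3) 0 q (Fin.cons (⟨(v 0).1.el i0, hr_el (v 0).2 i0⟩ : HN P G)
          ![ν' (w 0), ν' m'] : Fin 3 → HN P G)).2 (by
            show MemF (ν' m').1 ((v 0).1.el i0) q
            rw [← e1, f1]
            exact memF_intro j0 (hq.trans (e2.trans f3)))
        exact fun a b c d e f => ⟨g1 a b c d e f, g2 a b c d e f⟩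
      have h4 := h3 ν' c' hg' ⟨l, le_rfl⟩ ![w 0, m'] (fun i => by
        refine Fin.cases rfl (fun i => ?_) i
        refine Fin.cases rfl (fun i => i.elim0) i)
      exact h4
    rw [e3]
    exact h2
  · rintro ⟨y, hy, hj⟩
    obtain ⟨a, l, i0, e1, e2, rfl⟩ := (gn_mem_iff' hg' y (w 0)).1 hy
    obtain ⟨b, l', j0, f1, f2, f3⟩ := (gn_mem_iff' hg' _ a).1 hj
    rw [f3, gn_mem_iff hg', hm]
    refine ⟨max l l', ?_⟩
    have l1 := le_of_anti hg'.anti l (max l l') (le_max_left _ _)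
    have l2 := le_of_anti hg'.anti l' (max l l') (le_max_right _ _)
    show MemF (ν' b).1 (unionN (v 0).1) _
    rw [← f1]
    have gen : ∀ (a0 : Nm P), a0 = (ν' a).1 → ∀ (i1 : (v 0).1.I), (v 0).1.el i1 = a0 →
        c' (max l l') ≤ (v 0).1.cd i1 → ∀ j1 : a0.I, c' (max l l') ≤ a0.cd j1 →
        MemF (a0.el j1) (unionN (v 0).1) (c' (max l l')) := by
      rintro _ - i1 rfl h1 j1 h2
      exact memF_intro (b := unionN (v 0).1)
        ⟨((⟨i1, j1⟩ : Σ i : (v 0).1.I, ((v 0).1.el i).I), c' (max l l')), ⟨h1, h2⟩⟩ le_rfl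
    have hi : ∃ i1 : (v 0).1.I, (v 0).1.el i1 = (ν' a).1 ∧ c' (max l l') ≤ (v 0).1.cd i1 := by
      rw [← hw0]
      exact ⟨i0, e1, l1.trans e2⟩
    obtain ⟨i1, hi1, hi2⟩ := hi
    exact gen _ rfl i1 hi1 hi2 j0 (l2.trans f2)

end

end CU
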