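import Pool.Agent.H20.CU.ZFY

set_option linter.unusedVariables false
set_option linter.unusedSectionVars false
set_option synthInstance.maxSize 100000

namespace CU

open SW

section
variable {P : Type} [Preorder P] {G : Type} [Group G] [MulAction G P] [H : SymSys P G]

/-- To prove a forced statement one may use generic sequences which contain countably many
further names. -/
theorem fs_of {n : ℕ} (R : ∀ (N : Type) [SetStr N], (Fin n → N) → Prop) [UDf R] {p : P}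
    {v : Fin n → HN P G} (η : ℕ → HN P G)
    (h : ∀ (ν : ℕ → HN P G) (c : ℕ → P), Gn ν c → (∃ k, c k ≤ p) → ∀ w : Fin n → ℕ,
      (∀ i, ν (w i) = v i) → ∀ u : ℕ → ℕ, (∀ i, ν (u i) = η i) →
        R (GQ ν c) (fun i => qc ν c (w i))) : FS R p v := by
  by_contra hcon
  obtain ⟨q, hq, hn⟩ := fs_neg R hcon
  obtain ⟨ν, c, h1, h2, h3⟩ := genExists P G q
    (fun i => if h : i < n then v ⟨i, h⟩ else η (i - n))
  choose w hw using fun i : Fin n => h3 i.1
  choose u hu using fun i : ℕ => h3 (n + i)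
  have hw' : ∀ i, ν (w i) = v i := fun i => by rw [hw i, dif_pos i.2]
  have hu' : ∀ i, ν (u i) = η i := fun i => by
    rw [hu i, dif_neg (by omega)]
    congr 1
    omega
  exact hn ν c h1 ⟨0, h2⟩ w hw' (h ν c h1 ⟨0, h2.trans hq⟩ w hw' u hu')

/-- existence of witnesses, with further names -/
theorem exw' {n : ℕ} (R : ∀ (N : Type) [SetStr N], N → (Fin n → N) → Prop)
    [hR : UDf (fun N _ (w : Fin (n + 1) → N) => R N (w 0) (fun i => w i.succ))]
    (h : ∀ v : Fin n → HN P G, ∃ (B : HN P G) (η : ℕ → HN P G),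
      ∀ (ν : ℕ → HN P G) (c : ℕ → P), Gn ν c →
      ∀ (m : ℕ) (w : Fin n → ℕ) (u : ℕ → ℕ), ν m = B → (∀ i, ν (w i) = v i) →
        (∀ i, ν (u i) = η i) → R (GQ ν c) (qc ν c m) (fun i => qc ν c (w i)))
    (ν : ℕ → HN P G) (c : ℕ → P) (hg : Gn ν c) (w : Fin n → ℕ) :
    ∃ x, R (GQ ν c) x (fun i => qc ν c (w i)) := by
  have _ : UDf (fun N _ (w : Fin n → N) => ∃ x, R N x w) := inferInstance
  refine (fs_truth (fun N _ w => ∃ x, R N x w) ν c hg w).2 ⟨0, ?_⟩
  refine (fs_ex R).2 fun q hq => ⟨q, le_rfl, ?_⟩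
  obtain ⟨B, η, hB⟩ := h (fun i => ν (w i))
  refine ⟨B, fs_of (fun N _ (w : Fin (n + 1) → N) => R N (w 0) (fun i => w i.succ)) η
    fun ν' c' hg' _ w' hw' u hu => ?_⟩
  exact hB ν' c' hg' (w' 0) (fun i => w' i.succ) u (hw' 0) (fun i => hw' i.succ) hu

/-! ### numerals and infinity -/

/-- the numerals -/
def numN : ℕ → Nm P
  | 0 => .mk Empty Empty.elim Empty.elim
  | n + 1 => famN (fun i : Fin (n + 1) => numN i.1)

theorem numN_eq (n : ℕ) (p : P) :
    EqF (numN n : Nm P) (famN (fun i : Fin n => (numN i.1 : Nm P))) p := by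
  cases n with
  | zero =>
    rw [numN, EqF_iff]
    exact ⟨fun i => i.elim, fun j => j.1.elim0⟩
  | succ n =>
    rw [numN]
    exact eqF_refl _ _

theorem act_famN_mem {ι : Type} (x : ι → Nm P) (g : G) (i : ι) (p : P) :
    MemF (act g (x i)) (act g (famN x)) p :=
  el_act (a := famN x) g (i, g⁻¹ • p) (by
    show p ≤ g • (g⁻¹ • p)
    rw [smul_inv_smul])

theorem numN_act (g : G) (n : ℕ) : ∀ p : P, EqF (act g (numN n)) (numN n) p := by
  induction n using Nat.strong_induction_on with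
  | _ n ih =>
    intro p
    cases n with
    | zero =>
      rw [numN, EqF_iff]
      exact ⟨fun i => i.elim, fun j => j.elim⟩
    | succ n =>
      rw [numN, famN]
      refine eqF_ext (fun i q hq hc => ?_) (fun i q hq hc => ?_)
      · exact memF_congl (eqF_symm (ih _ i.1.2 q)) (memF_famN (fun i : Fin (n + 1) => numN i.1) i.1 q)
      · exact memF_congl (ih _ i.1.2 q) (act_famN_mem (fun i : Fin (n + 1) => numN i.1) g i.1 q)

theorem numN_hr (n : ℕ) : HR G (numN n : Nm P) := by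
  induction n using Nat.strong_induction_on with
  | _ n ih =>
    cases n with
    | zero =>
      rw [numN]
      exact (empN P G).2
    | succ n =>
      rw [numN]
      refine famN_hr (T := H.S0) (fun i => ih _ i.2) (famN_sy fun g hg i q => ?_)
      exact memF_congl (eqF_symm (numN_act g _ q)) (memF_famN (fun i : Fin (n + 1) => numN i.1) i q)

variable (P G) in
/-- the numerals -/
def numH (n : ℕ) : HN P G := ⟨numN n, numN_hr n⟩

variable (P G) in
/-- the name of `ω` -/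
def omH : HN P G := ⟨famN (fun n : ℕ => (numN n : Nm P)),
  famN_hr (T := H.S0) numN_hr (famN_sy fun g hg i q =>
    memF_congl (eqF_symm (numN_act g _ q)) (memF_famN (fun n : ℕ => (numN n : Nm P)) i q))⟩

theorem gn_om {ν : ℕ → HN P G} {c : ℕ → P} (hg : Gn ν c) {m : ℕ} {u : ℕ → ℕ}
    (hm : ν m = omH P G) (hu : ∀ n, ν (u n) = numH P G n) (y : GQ ν c) :
    E y (qc ν c m) ↔ ∃ n, y = qc ν c (u n) :=
  gn_famN' hg (by rw [hm]; rfl) (f := u) (fun n => by rw [hu]; rfl) y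

theorem gn_num {ν : ℕ → HN P G} {c : ℕ → P} (hg : Gn ν c) {u : ℕ → ℕ}
    (hu : ∀ n, ν (u n) = numH P G n) (n : ℕ) (y : GQ ν c) :
    E y (qc ν c (u n)) ↔ ∃ i, i < n ∧ y = qc ν c (u i) := by
  cases n with
  | zero =>
    constructor
    · intro h
      obtain ⟨_, _, i, _⟩ := (gn_mem_iff' hg _ _).1 h
      have : ∀ b : Nm P, b = numN 0 → b.I → False := by
        intro b hb i
        rw [numN] at hb
        subst hb
        exact Empty.elim i
      exact (this _ (by rw [hu 0]; rfl) i).elim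
    · rintro ⟨i, hi, _⟩
      omega
  | succ n =>
    rw [gn_famN' hg (x := fun i : Fin (n + 1) => (numN i.1 : Nm P))
      (by rw [hu]; show numN (n + 1) = _; rw [numN]) (f := fun i => u i.1)
      (fun i => by rw [hu]; rfl)]
    constructor
    · rintro ⟨i, rfl⟩
      exact ⟨i.1, i.2, rfl⟩
    · rintro ⟨i, hi, rfl⟩
      exact ⟨⟨i, hi⟩, rfl⟩

theorem gn_inf {ν : ℕ → HN P G} {c : ℕ → P} (hg : Gn ν c) :
    ∃ x : GQ ν c, (∃ e, E e x ∧ ∀ z, ¬ E z e) ∧
      ∀ y, E y x → ∃ s, E s x ∧ ∀ w, E w s ↔ E w y ∨ w = y := by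
  refine exw' (fun N _ x (w : Fin 0 → N) => (∃ e, E e x ∧ ∀ z, ¬ E z e) ∧
    ∀ y, E y x → ∃ s, E s x ∧ ∀ w, E w s ↔ E w y ∨ w = y)
    (fun v => ⟨omH P G, numH P G, fun ν' c' hg' m w u hm hw hu => ?_⟩) ν c hg Fin.elim0
  constructor
  · refine ⟨qc ν' c' (u 0), (gn_om hg' hm hu _).2 ⟨0, rfl⟩, fun z hz => ?_⟩
    obtain ⟨i, hi, _⟩ := (gn_num hg' hu 0 z).1 hz
    omega
  · intro y hy
    obtain ⟨n, rfl⟩ := (gn_om hg' hm hu _).1 hy
    refine ⟨qc ν' c' (u (n + 1)), (gn_om hg' hm hu _).2 ⟨n + 1, rfl⟩, fun z => ?_⟩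
    rw [gn_num hg' hu, gn_num hg' hu]
    constructor
    · rintro ⟨i, hi, rfl⟩
      rcases Nat.lt_succ_iff_lt_or_eq.1 hi with h | rfl
      · exact Or.inl ⟨i, h, rfl⟩
      · exact Or.inr rfl
    · rintro (⟨i, hi, rfl⟩ | rfl)
      · exact ⟨i, by omega, rfl⟩
      · exact ⟨n, by omega, rfl⟩

/-! ### power set -/

/-- the name of the power set -/
def powN (G : Type) [Group G] [MulAction G P] [H : SymSys P G] (a : Nm P) : Nm P :=
  famN (fun Φ : {Φ : a.I → P → Prop // HR G (sepN a Φ)} => sepN a Φ.1)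

theorem sub_iff {x y : HN P G} {p : P} :
    FS (fun N _ (w : Fin 2 → N) => ∀ z, E z (w 0) → E z (w 1)) p ![x, y] ↔
      ∀ (i : x.1.I) (q : P), q ≤ p → q ≤ x.1.cd i → MemF (x.1.el i) y.1 q := by
  rw [fs_all (fun N _ z (w : Fin 2 → N) => E z (w 0) → E z (w 1))]
  constructor
  · intro h i q hq hc
    have h1 := fs_mono _ hq (h ⟨_, hr_el x.2 i⟩)
    have e1 := fs_mem (0 : Fin 3) 1 q (Fin.cons (⟨_, hr_el x.2 i⟩ : HN P G) ![x, y] : Fin 3 → HN P G)
    have e2 := fs_mem (0 : Fin 3) 2 q (Fin.cons (⟨_, hr_el x.2 i⟩ : HN P G) ![x, y] : Fin 3 → HN P G)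
    exact e2.1 fun ν' c' hg' hk' w' hw' => h1 ν' c' hg' hk' w' hw'
      (e1.2 (memF_intro i hc) ν' c' hg' hk' w' hw')
  · intro h z ν c hg ⟨k, hk⟩ w hw hz
    obtain ⟨l, hl⟩ := (gn_mem_iff hg _ _).1 hz
    have h0 := hw 0
    have h1 := hw 1
    have h2 := hw 2
    refine (gn_mem_iff hg _ _).2 ⟨max k l, ?_⟩
    have l1 := (le_of_anti hg.anti k (max k l) (le_max_left _ _)).trans hk
    have l2 := le_of_anti hg.anti l (max k l) (le_max_right _ _)
    have hl' : MemF z.1 x.1 (c (max k l)) := by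
      have := memF_mono hl l2
      have e0 : ν (w 0) = z := h0
      have e1 : ν (w (Fin.succ 0)) = x := h1
      rw [e0, e1] at this
      exact this
    have e0 : ν (w 0) = z := h0
    have e2 : ν (w (Fin.succ 1)) = y := h2
    rw [e0, e2]
    refine memF_dense fun q hq => ?_
    obtain ⟨r, hr, i, hi, e⟩ := hl' q hq
    exact ⟨r, hr, memF_congl (eqF_symm e) (h i r ((hr.trans hq).trans l1) hi)⟩

theorem powN_hr {a : Nm P} (ha : HR G a) : HR G (powN G a) := by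
  obtain ⟨T, hT⟩ := sy_of_hr ha
  refine famN_hr (T := T) (fun Φ => Φ.2) (famN_sy fun g hg Φ q => ?_)
  let A : HN P G := ⟨a, ha⟩
  let y : HN P G := ⟨act g (sepN a Φ.1), hr_act g _ Φ.2⟩
  obtain ⟨T', h1, h2⟩ := sy_two A y
  have h3 := capN_sy h1 h2
  have h4 : EqF y.1 (sepN a (fun i r => MemF (a.el i) y.1 r)) q := by
    refine capN_eq (a := A) (y := y) fun i q' hq' hc => ?_
    have hy : ∀ i : y.1.I, MemF (y.1.el i) a (y.1.cd i) := by
      show ∀ i : (act g (sepN a Φ.1)).I, MemF ((act g (sepN a Φ.1)).el i) a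
        ((act g (sepN a Φ.1)).cd i)
      rintro ⟨⟨i, r⟩, hi⟩
      exact memF_congr (hT g hg _) (el_act g i (H.mono g hi.1))
    exact memF_mono (hy i) hc
  exact memF_congl (eqF_symm h4) (memF_famN
    (fun Φ : {Φ : a.I → P → Prop // HR G (sepN a Φ)} => sepN a Φ.1)
    ⟨fun i r => MemF (a.el i) y.1 r, sepN_hr ha h3⟩ q)

theorem gn_pow {ν : ℕ → HN P G} {c : ℕ → P} (hg : Gn ν c) (x : GQ ν c) :
    ∃ p, ∀ w, E w p ↔ ∀ z, E z w → E z x := by
  obtain ⟨i, rfl⟩ := gn_surj x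
  refine exw (fun N _ p (w : Fin 1 → N) => ∀ u : N, E u p ↔ ∀ z, E z u → E z (w 0))
    (fun v => ⟨⟨powN G (v 0).1, powN_hr (v 0).2⟩, fun ν' c' hg' m w hm hw y => ?_⟩) ν c hg ![i]
  obtain ⟨j, rfl⟩ := gn_surj y
  have hw0 : ν' (w 0) = v 0 := hw 0
  have hle := le_of_anti hg'.anti
  constructor
  · intro h z hz
    obtain ⟨Φ, j', k, e, hk⟩ := (gn_famN hg' (x := fun Φ : {Φ : (v 0).1.I → P → Prop //
      HR G (sepN (v 0).1 Φ)} => sepN (v 0).1 Φ.1) (by rw [hm]; rfl) _).1 h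
    obtain ⟨k1, hk1⟩ := (gn_eq_iff hg' _ _).1 e
    obtain ⟨m1, rfl⟩ := gn_surj z
    obtain ⟨k2, hk2⟩ := (gn_mem_iff hg' _ _).1 hz
    refine (gn_mem_iff hg' _ _).2 ⟨max k (max k1 k2), ?_⟩
    have l0 := hle k (max k (max k1 k2)) (le_max_left _ _)
    have l1 := hle k1 (max k (max k1 k2)) ((le_max_left _ _).trans (le_max_right _ _))
    have l2 := hle k2 (max k (max k1 k2)) ((le_max_right _ _).trans (le_max_right _ _))
    have h1 : MemF (ν' m1).1 (sepN (v 0).1 Φ.1) (c' (max k (max k1 k2))) :=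
      memF_congr (eqF_trans (eqF_mono hk1 l1) (eqF_mono hk l0)) (memF_mono hk2 l2)
    rw [hw0]
    refine memF_dense fun q hq => ?_
    obtain ⟨r, hr, z, hz, e⟩ := h1 q hq
    exact ⟨r, hr, memF_congl (eqF_symm e) (memF_intro z.1.1 (hz.trans z.2.1))⟩
  · intro h
    have h1 := (fs_truth (fun N _ (w : Fin 2 → N) => ∀ z, E z (w 0) → E z (w 1)) ν' c' hg'
      ![j, w 0]).1 h
    obtain ⟨k, hk⟩ := h1
    have hk' : FS (fun N _ (w : Fin 2 → N) => ∀ z, E z (w 0) → E z (w 1)) (c' k)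
        ![ν' j, v 0] := by
      have e : (fun i => ν' ((![j, w 0] : Fin 2 → ℕ) i)) = ![ν' j, v 0] := by
        funext i
        refine Fin.cases rfl (fun i => ?_) i
        refine Fin.cases hw0 (fun i => i.elim0) i
      rw [← e]
      exact hk
    have h2 := capN_eq (a := v 0) (y := ν' j) (p := c' k) (fun i q hq hc => sub_iff.1 hk' i q hq hc)
    obtain ⟨T', h3, h4⟩ := sy_two (v 0) (ν' j)
    have h5 := capN_sy h3 h4
    refine (gn_mem_iff hg' _ _).2 ⟨k, ?_⟩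
    rw [hm]
    exact memF_congl (eqF_symm h2) (memF_famN
      (fun Φ : {Φ : (v 0).1.I → P → Prop // HR G (sepN (v 0).1 Φ)} => sepN (v 0).1 Φ.1)
      ⟨fun i r => MemF ((v 0).1.el i) (ν' j).1 r, sepN_hr (v 0).2 h5⟩ _)

end

end CU
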